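import Pool.Agent.N167.TR.Start

namespace Pool.Agent.N167.SG

open Set Filter TR

/-- There are amplitudes above the data bound `y`. -/
def Amps (M : ℕ) (B D ν K s₀ α c ε : ℝ) (y : ℕ → ℝ) : Prop :=
  ∃ (A κ μ r : ℕ → ℝ) (N₀ : ℕ), Amp M B D ν K s₀ ε A κ μ r ∧
    (∀ n, N₀ ≤ n → α ≤ c * μ n) ∧
    (∀ n, N₀ ≤ n → B / D * (B ^ n * A n) ≤ 1 / 2 * (ν * D ^ (n + 1))) ∧
    ∀ n, y n ≤ A n

/-- Subcritical amplitudes `A σ^n`, `σ = (D/B) s`. -/
theorem amp_sub {M : ℕ} {B D ν K s₀ α b q c ε s : ℝ} (hM : 0 < M) (hB : 0 < B) (hν : 0 < ν)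
    (hReg : Reg D K s₀ α b q c ε) (hs0 : s₀ ≤ s) (hs1 : s < 1)
    (hKs : K * B ^ 2 = M * D ^ 3 * s ^ 3) {y : ℕ → ℝ}
    (hy : ∃ C, 0 ≤ C ∧ ∀ n, y n ≤ C * (D / B * s) ^ n) :
    Amps M B D ν K s₀ α c ε y := by
  have hM' : (0:ℝ) < M := by exact_mod_cast hM
  have hD1 := hReg.hD
  have hD : 0 < D := by linarith
  have hspos : 0 < s := lt_of_lt_of_le hReg.hs₀ hs0
  have hK := hReg.hK
  have hKpos : 0 < K := by linarith
  set σ : ℝ := D / B * s with hσ
  have hσpos : 0 < σ := by positivity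
  have hBσ : B * σ = D * s := by rw [hσ]; field_simp
  have hBσ3 : M * (B * σ ^ 3) = K := by
    have h1 : M * (B * σ ^ 3) = M * D ^ 3 * s ^ 3 / B ^ 2 := by rw [hσ]; field_simp
    rw [h1, ← hKs]
    field_simp
  obtain ⟨Cx, hCx0, hCx⟩ := hy
  have hε := hReg.hε
  set A : ℝ := Cx + 1 with hA
  have hApos : 0 < A := by positivity
  have hAx : Cx ≤ A := by linarith
  set a : ℝ := A / (B * σ ^ 2) with ha
  have hapos : 0 < a := by positivity
  have hAmp : Amp M B D ν K s₀ ε (fun n => A * σ ^ n) (fun _ => K)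
      (fun n => ν / a * (1 / s) ^ n) (fun n => a * (D * s) ^ n) := by
    have hμpos : ∀ n : ℕ, 0 < ν / a * (1 / s) ^ n := fun n => by positivity
    constructor
    · intro n; positivity
    · intro n; positivity
    · exact hμpos
    · intro n; exact hKpos.le
    · intro n
      rw [← hBσ, ha]
      field_simp
      ring
    · intro n
      rw [← hBσ, ha]
      have : K * (A / (B * σ ^ 2) * (B * σ) ^ n) = K * A / (B * σ ^ 2) * (B * σ) ^ n := by ring
      rw [this, ← hBσ3]
      field_simp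
      ring
    · intro n
      rw [mul_pow, one_div, inv_pow]
      field_simp
    · intro n
      rw [pow_succ]
      have h1 : 0 < a * (D * s) ^ n := by positivity
      have h2 : s₀ * D ≤ D * s := by nlinarith
      have h3 := mul_le_mul_of_nonneg_right h2 h1.le
      linarith
    · intro n
      rw [pow_succ]
      have h1 : 0 < a * (D * s) ^ n := by positivity
      have h2 : D * s ≤ D := by nlinarith
      have h3 := mul_le_mul_of_nonneg_right h2 h1.le
      linarith
    · intro n; exact le_rfl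
    · intro n
      have := mul_pos (show 0 < ε / (16 * D) by positivity) (hμpos n)
      linarith
    · intro n
      have := mul_pos (show 0 < ε / (16 * D) by positivity) (hμpos n)
      linarith
  obtain ⟨N₁, hN₁⟩ : ∃ N₁ : ℕ, ∀ n, N₁ ≤ n → α ≤ c * (ν / a * (1 / s) ^ n) := by
    have h1 : 1 < 1 / s := by rw [lt_div_iff₀ hspos]; linarith
    have h2 : Tendsto (fun n : ℕ => (1 / s) ^ n) atTop atTop := tendsto_pow_atTop_atTop_of_one_lt h1
    obtain ⟨N₀, hN₀⟩ := eventually_atTop.1 (h2.eventually_ge_atTop (α / (c * (ν / a))))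
    refine ⟨N₀, fun n hn => ?_⟩
    have h3 := hN₀ n hn
    have hc := hReg.hc
    have h4 : 0 < c * (ν / a) := by positivity
    rw [div_le_iff₀ h4] at h3
    linarith
  obtain ⟨N₂, hN₂⟩ : ∃ N₂ : ℕ, ∀ n, N₂ ≤ n →
      B / D * (B ^ n * (A * σ ^ n)) ≤ 1 / 2 * (ν * D ^ (n + 1)) := by
    have h2 : Tendsto (fun n : ℕ => s ^ n) atTop (nhds 0) :=
      tendsto_pow_atTop_nhds_zero_of_lt_one hspos.le hs1
    have h5 : 0 < D ^ 2 * ν / (2 * B * A) := by positivity
    obtain ⟨N₀, hN₀⟩ := eventually_atTop.1 (h2.eventually_le_const h5)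
    refine ⟨N₀, fun n hn => ?_⟩
    have h3 := hN₀ n hn
    have h6 : B / D * (B ^ n * (A * σ ^ n)) = B * A / D * (D ^ n * s ^ n) := by
      have : B ^ n * σ ^ n = D ^ n * s ^ n := by rw [← mul_pow, ← mul_pow, hBσ]
      calc B / D * (B ^ n * (A * σ ^ n)) = B * A / D * (B ^ n * σ ^ n) := by ring
        _ = _ := by rw [this]
    rw [h6]
    rw [le_div_iff₀ (by positivity)] at h3
    have h8 : (0:ℝ) < D ^ n := by positivity
    have h9 : 1 / 2 * (ν * D ^ (n + 1)) = (D ^ 2 * ν) / (2 * D) * D ^ n := by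
      rw [pow_succ]; field_simp
    rw [h9]
    have h10 : B * A / D * (D ^ n * s ^ n) = s ^ n * (2 * B * A) / (2 * D) * D ^ n := by
      field_simp
    rw [h10]
    apply mul_le_mul_of_nonneg_right _ h8.le
    exact div_le_div_of_nonneg_right h3 (by positivity)
  refine ⟨_, _, _, _, max N₁ N₂, hAmp, ?_, ?_, ?_⟩
  · intro n hn
    exact hN₁ n (le_trans (le_max_left _ _) hn)
  · intro n hn
    exact hN₂ n (le_trans (le_max_right _ _) hn)
  · intro n
    calc y n ≤ Cx * σ ^ n := hCx n
      _ ≤ A * σ ^ n := mul_le_mul_of_nonneg_right hAx (by positivity)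

/-- Critical amplitudes `lev (n+1) (D/B)^n` for `M D^3 = B^2`. -/
theorem amp_crit {M : ℕ} {B D ν : ℝ} (hB : 0 < B) (hν : 0 < ν) (hD : 4 ≤ D)
    (hcrit : M * D ^ 3 = B ^ 2) {y : ℕ → ℝ}
    (hy : ∀ η : ℝ, 0 < η → ∃ N : ℕ, ∀ n, N ≤ n → y n ≤ η * (D / B) ^ n) :
    Amps M B D ν 1 (39/10/4) (103/100) (17/20) (1/100) y := by
  have hDp : 0 < D := by linarith
  set σ := D / B with hσ
  have hσpos : 0 < σ := by positivity
  have hBσ : B * σ = D := by rw [hσ]; field_simp
  have hMσ : M * (B * σ ^ 3) = 1 := by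
    have h1 : M * (B * σ ^ 3) = M * D ^ 3 / B ^ 2 := by rw [hσ]; field_simp
    rw [h1, hcrit]
    field_simp
  set δ : ℝ := 1 / 100 / (16 * D) with hδ
  have hδ0 : 0 < δ := by positivity
  have hδ1 : δ ≤ 1 / 100 := by
    rw [hδ, div_le_iff₀ (by positivity)]
    nlinarith
  set v : ℝ := ν * D ^ 2 / (2 * B) with hv
  have hv0 : 0 < v := by positivity
  have hvσ : ν * (B * σ ^ 2) = 2 * v := by rw [hv, hσ]; field_simp
  set h : ℝ := v * δ / 10 with hh
  have hh0 : 0 < h := by positivity
  have hhv : h ≤ v / 1000 := by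
    rw [hh]
    nlinarith
  -- the data
  obtain ⟨C, hC0, hC₁⟩ := bdd_of_small hσpos hy
  obtain ⟨N₃, hN₁⟩ := hy v (by positivity)
  set A : ℝ := C + h * (N₃ + 1) with hA
  set l := lev A h v with hl
  have hlpos : ∀ n, 0 < l n := fun n => lt_of_lt_of_le hv0 (lev_ge _ _ _ _)
  have hlC : ∀ n, n < N₃ → C ≤ l (n + 1) := by
    intro n hn
    have h1 : ((n + 1 : ℕ) : ℝ) ≤ N₃ := by exact_mod_cast hn
    have h2 : h * ((n + 1 : ℕ) : ℝ) ≤ h * N₃ := mul_le_mul_of_nonneg_left h1 hh0.le
    have h3 : A - h * ((n + 1 : ℕ) : ℝ) ≤ l (n + 1) := le_max_left _ _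
    nlinarith
  have hAmp : Amp M B D ν 1 (39/10/4) (1/100) (fun n => l (n + 1) * σ ^ n)
      (fun n => l (n + 1) * l (n + 2) / l n ^ 2) (fun n => 2 * v * l (n + 1) / l n ^ 2)
      (fun n => D ^ n / (B * σ ^ 2) * l n ^ 2 / l (n + 1)) := by
    constructor
    · intro n; have := hlpos (n + 1); positivity
    · intro n; have := hlpos (n + 1); have := hlpos n; positivity
    · intro n; have := hlpos (n + 1); have := hlpos n; positivity
    · intro n; have := hlpos (n + 1); have := hlpos n; have := hlpos (n + 2); positivity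
    · intro n
      have := hlpos (n + 1)
      have := hlpos (n + 1 + 1)
      rw [← hBσ]
      field_simp
      try ring
    · intro n
      have := hlpos (n + 1)
      have := hlpos (n + 1 + 1)
      have := hlpos n
      have e : l (n + 1) * l (n + 2) / l n ^ 2 * (D ^ n / (B * σ ^ 2) * l n ^ 2 / l (n + 1))
          = D ^ n * l (n + 2) / (B * σ ^ 2) := by
        field_simp
      rw [e]
      have e2 : (M : ℝ) = 1 / (B * σ ^ 3) := by
        rw [eq_div_iff (by positivity)]; exact hMσ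
      have e3 : D ^ n = B ^ n * σ ^ n := by rw [← hBσ, mul_pow]
      rw [e2, e3]
      field_simp
      try ring
    · intro n
      have := hlpos (n + 1)
      have := hlpos n
      rw [← hvσ]
      field_simp
    · intro n
      have hp := hlpos n
      have hy := hlpos (n + 1)
      have hm := hlpos (n + 1 + 1)
      have h1 := lev_step (A := A) (v := v) hh0.le n
      have h2 := lev_anti (A := A) (v := v) hh0.le (n + 1)
      have h3 := lev_ge A h v (n + 1)
      rw [← hl] at h1 h2 h3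
      have h3' : h ≤ l (n + 1) / 1000 := by linarith
      have h4 : 39/10/4 * l n ^ 2 ≤ l (n + 1) ^ 2 := by nlinarith
      have h5 : 39/10/4 * l n ^ 2 / l (n + 1) ≤ l (n + 1) ^ 2 / l (n + 1 + 1) := by
        rw [div_le_div_iff₀ hy hm]
        exact mul_le_mul h4 h2 hm.le (by positivity)
      have h6 : 39/10/4 * D * (D ^ n / (B * σ ^ 2) * l n ^ 2 / l (n + 1))
          = D ^ n * D / (B * σ ^ 2) * (39/10/4 * l n ^ 2 / l (n + 1)) := by ring
      have h7 : D ^ (n + 1) / (B * σ ^ 2) * l (n + 1) ^ 2 / l (n + 1 + 1)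
          = D ^ n * D / (B * σ ^ 2) * (l (n + 1) ^ 2 / l (n + 1 + 1)) := by rw [pow_succ]; ring
      rw [h6, h7]
      exact mul_le_mul_of_nonneg_left h5 (by positivity)
    · intro n
      have hp := hlpos n
      have hy := hlpos (n + 1)
      have hm := hlpos (n + 1 + 1)
      have h1 := lev_step (A := A) (v := v) hh0.le n
      have h2 := lev_anti (A := A) (v := v) hh0.le n
      have h3 := lev_ge A h v (n + 1)
      have h7 := lev_conv (A := A) (h := h) (v := v) n
      rw [← hl] at h1 h2 h3 h7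
      have h8 : l (n + 1) ^ 3 ≤ l (n + 1 + 1) * l n ^ 2 := by
        have h9 : 2 * l (n + 1) - l n ≤ l (n + 1 + 1) := by linarith
        have h10 : (2 * l (n + 1) - l n) * l n ^ 2 ≤ l (n + 1 + 1) * l n ^ 2 :=
          mul_le_mul_of_nonneg_right h9 (by positivity)
        refine le_trans ?_ h10
        obtain ⟨e, he⟩ : ∃ e, l n = l (n + 1) + e := ⟨l n - l (n + 1), by ring⟩
        have he0 : 0 ≤ e := by linarith
        have he1 : e ≤ l (n + 1) / 2 := by linarith
        rw [he]
        have e1 : (2 * l (n + 1) - (l (n + 1) + e)) * (l (n + 1) + e) ^ 2 - l (n + 1) ^ 3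
            = e * (l (n + 1) ^ 2 - l (n + 1) * e - e ^ 2) := by ring
        have e2 : 0 ≤ l (n + 1) ^ 2 - l (n + 1) * e - e ^ 2 := by nlinarith
        have e3 := mul_nonneg he0 e2
        linarith
      have h5 : l (n + 1) ^ 2 / l (n + 1 + 1) ≤ l n ^ 2 / l (n + 1) := by
        rw [div_le_div_iff₀ hm hy]
        linarith
      have h6 : D * (D ^ n / (B * σ ^ 2) * l n ^ 2 / l (n + 1))
          = D ^ n * D / (B * σ ^ 2) * (l n ^ 2 / l (n + 1)) := by ring
      have h7 : D ^ (n + 1) / (B * σ ^ 2) * l (n + 1) ^ 2 / l (n + 1 + 1)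
          = D ^ n * D / (B * σ ^ 2) * (l (n + 1) ^ 2 / l (n + 1 + 1)) := by rw [pow_succ]; ring
      rw [h6, h7]
      exact mul_le_mul_of_nonneg_left h5 (by positivity)
    · intro n
      have hp := hlpos n
      have hy := hlpos (n + 1)
      have h1 := lev_anti (A := A) (v := v) hh0.le n
      have h2 := lev_anti (A := A) (v := v) hh0.le (n + 1)
      rw [← hl] at h1 h2
      have hm := hlpos (n + 2)
      have h3 : l (n + 2) ≤ l n := le_trans h2 h1
      rw [div_le_one (by positivity)]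
      nlinarith
    · intro n
      have hp := hlpos n
      have hy := hlpos (n + 1)
      have hm := hlpos (n + 2)
      have h1 := lev_step (A := A) (v := v) hh0.le n
      have h2 := lev_step (A := A) (v := v) hh0.le (n + 1)
      have h3 := lev_ge A h v (n + 1)
      rw [← hl] at h1 h2 h3
      rw [← hδ, le_div_iff₀ (by positivity)]
      have h4 : (1 - δ * (2 * v * l (n + 1) / l n ^ 2)) * l n ^ 2
          = l n ^ 2 - 2 * δ * v * l (n + 1) := by field_simp
      rw [h4]
      have h5 : l n ^ 2 ≤ (l (n + 1) + h) ^ 2 := pow_le_pow_left₀ hp.le h1 2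
      have h6 : l (n + 1) * (l (n + 1) - h) ≤ l (n + 1) * l (n + 2) :=
        mul_le_mul_of_nonneg_left (by linarith) hy.le
      have h7 : δ * v = 10 * h := by rw [hh]; ring
      have h8 : 2 * δ * v * l (n + 1) = 20 * h * l (n + 1) := by
        calc 2 * δ * v * l (n + 1) = 2 * (δ * v) * l (n + 1) := by ring
          _ = _ := by rw [h7]; ring
      rw [h8]
      have h9 : h ≤ l (n + 1) := by linarith
      nlinarith [mul_nonneg hh0.le hy.le, mul_le_mul_of_nonneg_left h9 hh0.le]
    · intro n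
      have hp := hlpos n
      have hy := hlpos (n + 1)
      have hm := hlpos (n + 1 + 1)
      have hk := hlpos (n + 1 + 2)
      have h1 := lev_step (A := A) (v := v) hh0.le n
      have h2 := lev_step (A := A) (v := v) hh0.le (n + 1)
      have h2' := lev_step (A := A) (v := v) hh0.le (n + 1 + 1)
      have h3 := lev_ge A h v (n + 1)
      rw [← hl] at h1 h2 h3 h2'
      rw [← hδ, le_div_iff₀ (by positivity)]
      have h7 : l (n + 1) - h ≤ l (n + 1 + 1) := by linarith
      have h8 : l (n + 1) - 2 * h ≤ l (n + 1 + 2) := by linarith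
      have h9 : (l (n + 1) - h) * (l (n + 1) - 2 * h) ≤
          l (n + 1 + 1) * l (n + 1 + 2) := mul_le_mul h7 h8 (by linarith) hm.le
      have h5 : l n ^ 2 ≤ 2 * l (n + 1) ^ 2 := by
        have := pow_le_pow_left₀ hp.le h1 2
        nlinarith
      have h10 : v / l (n + 1) ≤ 2 * v * l (n + 1) / l n ^ 2 := by
        rw [div_le_div_iff₀ hy (by positivity)]
        nlinarith
      have h11 : (1 - δ * (2 * v * l (n + 1) / l n ^ 2)) * l (n + 1) ^ 2
          ≤ (1 - δ * (v / l (n + 1))) * l (n + 1) ^ 2 := by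
        apply mul_le_mul_of_nonneg_right _ (by positivity)
        have := mul_le_mul_of_nonneg_left h10 hδ0.le
        linarith
      have h7' : δ * v = 10 * h := by rw [hh]; ring
      have h12 : (1 - δ * (v / l (n + 1))) * l (n + 1) ^ 2
          = l (n + 1) ^ 2 - 10 * h * l (n + 1) := by
        have : (1 - δ * (v / l (n + 1))) * l (n + 1) ^ 2
          = l (n + 1) ^ 2 - δ * v * l (n + 1) := by field_simp
        rw [this, h7']
      rw [h12] at h11
      refine le_trans h11 (le_trans ?_ h9)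
      nlinarith [mul_nonneg hh0.le hy.le]
  obtain ⟨N₀, hN₀⟩ := exists_nat_ge ((A - v) / h)
  have hc : ∀ m, N₀ ≤ m → l m = v := by
    intro m hm
    rw [hl]
    unfold lev
    apply max_eq_right
    rw [div_le_iff₀ hh0] at hN₀
    have : (N₀ : ℝ) ≤ m := by exact_mod_cast hm
    nlinarith
  refine ⟨_, _, _, _, N₀, hAmp, ?_, ?_, ?_⟩
  · intro n hn
    rw [hc n hn, hc (n + 1) (by omega)]
    have : 2 * v * v / v ^ 2 = 2 := by field_simp
    rw [this]
    norm_num
  · intro n hn
    rw [hc (n + 1) (by omega)]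
    have e : B ^ n * (v * σ ^ n) = v * D ^ n := by rw [← hBσ, mul_pow]; ring
    rw [e, hv]
    apply le_of_eq
    field_simp
    try ring
  · intro n
    have h5 : (0:ℝ) < σ ^ n := by positivity
    rcases le_or_gt N₃ n with hn | hn
    · calc y n ≤ v * σ ^ n := hN₁ n hn
        _ ≤ l (n + 1) * σ ^ n := mul_le_mul_of_nonneg_right (lev_ge _ _ _ _) h5.le
    · calc y n ≤ C * σ ^ n := hC₁ n
        _ ≤ l (n + 1) * σ ^ n := mul_le_mul_of_nonneg_right (hlC n hn) h5.le

end Pool.Agent.N167.SG
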