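import Pool.Agent.N167.TR.Def

/-! The converse (statement): blow-up above the threshold `B^2 = M D^3` (helper167, helper841). -/

namespace Pool.Agent.N167.SG

open Set TR

/-- Above the threshold every nonnegative datum which is large at the root has no global solution
which is rapidly decreasing locally uniformly in time (no force). -/
def S_blow : Prop :=
  ∀ (M : ℕ) (B D ν : ℝ), 0 < M → 0 < B → 1 < D → 0 < ν → M * D ^ 3 < B ^ 2 →
    ∃ R : ℝ, ∀ x : List (Fin M) → ℝ, (∀ j, 0 ≤ x j) → R ≤ x [] →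
      ¬ ∃ X : List (Fin M) → ℝ → ℝ, IsSol B D ν (fun _ _ => 0) x X ∧
        ∀ T : ℝ, ∃ a : ℕ → ℝ, Rapid a ∧ ∀ j, ∀ t ∈ Icc (0 : ℝ) T, |X j t| ≤ a j.length

end Pool.Agent.N167.SG
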