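import Pool.Agent.N841.DY.Blow
import Pool.Agent.N167.SG.BlowStm
import Pool.Agent.N167.TR.Start
import Pool.Agent.N157.SG.Uniq2
import Pool.Agent.N247.TR_Gen

/-! Blow-up on the tree above the threshold, after the proof of helper505 and helper841 for the
chain (Cheskidov's theorem). -/

set_option autoImplicit false

namespace Pool.Agent.N167.SG

open Set Filter TR
open Pool.Agent.N247.TR (L mem_L gen_eq)
open Pool.Agent.N157.SG (L_succ L_const)

variable {M : ℕ}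

theorem inflow_sum (B : ℝ) (a : List (Fin M) → ℝ) (n : ℕ) :
    ∑ j ∈ L (n + 1), inflow B a j = M * (B ^ n * ∑ j ∈ L n, a j ^ 2) := by
  rw [L_succ]
  have h : ∀ i ∈ L (M := M) n, ∑ k : Fin M, inflow B a (k :: i) = M * (B ^ n * a i ^ 2) := by
    intro i hi
    simp only [inflow, (mem_L n i).1 hi, Finset.sum_const, Finset.card_univ, Fintype.card_fin,
      nsmul_eq_mul]
  rw [Finset.sum_congr rfl h, Finset.mul_sum, Finset.mul_sum]

theorem inflow_sum_zero (B : ℝ) (a : List (Fin M) → ℝ) : ∑ j ∈ L 0, inflow B a j = 0 := by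
  apply Finset.sum_eq_zero
  intro j hj
  have h := (mem_L 0 j).1 hj
  rw [List.length_eq_zero_iff.1 h]
  rfl

theorem rhs_sum (B D ν : ℝ) (a : List (Fin M) → ℝ) (n : ℕ) :
    ∑ j ∈ L n, rhs B D ν (fun _ => 0) a j = ∑ j ∈ L n, inflow B a j
      - B ^ n * ∑ j ∈ L n, a j * ∑ k : Fin M, a (k :: j) - ν * (D ^ n * ∑ j ∈ L n, a j) := by
  rw [Finset.mul_sum, Finset.mul_sum, Finset.mul_sum, ← Finset.sum_sub_distrib,
    ← Finset.sum_sub_distrib]
  apply Finset.sum_congr rfl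
  intro j hj
  rw [rhs, (mem_L n j).1 hj]
  ring

theorem cs_gen (a : List (Fin M) → ℝ) (n : ℕ) :
    (∑ j ∈ L n, a j) ^ 2 ≤ (M : ℝ) ^ n * ∑ j ∈ L n, a j ^ 2 := by
  have h := sq_sum_le_card_mul_sum_sq (s := L (M := M) n) (f := a)
  have h1 := L_const (M := M) n 1
  simp only [Finset.sum_const, nsmul_eq_mul, mul_one] at h1
  rw [h1] at h
  exact h

theorem cross_gen {B w s : ℝ} (hB : 0 < B) (hw : 0 < w) (hs : 0 < s)
    (hs2 : s ^ 2 * (M * w * B) = 1) (a : List (Fin M) → ℝ) (n : ℕ) :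
    w ^ n * (B ^ n * ∑ j ∈ L n, a j * ∑ k : Fin M, a (k :: j)) ≤
      M * s / 2 * ((w * B) ^ n * ∑ j ∈ L n, a j ^ 2
        + (w * B) ^ (n + 1) * ∑ j ∈ L (n + 1), a j ^ 2) := by
  have key : ∀ u v : ℝ, u * v ≤ s / 2 * u ^ 2 + M * s / 2 * (w * B) * v ^ 2 := by
    intro u v
    have h2 : 0 ≤ (s * u - v) ^ 2 := sq_nonneg _
    have h3 : 0 ≤ s * (s * u ^ 2 + M * s * (w * B) * v ^ 2 - 2 * (u * v)) := by
      have : s * (s * u ^ 2 + M * s * (w * B) * v ^ 2 - 2 * (u * v)) =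
          s ^ 2 * u ^ 2 + (s ^ 2 * (M * w * B)) * v ^ 2 - 2 * s * u * v := by ring
      rw [this, hs2]; nlinarith
    have := nonneg_of_mul_nonneg_right h3 hs
    linarith
  have h1 : ∀ j ∈ L (M := M) n, a j * ∑ k : Fin M, a (k :: j) ≤
      M * s / 2 * a j ^ 2 + M * s / 2 * (w * B) * ∑ k : Fin M, a (k :: j) ^ 2 := by
    intro j _
    rw [Finset.mul_sum]
    calc ∑ k : Fin M, a j * a (k :: j)
        ≤ ∑ k : Fin M, (s / 2 * a j ^ 2 + M * s / 2 * (w * B) * a (k :: j) ^ 2) :=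
          Finset.sum_le_sum fun k _ => key _ _
      _ = _ := by
          have e1 : ∑ _k : Fin M, s / 2 * a j ^ 2 = M * (s / 2 * a j ^ 2) := by simp
          have e2 : ∑ k : Fin M, M * s / 2 * (w * B) * a (k :: j) ^ 2
              = M * s / 2 * (w * B) * ∑ k : Fin M, a (k :: j) ^ 2 := by rw [Finset.mul_sum]
          rw [Finset.sum_add_distrib, e1, e2]
          ring
  have h2 := Finset.sum_le_sum h1
  rw [Finset.sum_add_distrib, ← Finset.mul_sum, ← Finset.mul_sum, ← L_succ n (fun j => a j ^ 2)]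
    at h2
  have h3 := mul_le_mul_of_nonneg_left h2 (by positivity : 0 ≤ (w * B) ^ n)
  have e : w ^ n * (B ^ n * ∑ j ∈ L n, a j * ∑ k : Fin M, a (k :: j))
      = (w * B) ^ n * ∑ j ∈ L n, a j * ∑ k : Fin M, a (k :: j) := by rw [mul_pow]; ring
  rw [e]
  refine le_trans h3 (le_of_eq ?_)
  rw [pow_succ]
  ring

/-- the static inequality on the tree -/
theorem static_tree {B D w s ν K : ℝ} (hM : 0 < M) (hB : 0 < B) (hw : 0 < w) (hD : 1 ≤ D)
    (hs : 0 < s) (hs2 : s ^ 2 * (M * w * B) = 1) (hsw : s < w)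
    (hρ : w * D ^ 2 * M / B < 1) (hK : K = (1 - w * D ^ 2 * M / B)⁻¹)
    (a : List (Fin M) → ℝ) (N : ℕ) :
    M * (w - s) / (2 * K) * (∑ n ∈ Finset.range (N + 1), w ^ n * ∑ j ∈ L n, a j) ^ 2
      - ν ^ 2 * K / (2 * (M * (w - s)))
      - (M * w * ((w * B) ^ N * ∑ j ∈ L N, a j ^ 2)
          + M * s / 2 * ((w * B) ^ (N + 1) * ∑ j ∈ L (N + 1), a j ^ 2)) ≤
    ∑ n ∈ Finset.range (N + 1), w ^ n * ∑ j ∈ L n, rhs B D ν (fun _ => 0) a j := by
  have hM' : (0:ℝ) < M := by exact_mod_cast hM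
  obtain ⟨ρ, hρdef⟩ : ∃ ρ, ρ = w * D ^ 2 * M / B := ⟨_, rfl⟩
  rw [← hρdef] at hρ hK
  have hD0 : 0 < D := by linarith
  have hρ0 : 0 < ρ := by rw [hρdef]; positivity
  have hKpos : 0 < K := by rw [hK]; exact inv_pos.2 (by linarith)
  obtain ⟨q, hq⟩ : ∃ q : ℕ → ℝ, q = fun n => (w * B) ^ n * ∑ j ∈ L (M := M) n, a j ^ 2 := ⟨_, rfl⟩
  have hqn : ∀ n, q n = (w * B) ^ n * ∑ j ∈ L (M := M) n, a j ^ 2 := fun n => by rw [hq]
  have hg0 : ∀ n, 0 ≤ ∑ j ∈ L (M := M) n, a j ^ 2 := fun n => Finset.sum_nonneg fun j _ => sq_nonneg _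
  have hq0 : ∀ n, 0 ≤ q n := fun n => by rw [hqn]; have := hg0 n; positivity
  obtain ⟨Q, hQ⟩ : ∃ Q, Q = ∑ n ∈ Finset.range (N + 1), q n := ⟨_, rfl⟩
  obtain ⟨V, hV⟩ : ∃ V, V = ∑ n ∈ Finset.range (N + 1), w ^ n * (D ^ n * ∑ j ∈ L (M := M) n, a j) :=
    ⟨_, rfl⟩
  obtain ⟨S, hS⟩ : ∃ S, S = ∑ n ∈ Finset.range (N + 1), w ^ n * ∑ j ∈ L (M := M) n, a j :=
    ⟨_, rfl⟩
  have hQ0 : 0 ≤ Q := by rw [hQ]; exact Finset.sum_nonneg fun n _ => hq0 n
  have hgeo : ∑ n ∈ Finset.range (N + 1), ρ ^ n ≤ K := by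
    rw [hK, ← tsum_geometric_of_lt_one hρ0.le hρ]
    exact (summable_geometric_of_lt_one hρ0.le hρ).sum_le_tsum _ (fun n _ => pow_nonneg hρ0.le n)
  -- Cauchy-Schwarz in each generation, weight `E`
  have hCS : ∀ (E : ℝ) (n : ℕ), 0 ≤ E → (w ^ n * (E ^ n * ∑ j ∈ L (M := M) n, a j)) ^ 2 ≤
      q n * (w * E ^ 2 * M / B) ^ n := by
    intro E n hE
    have h1 := cs_gen a n
    rw [hqn]
    have e1 : (w ^ n * (E ^ n * ∑ j ∈ L (M := M) n, a j)) ^ 2
        = (w ^ n * E ^ n) ^ 2 * (∑ j ∈ L (M := M) n, a j) ^ 2 := by ring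
    have e2 : (w * B) ^ n * (∑ j ∈ L (M := M) n, a j ^ 2) * (w * E ^ 2 * M / B) ^ n
        = (w ^ n * E ^ n) ^ 2 * ((M:ℝ) ^ n * ∑ j ∈ L (M := M) n, a j ^ 2) := by
      have e3 : (w * B) ^ n * (w * E ^ 2 * M / B) ^ n = (w ^ n * E ^ n) ^ 2 * (M:ℝ) ^ n := by
        rw [← mul_pow]
        have : w * B * (w * E ^ 2 * M / B) = (w * E) ^ 2 * M := by field_simp
        rw [this, mul_pow, ← pow_mul, mul_comm 2 n, pow_mul, ← mul_pow]
      calc (w * B) ^ n * (∑ j ∈ L (M := M) n, a j ^ 2) * (w * E ^ 2 * M / B) ^ n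
          = ((w * B) ^ n * (w * E ^ 2 * M / B) ^ n) * ∑ j ∈ L (M := M) n, a j ^ 2 := by ring
        _ = _ := by rw [e3]; ring
    rw [e1, e2]
    exact mul_le_mul_of_nonneg_left h1 (sq_nonneg _)
  have hV2 : V ^ 2 ≤ Q * K := by
    have h1 : V ^ 2 ≤ Q * ∑ n ∈ Finset.range (N + 1), ρ ^ n := by
      rw [hV, hQ]
      refine Finset.sum_sq_le_sum_mul_sum_of_sq_le_mul _ (fun n _ => hq0 n)
        (fun n _ => pow_nonneg hρ0.le n) (fun n _ => ?_)
      rw [hρdef]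
      exact hCS D n hD0.le
    exact h1.trans (mul_le_mul_of_nonneg_left hgeo hQ0)
  have hS2 : S ^ 2 ≤ Q * K := by
    have h1 : S ^ 2 ≤ Q * ∑ n ∈ Finset.range (N + 1), (w * M / B) ^ n := by
      rw [hS, hQ]
      refine Finset.sum_sq_le_sum_mul_sum_of_sq_le_mul _ (fun n _ => hq0 n)
        (fun n _ => by positivity) (fun n _ => ?_)
      have h2 := hCS 1 n zero_le_one
      simp only [one_pow, one_mul, mul_one] at h2
      exact h2
    have h2 : ∑ n ∈ Finset.range (N + 1), (w * M / B) ^ n ≤ ∑ n ∈ Finset.range (N + 1), ρ ^ n := by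
      refine Finset.sum_le_sum fun n _ => ?_
      refine pow_le_pow_left₀ (by positivity) ?_ n
      rw [hρdef]
      have h3 : 1 ≤ D ^ 2 := one_le_pow₀ hD
      apply div_le_div_of_nonneg_right _ hB.le
      have h4 : 0 < w * M := by positivity
      nlinarith
    exact h1.trans (mul_le_mul_of_nonneg_left (h2.trans hgeo) hQ0)
  -- the sum
  have hsplit : ∑ n ∈ Finset.range (N + 1), w ^ n * ∑ j ∈ L n, rhs B D ν (fun _ => 0) a j =
      ∑ n ∈ Finset.range (N + 1), w ^ n * ∑ j ∈ L n, inflow B a j -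
      ∑ n ∈ Finset.range (N + 1), w ^ n * (B ^ n * ∑ j ∈ L n, a j * ∑ k : Fin M, a (k :: j))
        - ν * V := by
    rw [hV, Finset.mul_sum, ← Finset.sum_sub_distrib, ← Finset.sum_sub_distrib]
    refine Finset.sum_congr rfl fun n _ => ?_
    rw [rhs_sum]
    ring
  have hfeed : ∑ n ∈ Finset.range (N + 1), w ^ n * ∑ j ∈ L n, inflow B a j
      = M * w * (Q - q N) := by
    rw [Finset.sum_range_succ', hQ, Finset.sum_range_succ, inflow_sum_zero, mul_zero, add_zero,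
      add_sub_cancel_right, Finset.mul_sum]
    refine Finset.sum_congr rfl fun n _ => ?_
    rw [inflow_sum, hqn, pow_succ, mul_pow]
    ring
  have hnb : ∑ n ∈ Finset.range (N + 1),
      w ^ n * (B ^ n * ∑ j ∈ L n, a j * ∑ k : Fin M, a (k :: j)) ≤
      M * s / 2 * (2 * Q + q (N + 1)) := by
    calc ∑ n ∈ Finset.range (N + 1),
          w ^ n * (B ^ n * ∑ j ∈ L n, a j * ∑ k : Fin M, a (k :: j))
        ≤ ∑ n ∈ Finset.range (N + 1), M * s / 2 * (q n + q (n + 1)) := by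
          refine Finset.sum_le_sum fun n _ => ?_
          rw [hqn, hqn]
          exact cross_gen hB hw hs hs2 a n
      _ = M * s / 2 * (Q + (Q + q (N + 1) - q 0)) := by
          rw [← Finset.mul_sum, Finset.sum_add_distrib]
          congr 2
          · rw [hQ]
          · have h1 := Finset.sum_range_succ' q (N + 1)
            have h2 := Finset.sum_range_succ q (N + 1)
            rw [hQ]; linarith
      _ ≤ _ := by
          apply mul_le_mul_of_nonneg_left _ (by positivity)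
          linarith [hq0 0]
  rw [hsplit, hfeed, ← hS, ← hqn, ← hqn]
  obtain ⟨c, hc⟩ : ∃ c, c = M * (w - s) := ⟨_, rfl⟩
  have hc0 : 0 < c := by rw [hc]; exact mul_pos hM' (by linarith)
  rw [← hc]
  have hA' : M * w = c + M * s := by rw [hc]; ring
  have hVb : ν * V ≤ c / (2 * K) * V ^ 2 + ν ^ 2 * K / (2 * c) := by
    have h1 : 0 ≤ (c * V - ν * K) ^ 2 := sq_nonneg _
    have e : c / (2 * K) * V ^ 2 + ν ^ 2 * K / (2 * c) - ν * V = (c * V - ν * K) ^ 2 / (2 * c * K) := by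
      field_simp; ring
    have : 0 ≤ (c * V - ν * K) ^ 2 / (2 * c * K) := by positivity
    linarith
  have hcK : 0 < c / (2 * K) := by positivity
  have e3 : c / (2 * K) * (Q * K) = c / 2 * Q := by field_simp
  have h5 : c / (2 * K) * V ^ 2 ≤ c / 2 * Q := by
    rw [← e3]; exact mul_le_mul_of_nonneg_left hV2 hcK.le
  have h6 : c / (2 * K) * S ^ 2 ≤ c / 2 * Q := by
    rw [← e3]; exact mul_le_mul_of_nonneg_left hS2 hcK.le
  have h7 : M * w * (Q - q N) = c * Q + M * s * Q - M * w * q N := by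
    calc M * w * (Q - q N) = (M * w) * Q - M * w * q N := by ring
      _ = (c + M * s) * Q - M * w * q N := by rw [hA']
      _ = _ := by ring
  rw [h7]
  linarith

/-- Blow-up above the threshold. -/
theorem blow : S_blow := by
  intro M B D ν hM hB hD hν hth
  have hM' : (0:ℝ) < M := by exact_mod_cast hM
  have hD0 : 0 < D := by linarith
  -- the weight
  set u : ℝ := B / (M * D ^ 2) with hu
  have hu0 : 0 < u := by positivity
  have hlt : 1 / (M * B) < u ^ 3 := by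
    rw [hu, div_pow, div_lt_div_iff₀ (by positivity) (by positivity)]
    have h1 : (M * D ^ 3) ^ 2 < (B ^ 2) ^ 2 := pow_lt_pow_left₀ hth (by positivity) (by norm_num)
    have h2 : M * (M * D ^ 3) ^ 2 < M * (B ^ 2) ^ 2 := mul_lt_mul_of_pos_left h1 hM'
    calc 1 * (M * D ^ 2) ^ 3 = M * (M * D ^ 3) ^ 2 := by ring
      _ < M * (B ^ 2) ^ 2 := h2
      _ = B ^ 3 * (M * B) := by ring
  obtain ⟨y, hy1, hy2⟩ := exists_between hlt
  have hy0 : 0 < y := lt_trans (by positivity) hy1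
  obtain ⟨w, hwdef⟩ : ∃ w : ℝ, w = y ^ ((1:ℝ) / 3) := ⟨_, rfl⟩
  have hw : 0 < w := by rw [hwdef]; exact Real.rpow_pos_of_pos hy0 _
  have hw3 : w ^ 3 = y := by
    rw [hwdef, ← Real.rpow_natCast, ← Real.rpow_mul hy0.le]
    norm_num
  have hwu : w < u := by
    apply lt_of_pow_lt_pow_left₀ 3 hu0.le
    rw [hw3]; exact hy2
  have hMBw : 1 < M * B * w ^ 3 := by
    rw [hw3]
    rw [div_lt_iff₀ (by positivity)] at hy1
    linarith
  obtain ⟨s, hsdef⟩ : ∃ s, s = 1 / Real.sqrt (M * w * B) := ⟨_, rfl⟩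
  have hs : 0 < s := by rw [hsdef]; positivity
  have hs2 : s ^ 2 * (M * w * B) = 1 := by
    rw [hsdef, div_pow, Real.sq_sqrt (by positivity)]
    field_simp
  have hsw : s < w := by
    apply lt_of_pow_lt_pow_left₀ 2 hw.le
    have h1 : s ^ 2 = 1 / (M * w * B) := by rw [eq_div_iff (by positivity)]; exact hs2
    rw [h1, div_lt_iff₀ (by positivity)]
    nlinarith
  have hρ : w * D ^ 2 * M / B < 1 := by
    rw [div_lt_one hB]
    have := mul_lt_mul_of_pos_right hwu (by positivity : 0 < (M:ℝ) * D ^ 2)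
    rw [hu, div_mul_cancel₀ _ (by positivity)] at this
    linarith
  obtain ⟨K, hK⟩ : ∃ K, K = (1 - w * D ^ 2 * M / B)⁻¹ := ⟨_, rfl⟩
  have hKpos : 0 < K := by rw [hK]; exact inv_pos.2 (by linarith)
  have hc0 : 0 < M * (w - s) := mul_pos hM' (by linarith)
  obtain ⟨c, hc⟩ : ∃ c, c = M * (w - s) / (2 * K) := ⟨_, rfl⟩
  obtain ⟨K3, hK3⟩ : ∃ K3, K3 = ν ^ 2 * K / (2 * (M * (w - s))) := ⟨_, rfl⟩
  have hcpos : 0 < c := by rw [hc]; positivity
  have hK3pos : 0 < K3 := by rw [hK3]; positivity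
  obtain ⟨R, hR⟩ : ∃ R, R = 1 + 2 * (K3 + 1) / c := ⟨_, rfl⟩
  have hR1 : 1 ≤ R := by
    rw [hR]
    have : 0 ≤ 2 * (K3 + 1) / c := by positivity
    linarith
  have hcR : 2 * (K3 + 1) ≤ c * R ^ 2 := by
    have h1 : 2 * (K3 + 1) / c ≤ R := by rw [hR]; linarith
    rw [div_le_iff₀ hcpos] at h1
    have h2 : R ≤ R ^ 2 := by nlinarith
    nlinarith
  refine ⟨R, fun x hx0 hxR ⟨X, hX, hsm⟩ => ?_⟩
  obtain ⟨a, ha, hab⟩ := hsm (4 / (c * R))
  have hT0 : 0 ≤ 4 / (c * R) := by positivity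
  -- bound of the boundary terms
  obtain ⟨ρ, hρdef⟩ : ∃ ρ, ρ = 1 / (1 + 2 * (w * B * M)) := ⟨_, rfl⟩
  have hρ0 : 0 < ρ := by rw [hρdef]; positivity
  have hρ1 : ρ ^ 2 * (w * B * M) ≤ 1 / 2 := by
    rw [hρdef, div_pow, one_pow, div_mul_eq_mul_div, div_le_div_iff₀ (by positivity) (by norm_num)]
    have : 0 < w * B * M := by positivity
    nlinarith
  obtain ⟨C, hC0, hC⟩ := rapid_bound ha hρ0
  have ha0 : ∀ n, 0 ≤ a n := fun n => by
    have h1 := hab (List.replicate n ⟨0, hM⟩) 0 ⟨le_rfl, hT0⟩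
    rw [List.length_replicate] at h1
    exact le_trans (abs_nonneg _) h1
  have hq : ∀ n, ∀ t ∈ Icc (0:ℝ) (4 / (c * R)),
      (w * B) ^ n * ∑ j ∈ L (M := M) n, X j t ^ 2 ≤ C ^ 2 * (1 / 2) ^ n := by
    intro n t ht
    have h1 : ∑ j ∈ L (M := M) n, X j t ^ 2 ≤ ∑ _j ∈ L (M := M) n, (C * ρ ^ n) ^ 2 := by
      apply Finset.sum_le_sum
      intro j hj
      rw [← sq_abs]
      apply pow_le_pow_left₀ (abs_nonneg _)
      have h2 := hab j t ht
      rw [(mem_L n j).1 hj] at h2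
      exact le_trans h2 (hC n)
    rw [L_const] at h1
    calc (w * B) ^ n * ∑ j ∈ L (M := M) n, X j t ^ 2
        ≤ (w * B) ^ n * ((M:ℝ) ^ n * (C * ρ ^ n) ^ 2) := mul_le_mul_of_nonneg_left h1 (by positivity)
      _ = C ^ 2 * (ρ ^ 2 * (w * B * M)) ^ n := by
          rw [mul_pow (ρ ^ 2), mul_pow (w * B), mul_pow C, ← pow_mul, ← pow_mul, mul_comm 2 n]
          ring
      _ ≤ C ^ 2 * (1 / 2) ^ n := by
          apply mul_le_mul_of_nonneg_left _ (sq_nonneg C)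
          exact pow_le_pow_left₀ (by positivity) hρ1 n
  obtain ⟨N, hN⟩ : ∃ N : ℕ, (1 / 2 : ℝ) ^ N < 1 / ((M * w + M * s / 2) * C ^ 2 + 1) :=
    exists_pow_lt_of_lt_one (by positivity) (by norm_num)
  have hε : ∀ t ∈ Icc (0:ℝ) (4 / (c * R)),
      M * w * ((w * B) ^ N * ∑ j ∈ L (M := M) N, X j t ^ 2)
        + M * s / 2 * ((w * B) ^ (N + 1) * ∑ j ∈ L (M := M) (N + 1), X j t ^ 2) ≤ 1 := by
    intro t ht
    have h1 := hq N t ht
    have h2 := hq (N + 1) t ht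
    have h3 : C ^ 2 * (1 / 2 : ℝ) ^ (N + 1) ≤ C ^ 2 * (1 / 2) ^ N := by
      apply mul_le_mul_of_nonneg_left _ (sq_nonneg C)
      rw [pow_succ]
      have : (0:ℝ) ≤ (1 / 2) ^ N := by positivity
      linarith
    have h6 : M * w * ((w * B) ^ N * ∑ j ∈ L (M := M) N, X j t ^ 2)
        ≤ M * w * (C ^ 2 * (1 / 2) ^ N) := mul_le_mul_of_nonneg_left h1 (by positivity)
    have h7 : M * s / 2 * ((w * B) ^ (N + 1) * ∑ j ∈ L (M := M) (N + 1), X j t ^ 2)
        ≤ M * s / 2 * (C ^ 2 * (1 / 2) ^ N) :=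
      mul_le_mul_of_nonneg_left (h2.trans h3) (by positivity)
    have h8 : (M * w + M * s / 2) * C ^ 2 * (1 / 2 : ℝ) ^ N ≤ 1 := by
      have h9 : (M * w + M * s / 2) * C ^ 2 * (1 / 2 : ℝ) ^ N ≤
          (M * w + M * s / 2) * C ^ 2 * (1 / ((M * w + M * s / 2) * C ^ 2 + 1)) :=
        mul_le_mul_of_nonneg_left hN.le (by positivity)
      refine h9.trans ?_
      rw [mul_one_div, div_le_one (by positivity)]
      linarith
    linarith
  refine N841.DY.Blow.riccati (c := c) (K := K3 + 1) (R := R) hcpos (by linarith) hcR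
    (fun t => ∑ n ∈ Finset.range (N + 1), w ^ n * ∑ j ∈ L (M := M) n, X j t)
    (fun t => ∑ n ∈ Finset.range (N + 1), w ^ n *
      ∑ j ∈ L (M := M) n, rhs B D ν (fun _ => 0) (fun i => X i t) j) ?_ ?_ ?_
  · intro t ht
    exact HasDerivWithinAt.fun_sum fun n _ =>
      (HasDerivWithinAt.fun_sum fun j _ => hX.2 j t ht).const_mul (w ^ n)
  · show R ≤ ∑ n ∈ Finset.range (N + 1), w ^ n * ∑ j ∈ L (M := M) n, X j 0
    have h1 : ∀ n, 0 ≤ w ^ n * ∑ j ∈ L (M := M) n, X j 0 := fun n =>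
      mul_nonneg (by positivity) (Finset.sum_nonneg fun j _ => by rw [hX.1 j]; exact hx0 j)
    have h2 : w ^ 0 * ∑ j ∈ L (M := M) 0, X j 0 ≤
        ∑ n ∈ Finset.range (N + 1), w ^ n * ∑ j ∈ L (M := M) n, X j 0 :=
      Finset.single_le_sum (f := fun n => w ^ n * ∑ j ∈ L (M := M) n, X j 0) (fun n _ => h1 n)
        (Finset.mem_range.2 (Nat.succ_pos N))
    have h3 : ∑ j ∈ L (M := M) 0, X j 0 = x [] := by
      rw [← gen_eq]
      show X [] 0 = x []
      exact hX.1 []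
    rw [h3, pow_zero, one_mul] at h2
    linarith
  · intro t ht0 ht
    have h1 := static_tree (ν := ν) hM hB hw hD.le hs hs2 hsw hρ hK (fun j => X j t) N
    have h2 := hε t ⟨ht0, ht⟩
    rw [← hc, ← hK3] at h1
    show c * (∑ n ∈ Finset.range (N + 1), w ^ n * ∑ j ∈ L (M := M) n, X j t) ^ 2 - (K3 + 1) ≤ _
    linarith

end Pool.Agent.N167.SG
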