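import Pool.Agent.N167.SG.Sharp0

/-! Further definitions: data of finite energy, the chain. -/

namespace Pool.Agent.N167.SG

open Set TR

/-- Smoothing for all data of finite energy, of arbitrary sign: there is a Leray–Hopf solution
which is smooth for positive times. -/
def FiniteEnergySmoothing (M : ℕ) (B D ν : ℝ) : Prop :=
  ∀ (x : List (Fin M) → ℝ) (f : List (Fin M) → ℝ → ℝ), (Summable fun j => x j ^ 2) →
    SmoothForce f →
    ∃ X : List (Fin M) → ℝ → ℝ, LerayHopf B D ν f x X ∧ ∀ τ : ℝ, 0 < τ → SmoothFrom τ X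

/-- Nonnegative data of finite energy, nonnegative forces: there is exactly one solution, and it
is smooth for positive times. -/
def FiniteEnergyUniqueness (M : ℕ) (B D ν : ℝ) : Prop :=
  ∀ (x : List (Fin M) → ℝ) (f : List (Fin M) → ℝ → ℝ), (Summable fun j => x j ^ 2) →
    (∀ j, 0 ≤ x j) → SmoothForce f → (∀ j, ∀ t, 0 ≤ t → 0 ≤ f j t) →
    ∃ X : List (Fin M) → ℝ → ℝ, IsSol B D ν f x X ∧ (∀ τ : ℝ, 0 < τ → SmoothFrom τ X) ∧
      ∀ Z : List (Fin M) → ℝ → ℝ, IsSol B D ν f x Z → ∀ j, ∀ t, 0 ≤ t → Z j t = X j t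

/-- The right-hand side of the Desnyansky–Novikov (Katz–Pavlović) shell model on shell `n`:
`f_n - ν lam^{2n} X_n + lam^{β (n-1)} X_{n-1}^2 - lam^{β n} X_n X_{n+1}` (`X_{-1} = 0`). -/
noncomputable def chainRhs (lam β ν : ℝ) (f X : ℕ → ℝ) : ℕ → ℝ
  | 0 => f 0 - ν * X 0 - X 0 * X 1
  | n + 1 => f (n + 1) - ν * lam ^ (2 * (n + 1)) * X (n + 1) + lam ^ (β * (n : ℝ)) * X n ^ 2
      - lam ^ (β * ((n : ℝ) + 1)) * X (n + 1) * X (n + 2)

/-- `X` is a solution on `[0, ∞)` (component by component) of the shell model with force `f` and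
initial datum `x`. -/
def IsChainSol (lam β ν : ℝ) (f : ℕ → ℝ → ℝ) (x : ℕ → ℝ) (X : ℕ → ℝ → ℝ) : Prop :=
  (∀ n, X n 0 = x n) ∧
  ∀ n, ∀ t, 0 ≤ t →
    HasDerivWithinAt (X n) (chainRhs lam β ν (fun m => f m t) (fun m => X m t) n) (Ici 0) t

/-- Global regularity of the chain for all smooth data and smooth forces of arbitrary sign (there
is a solution which is smooth uniformly on `[0, ∞)`), and uniqueness among all solutions for
nonnegative smooth data and forces. -/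
def ChainRegularity (lam β ν : ℝ) : Prop :=
  ∀ (x : ℕ → ℝ) (f : ℕ → ℝ → ℝ), (Rapid fun n => |x n|) → (∀ n, ContinuousOn (f n) (Ici 0)) →
    (∃ F : ℕ → ℝ, Rapid F ∧ ∀ n, ∀ t, 0 ≤ t → |f n t| ≤ F n) →
    ∃ X : ℕ → ℝ → ℝ, IsChainSol lam β ν f x X ∧
      (∃ a : ℕ → ℝ, Rapid a ∧ ∀ n, ∀ t, 0 ≤ t → |X n t| ≤ a n) ∧
      ((∀ n, 0 ≤ x n) → (∀ n, ∀ t, 0 ≤ t → 0 ≤ f n t) →
        ∀ Z : ℕ → ℝ → ℝ, IsChainSol lam β ν f x Z → ∀ n, ∀ t, 0 ≤ t → Z n t = X n t)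

/-- Blow-up of the chain without force: no nonnegative datum with large `x_0` has a global
solution which is smooth on every bounded interval of times. -/
def ChainBlowUp (lam β ν : ℝ) : Prop :=
  ∃ R : ℝ, ∀ x : ℕ → ℝ, (∀ n, 0 ≤ x n) → R ≤ x 0 →
    ¬ ∃ X : ℕ → ℝ → ℝ, IsChainSol lam β ν (fun _ _ => 0) x X ∧
      ∀ T : ℝ, ∃ a : ℕ → ℝ, Rapid a ∧ ∀ n, ∀ t ∈ Icc (0 : ℝ) T, |X n t| ≤ a n

end Pool.Agent.N167.SG
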