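import Pool.Agent.N167.SG.Main
import Pool.Agent.N167.SG.Defs
import Pool.Agent.N167.TR.Chain

namespace Pool.Agent.N167.SG

open Set TR

/-- chain and tree with `M = 1`: equality of the right-hand sides -/
theorem rhs_chain {lam : ℝ} (hl : 0 < lam) (β ν : ℝ) (f X : ℕ → ℝ) (j : List (Fin 1)) :
    rhs (lam ^ β) (lam ^ 2) ν (fun i => f i.length) (fun i => X i.length) j
      = chainRhs lam β ν f X j.length := by
  have hpow : ∀ n : ℕ, (lam ^ β) ^ n = lam ^ (β * (n:ℝ)) := fun n => by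
    rw [Real.rpow_mul hl.le, Real.rpow_natCast]
  cases j with
  | nil => simp [rhs, inflow, chainRhs]
  | cons k i =>
    simp only [rhs, inflow, chainRhs, List.length_cons, Finset.univ_unique, Fin.default_eq_zero,
      Finset.sum_singleton]
    rw [hpow, hpow, ← pow_mul]
    push_cast
    ring_nf

theorem chain_of_tree {lam β ν : ℝ} (hl : 0 < lam) {f : ℕ → ℝ → ℝ} {x : ℕ → ℝ}
    {X : List (Fin 1) → ℝ → ℝ}
    (h : IsSol (lam ^ β) (lam ^ 2) ν (fun i t => f i.length t) (fun i => x i.length) X) :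
    IsChainSol lam β ν f x (fun n => X (List.replicate n 0)) := by
  refine ⟨fun n => by simpa using h.1 (List.replicate n 0), fun n t ht => ?_⟩
  have h1 := h.2 (List.replicate n 0) t ht
  have h2 := rhs_chain hl β ν (fun m => f m t) (fun m => X (List.replicate m 0) t)
    (List.replicate n 0)
  simp only [rep_len, List.length_replicate] at h2
  rw [← h2]
  exact h1

theorem tree_of_chain {lam β ν : ℝ} (hl : 0 < lam) {f : ℕ → ℝ → ℝ} {x : ℕ → ℝ} {X : ℕ → ℝ → ℝ}
    (h : IsChainSol lam β ν f x X) :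
    IsSol (lam ^ β) (lam ^ 2) ν (fun (i : List (Fin 1)) t => f i.length t) (fun i => x i.length)
      (fun i => X i.length) := by
  refine ⟨fun j => h.1 j.length, fun j t ht => ?_⟩
  have h1 := h.2 j.length t ht
  rw [← rhs_chain hl β ν (fun m => f m t) (fun m => X m t) j] at h1
  exact h1

theorem le_threshold {lam β : ℝ} (hl : 2 ≤ lam) (hβ : β ≤ 3) :
    (lam ^ β) ^ 2 ≤ ((1:ℕ):ℝ) * (lam ^ 2) ^ 3 := by
  have hl0 : 0 < lam := by linarith
  rw [← Real.rpow_natCast, ← Real.rpow_mul hl0.le, ← pow_mul, ← Real.rpow_natCast lam (2 * 3)]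
  have h1 : lam ^ (β * ((2:ℕ):ℝ)) ≤ lam ^ (((2 * 3 : ℕ)) : ℝ) :=
    Real.rpow_le_rpow_of_exponent_le (by linarith) (by push_cast; linarith)
  push_cast at h1 ⊢
  linarith

theorem gt_threshold {lam β : ℝ} (hl : 2 ≤ lam) (hβ : 3 < β) :
    ((1:ℕ):ℝ) * (lam ^ 2) ^ 3 < (lam ^ β) ^ 2 := by
  have hl0 : 0 < lam := by linarith
  rw [← Real.rpow_natCast (lam ^ β), ← Real.rpow_mul hl0.le, ← pow_mul,
    ← Real.rpow_natCast lam (2 * 3)]
  have h1 : lam ^ (((2 * 3 : ℕ)) : ℝ) < lam ^ (β * ((2:ℕ):ℝ)) :=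
    Real.rpow_lt_rpow_of_exponent_lt (by linarith) (by push_cast; linarith)
  push_cast at h1 ⊢
  linarith

end Pool.Agent.N167.SG
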