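import Pool.Agent.N167.SG.Stm2
import Pool.Agent.N364.SG3

set_option autoImplicit false

namespace Pool.Agent.N167.SG

open Set Filter Topology Pool.Agent.N167.TR Pool.Agent.N478.TR

/-- SG/7 (the proof is that of helper364 for SG/3) -/
theorem t_exist3 : S_exist3 := by
  intro M B D ν f x c N₀ X hf hX0 hXs hXa
  obtain ⟨c₁, hc₁⟩ : ∃ c₁ : List (Fin M) → ℝ, c₁ = c := ⟨_, rfl⟩
  obtain ⟨d, hd⟩ : ∃ d : List (Fin M) → ℝ, d = fun j => - c j := ⟨_, rfl⟩
  have hXb : ∀ N, N₀ ≤ N → ∀ j, ∀ t ∈ Icc (0 : ℝ) N, d j ≤ X N j t ∧ X N j t ≤ c₁ j := by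
    intro N hN j t ht
    rw [hc₁, hd]
    exact abs_le.1 (hXa N hN j t ht)
  obtain ⟨U, hU⟩ : ∃ U : Ultrafilter ℕ, U = hyperfilter ℕ := ⟨_, rfl⟩
  have hUT : (U : Filter ℕ) ≤ atTop := by
    rw [hU]
    exact Nat.hyperfilter_le_atTop
  have hev : ∀ n : ℕ, ∀ᶠ N in (U : Filter ℕ), n ≤ N := fun n => hUT (eventually_ge_atTop n)
  -- pointwise limits
  have hlim : ∀ (j : List (Fin M)) (t : ℝ), ∃ y : ℝ, 0 ≤ t → (d j ≤ y ∧ y ≤ c₁ j) ∧
      Tendsto (fun N => X N j t) U (𝓝 y) := by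
    intro j t
    by_cases ht : 0 ≤ t
    · obtain ⟨n, hn⟩ := exists_nat_ge t
      have h1 : ((U.map fun N => X N j t : Ultrafilter ℝ) : Filter ℝ) ≤ 𝓟 (Icc (d j) (c₁ j)) := by
        rw [le_principal_iff, Ultrafilter.coe_map, mem_map]
        filter_upwards [hev N₀, hev n] with N h1 h2
        exact hXb N h1 j t ⟨ht, hn.trans (by exact_mod_cast h2)⟩
      obtain ⟨y, hy, hy2⟩ := isCompact_Icc.ultrafilter_le_nhds _ h1
      exact ⟨y, fun _ => ⟨hy, hy2⟩⟩
    · exact ⟨0, fun h => absurd h ht⟩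
  choose Y hY using hlim
  -- the functions are equi-Lipschitz
  have hlip : ∀ (j : List (Fin M)) (T : ℝ), 0 ≤ T → ∃ L : ℝ, ∀ᶠ N in (U : Filter ℕ),
      ∀ s ∈ Icc (0 : ℝ) T, ∀ t ∈ Icc (0 : ℝ) T, |X N j s - X N j t| ≤ L * |s - t| := by
    intro j T hT
    obtain ⟨n, hn⟩ := exists_nat_ge T
    obtain ⟨F, hF⟩ := (isCompact_Icc (a := (0 : ℝ)) (b := T)).exists_bound_of_continuousOn
      ((hf j).mono fun s hs => hs.1)
    refine ⟨F + |ν * D ^ j.length| * c j + |inflow B c j| +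
      |B ^ j.length| * c j * ∑ k : Fin M, c (k :: j), ?_⟩
    filter_upwards [hev N₀, hev n, hev j.length] with N h1 h2 h3 s hs t ht
    have h2' : (n : ℝ) ≤ N := by exact_mod_cast h2
    have hsub : Icc (0 : ℝ) T ⊆ Icc 0 (N : ℝ) := Icc_subset_Icc_right (hn.trans h2')
    have h4 := (convex_Icc (0 : ℝ) T).norm_image_sub_le_of_norm_hasDerivWithin_le
      (f := X N j) (C := F + |ν * D ^ j.length| * c j + |inflow B c j| +
        |B ^ j.length| * c j * ∑ k : Fin M, c (k :: j))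
      (fun r hr => (hXs N h1 j h3 r (hsub hr)).mono hsub)
      (fun r hr => by
        refine Pool.Agent.N364.SG3.abs_rhs_le B D ν _ _ c (fun i => hXa N h1 i r (hsub hr)) j ?_
        exact hF r hr) ht hs
    exact h4
  -- joint convergence
  have hjoint : ∀ (t : ℝ), 0 ≤ t → ∀ i : List (Fin M),
      Tendsto (fun p : ℕ × ℝ => X p.1 i p.2) ((U : Filter ℕ) ×ˢ 𝓝[Ici 0] t) (𝓝 (Y i t)) := by
    intro t ht i
    obtain ⟨L, hL⟩ := hlip i (t + 1) (by linarith)
    have h1 : Tendsto (fun p : ℕ × ℝ => X p.1 i t) ((U : Filter ℕ) ×ˢ 𝓝[Ici 0] t) (𝓝 (Y i t)) :=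
      (hY i t ht).2.comp tendsto_fst
    have h2 : Tendsto (fun p : ℕ × ℝ => X p.1 i p.2 - X p.1 i t)
        ((U : Filter ℕ) ×ˢ 𝓝[Ici 0] t) (𝓝 0) := by
      rw [tendsto_zero_iff_abs_tendsto_zero]
      refine squeeze_zero' (g := fun p : ℕ × ℝ => L * |p.2 - t|) (Eventually.of_forall
        fun p => abs_nonneg _) ?_ ?_
      · have h3 : ∀ᶠ s in 𝓝[Ici 0] t, s ∈ Icc (0 : ℝ) (t + 1) := by
          have h4 : ∀ᶠ s in 𝓝[Ici 0] t, s ≤ t + 1 :=
            mem_nhdsWithin_of_mem_nhds (Iic_mem_nhds (by linarith))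
          filter_upwards [h4, self_mem_nhdsWithin] with s h5 h6
          exact ⟨h6, h5⟩
        filter_upwards [hL.prod_inl (𝓝[Ici 0] t), h3.prod_inr (U : Filter ℕ)] with p h4 h5
        exact h4 p.2 h5 t ⟨ht, by linarith⟩
      · have h3 : Tendsto (fun s : ℝ => L * |s - t|) (𝓝[Ici 0] t) (𝓝 0) := by
          have h4 : Tendsto (fun s : ℝ => L * |s - t|) (𝓝 t) (𝓝 (L * |t - t|)) :=
            Continuous.tendsto (by fun_prop) t
          rw [sub_self, abs_zero, mul_zero] at h4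
          exact h4.mono_left nhdsWithin_le_nhds
        exact h3.comp tendsto_snd
    have h3 := h2.add h1
    simpa using h3
  refine ⟨Y, U, ⟨?_, ?_⟩, hUT, fun j t ht => (hY j t ht).2⟩
  · intro j
    refine tendsto_nhds_unique (hY j 0 le_rfl).2 ?_
    refine tendsto_const_nhds.congr' ?_
    filter_upwards [hev N₀, hev j.length] with N h1 h2
    exact (hX0 N h1 j h2).symm
  · intro j t ht
    obtain ⟨R, hR⟩ : ∃ R : ℝ, R = rhs B D ν (fun i => f i t) (fun i => Y i t) j := ⟨_, rfl⟩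
    rw [← hR]
    have hRt : Tendsto (fun p : ℕ × ℝ => rhs B D ν (fun i => f i p.2) (fun i => X p.1 i p.2) j)
        ((U : Filter ℕ) ×ˢ 𝓝[Ici 0] t) (𝓝 R) := by
      rw [hR]
      refine tendsto_rhs B D ν (f := fun (p : ℕ × ℝ) i => f i p.2)
        (X := fun (p : ℕ × ℝ) i => X p.1 i p.2) (hjoint t ht) j ?_
      have h1 : Tendsto (fun s => f j s) (𝓝[Ici 0] t) (𝓝 (f j t)) := hf j t ht
      exact h1.comp tendsto_snd
    rw [hasDerivWithinAt_iff_isLittleO, Asymptotics.isLittleO_iff]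
    intro ε hε
    have h1 : ∀ᶠ p : ℕ × ℝ in (U : Filter ℕ) ×ˢ 𝓝[Ici 0] t,
        |rhs B D ν (fun i => f i p.2) (fun i => X p.1 i p.2) j - R| < ε := by
      have := hRt.eventually (Metric.ball_mem_nhds R hε)
      filter_upwards [this] with p hp
      exact hp
    rw [eventually_prod_iff] at h1
    obtain ⟨pa, hpa, pb, hpb, h2⟩ := h1
    obtain ⟨δ, hδ, h3⟩ := Metric.mem_nhdsWithin_iff.1 hpb
    have h4 : ∀ᶠ s in 𝓝[Ici 0] t, s ∈ Metric.ball t δ ∩ Ici 0 := by
      filter_upwards [mem_nhdsWithin_of_mem_nhds (Metric.ball_mem_nhds t hδ),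
        self_mem_nhdsWithin] with s h5 h6
      exact ⟨h5, h6⟩
    filter_upwards [h4] with s hs
    -- the inequality for the Galerkin solutions
    obtain ⟨n, hn⟩ := exists_nat_ge (max s t)
    have h5 : ∀ᶠ N in (U : Filter ℕ), |X N j s - X N j t - (s - t) * R| ≤ ε * |s - t| := by
      filter_upwards [hpa, hev N₀, hev n, hev j.length] with N g1 g2 g3 g4
      have g3' : (n : ℝ) ≤ N := by exact_mod_cast g3
      have hconv : Convex ℝ (Icc (0 : ℝ) N ∩ Metric.ball t δ) :=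
        (convex_Icc 0 (N : ℝ)).inter (convex_ball t δ)
      have hder : ∀ r ∈ Icc (0 : ℝ) N ∩ Metric.ball t δ, HasDerivWithinAt
          (fun r => X N j r - r * R)
          (rhs B D ν (fun i => f i r) (fun i => X N i r) j - 1 * R)
          (Icc (0 : ℝ) N ∩ Metric.ball t δ) r := by
        intro r hr
        have e1 := (hXs N g2 j g4 r hr.1).mono (inter_subset_left (t := Metric.ball t δ))
        have e2 := ((hasDerivAt_id r).mul_const R).hasDerivWithinAt
          (s := Icc (0 : ℝ) N ∩ Metric.ball t δ)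
        exact e1.sub e2
      have hb : ∀ r ∈ Icc (0 : ℝ) N ∩ Metric.ball t δ,
          ‖rhs B D ν (fun i => f i r) (fun i => X N i r) j - 1 * R‖ ≤ ε := by
        intro r hr
        rw [one_mul]
        exact (h2 g1 (h3 ⟨hr.2, hr.1.1⟩)).le
      have h6 := hconv.norm_image_sub_le_of_norm_hasDerivWithin_le hder hb
        (x := t) (y := s)
        ⟨⟨ht, ((le_max_right s t).trans hn).trans g3'⟩, Metric.mem_ball_self hδ⟩
        ⟨⟨hs.2, ((le_max_left s t).trans hn).trans g3'⟩, hs.1⟩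
      rw [Real.norm_eq_abs, Real.norm_eq_abs] at h6
      have e3 : X N j s - X N j t - (s - t) * R = X N j s - s * R - (X N j t - t * R) := by ring
      rw [e3]
      exact h6
    have h6 : Tendsto (fun N => |X N j s - X N j t - (s - t) * R|) U
        (𝓝 |Y j s - Y j t - (s - t) * R|) :=
      ((((hY j s hs.2).2.sub (hY j t ht).2)).sub_const _).abs
    have h7 := le_of_tendsto h6 h5
    rw [Real.norm_eq_abs, Real.norm_eq_abs, smul_eq_mul]
    exact h7

end Pool.Agent.N167.SG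

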