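import Pool.Agent.N167.SG.Main
import Pool.Agent.N167.SG.Exist3

/-! Data of finite energy and arbitrary sign. -/

namespace Pool.Agent.N167.SG

open Set Filter TR

variable {M : ℕ}

theorem solUpTo_shift {B D ν : ℝ} {f X : List (Fin M) → ℝ → ℝ} {N : ℕ} {T t₀ : ℝ} (ht₀ : 0 ≤ t₀)
    (h : SolUpTo B D ν f N T X) :
    SolUpTo B D ν (fun j t => f j (t₀ + t)) N (T - t₀) (fun j t => X j (t₀ + t)) := by
  intro j hj t ht
  have h1 := h j hj (t₀ + t) ⟨by linarith [ht.1], by linarith [ht.2]⟩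
  have h2 : HasDerivWithinAt (fun s : ℝ => t₀ + s) 1 (Icc 0 (T - t₀)) t := by
    simpa using (hasDerivWithinAt_id t (Icc (0:ℝ) (T - t₀))).const_add t₀
  have h3 := HasDerivWithinAt.scomp t h1 h2 (fun s (hs : s ∈ Icc (0:ℝ) (T - t₀)) =>
    ⟨by linarith [hs.1], by linarith [hs.2]⟩)
  simpa [Function.comp_def] using h3

theorem finset_le_gen {g : List (Fin M) → ℝ} (hg : ∀ j, 0 ≤ g j) (u : Finset (List (Fin M)))
    {N : ℕ} (hN : ∀ j ∈ u, j.length ≤ N) :
    ∑ j ∈ u, g j ≤ ∑ n ∈ Finset.range (N + 1), gen n g := by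
  classical
  calc ∑ j ∈ u, g j ≤ ∑ j ∈ (Finset.range (N + 1)).biUnion (N247.TR.L (M := M)), g j := by
        apply Finset.sum_le_sum_of_subset_of_nonneg
        · intro j hj
          rw [Finset.mem_biUnion]
          exact ⟨j.length, Finset.mem_range.2 (by have := hN j hj; omega), (N247.TR.mem_L _ _).2 rfl⟩
        · intro j _ _; exact hg j
    _ = ∑ n ∈ Finset.range (N + 1), ∑ j ∈ N247.TR.L n, g j := by
        apply Finset.sum_biUnion
        intro n _ m _ hnm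
        rw [Function.onFun, Finset.disjoint_left]
        intro j hj hj'
        rw [N247.TR.mem_L] at hj hj'
        exact hnm (hj.symm.trans hj')
    _ = ∑ n ∈ Finset.range (N + 1), gen n g := by
        apply Finset.sum_congr rfl
        intro n _
        rw [N247.TR.gen_eq]

theorem gen_le_tsum {x : List (Fin M) → ℝ} (hxs : Summable fun j => x j ^ 2) (N : ℕ) :
    ∑ n ∈ Finset.range (N + 1), gen n (fun j => x j ^ 2) ≤ ∑' j, x j ^ 2 := by
  have h := (N247.TR.main M).2.2.2.2.2.2 (fun j => |x j|) (fun j => abs_nonneg _)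
    (by simpa using hxs) (N + 1)
  simpa using h

/-- The bound for the negative parts, for data small with respect to `(D/B)^n`. -/
theorem neg_bound2 {B D ν e : ℝ} (hM : 0 < M) (hB : 0 < B) (hD : 1 < D) (hν : 0 < ν)
    {y F : ℕ → ℝ} (hy : ∀ η : ℝ, 0 < η → ∃ N : ℕ, ∀ n, N ≤ n → y n ≤ η * (D / B) ^ n)
    (hF : Rapid F) (hy0 : ∀ n, 0 ≤ y n) (hF0 : ∀ n, 0 ≤ F n) (he : 0 ≤ e) :
    ∃ (m : ℕ → ℝ) (n₀ : ℕ), (∀ n, 0 ≤ m n) ∧ (∀ n, y n ≤ m n) ∧
      (∀ n, n₀ ≤ n → 2 * F n ≤ ν * D ^ n * m n) ∧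
      (∀ n, n₀ ≤ n → 2 * (B ^ n * (M * m (n + 1))) ≤ ν * D ^ n) ∧ (∀ n, n < n₀ → e ≤ m n) ∧
      ∀ n, m n = y n + (2 / ν * F n + if n < n₀ then e else 0) := by
  have hM' : (0:ℝ) < M := by exact_mod_cast hM
  have hD0 : 0 < D := by linarith
  set m0 : ℕ → ℝ := fun n => y n + 2 / ν * F n with hm0
  have hFs := small_of_rapid (rapid_mul hF (show (0:ℝ) ≤ 2 / ν by positivity))
    (show (0:ℝ) < D / B by positivity)
  obtain ⟨n₀, hn₀⟩ : ∃ n₀ : ℕ, ∀ n, n₀ ≤ n → m0 n ≤ ν * B / (2 * M * D) * (D / B) ^ n := by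
    obtain ⟨N₁, h₁⟩ := hy (ν * B / (4 * M * D)) (by positivity)
    obtain ⟨N₂, h₂⟩ := hFs (ν * B / (4 * M * D)) (by positivity)
    refine ⟨max N₁ N₂, fun n hn => ?_⟩
    have h3 := h₁ n (le_trans (le_max_left _ _) hn)
    have h4 := h₂ n (le_trans (le_max_right _ _) hn)
    have e1 : ν * B / (2 * M * D) * (D / B) ^ n
        = ν * B / (4 * M * D) * (D / B) ^ n + ν * B / (4 * M * D) * (D / B) ^ n := by
      field_simp; norm_num
    rw [e1]
    simp only [hm0]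
    linarith
  have hm00 : ∀ n, 0 ≤ m0 n := fun n => by
    have := hy0 n; have := hF0 n; simp only [hm0]; positivity
  refine ⟨fun n => m0 n + if n < n₀ then e else 0, n₀, ?_, ?_, ?_, ?_, ?_, ?_⟩
  · intro n
    have h1 : 0 ≤ if n < n₀ then e else 0 := by split_ifs <;> simp [he]
    have := hm00 n
    positivity
  · intro n
    have h1 : 0 ≤ if n < n₀ then e else 0 := by split_ifs <;> simp [he]
    have h2 : 0 ≤ 2 / ν * F n := by have := hF0 n; positivity
    simp only [hm0]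
    linarith
  · intro n hn
    have h0 : ¬ n < n₀ := by omega
    simp only [h0, if_false, add_zero]
    have h1 : (1:ℝ) ≤ D ^ n := one_le_pow₀ hD.le
    have h2 : 2 * F n ≤ ν * m0 n := by
      have e1 : ν * m0 n = ν * y n + 2 * F n := by simp only [hm0]; field_simp
      have h3 : 0 ≤ ν * y n := by have := hy0 n; positivity
      linarith
    have h4 : ν * m0 n ≤ ν * D ^ n * m0 n := by
      have h5 := hm00 n
      have h6 : 0 ≤ ν * m0 n := by positivity
      nlinarith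
    linarith
  · intro n hn
    have h0 : ¬ n + 1 < n₀ := by omega
    simp only [h0, if_false, add_zero]
    have h1 := hn₀ (n + 1) (by omega)
    have h2 : 2 * (B ^ n * (M * m0 (n + 1)))
        ≤ 2 * (B ^ n * (M * (ν * B / (2 * M * D) * (D / B) ^ (n + 1)))) := by
      apply mul_le_mul_of_nonneg_left _ (by norm_num)
      apply mul_le_mul_of_nonneg_left _ (by positivity)
      exact mul_le_mul_of_nonneg_left h1 hM'.le
    have e : 2 * (B ^ n * (M * (ν * B / (2 * M * D) * (D / B) ^ (n + 1)))) = ν * D ^ n := by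
      rw [div_pow, pow_succ, pow_succ]
      field_simp
    rw [e] at h2
    exact h2
  · intro n hn
    simp only [hn, if_true]
    have := hm00 n
    linarith
  · intro n
    simp only [hm0]
    ring

/-- starts for data bounded by `C D^{-n/2}` -/
theorem startS_energy {B D ν : ℝ} (hM : 0 < M) (hB : 0 < B) (hν : 0 < ν) (hD : 1 < D)
    (hc : (M = 1 ∧ 4 ≤ D ∧ B ^ 2 < D ^ 3) ∨
      (2 ≤ M ∧ B ^ 2 < D ^ 3 ∧ 10 * B ^ 2 < M * D ^ 4))
    {ρ C : ℝ} (hρ : 0 < ρ) (hρD : ρ ^ 2 * D = 1) (hC : 0 ≤ C)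
    {m F R : ℕ → ℝ} (hF0 : ∀ n, 0 ≤ F n) (hF : Rapid F) (hm0 : ∀ n, 0 ≤ m n) (hR : Rapid R)
    (hm : ∀ n, m n = C * ρ ^ n + R n) :
    StartS M B D ν (fun n => C * ρ ^ n) m F := by
  have hM' : (0:ℝ) < M := by exact_mod_cast hM
  have hDp : 0 < D := by linarith
  have hy0 : ∀ n, 0 ≤ C * ρ ^ n := fun n => by positivity
  -- geometric bounds for the combined data
  have hcomb : ∀ ε η : ℝ, 0 < ε → 0 < η → ∀ s : ℝ, 0 < s → B ^ 2 ≤ D ^ 3 * s ^ 2 →
      ∃ C', 0 ≤ C' ∧ ∀ n, comb D ν ε η (fun n => C * ρ ^ n) m F n ≤ C' * (D / B * s) ^ n := by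
    intro ε η hε hη s hs hsB
    have hσ : 0 < D / B * s := by positivity
    have hρσ : ρ ≤ D / B * s := by
      apply le_of_sq_le_sq _ hσ.le
      have h1 : ρ ^ 2 = 1 / D := by rw [eq_div_iff hDp.ne']; exact hρD
      rw [h1, div_mul_eq_mul_div, div_pow, div_le_div_iff₀ hDp (by positivity)]
      nlinarith
    have hRap : Rapid fun n => 1 / η * R n + 16 * D / (ε * ν) * F n :=
      rapid_add (rapid_mul hR (by positivity)) (rapid_mul hF (by positivity))
    obtain ⟨C₁, hC₁0, hC₁⟩ := rapid_bound hRap hσ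
    refine ⟨1 / η * (2 * C) + C₁, by positivity, fun n => ?_⟩
    have h1 := hC₁ n
    simp only [comb, hm n]
    have h2 : C * ρ ^ n ≤ C * (D / B * s) ^ n :=
      mul_le_mul_of_nonneg_left (pow_le_pow_left₀ hρ.le hρσ n) hC
    have h3 : 1 / η * (2 * (C * ρ ^ n)) ≤ 1 / η * (2 * (C * (D / B * s) ^ n)) :=
      mul_le_mul_of_nonneg_left (by linarith) (by positivity)
    calc 1 / η * (C * ρ ^ n + (C * ρ ^ n + R n)) + 16 * D / (ε * ν) * F n
        = 1 / η * (2 * (C * ρ ^ n)) + (1 / η * R n + 16 * D / (ε * ν) * F n) := by ring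
      _ ≤ 1 / η * (2 * (C * (D / B * s) ^ n)) + C₁ * (D / B * s) ^ n := by linarith
      _ = _ := by ring
  rcases hc with ⟨rfl, hD4, hc⟩ | ⟨hM2, hc1, hc2⟩
  · refine startS_box one_pos hB hν hD4 (by push_cast; linarith) hy0 hm0 hF0
      fun ε η hε hη s hs0 hs1 hsB => hcomb ε η hε hη s hs0 ?_
    push_cast at hsB
    have h2 : s ^ 3 ≤ s ^ 2 := by
      have : s ^ 3 = s ^ 2 * s := by ring
      rw [this]
      nlinarith [sq_nonneg s]
    have h3 := mul_le_mul_of_nonneg_left h2 (by positivity : (0:ℝ) ≤ D ^ 3)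
    linarith
  · have hM2' : (2:ℝ) ≤ M := by exact_mod_cast hM2
    have h1 : 10 * B ^ 2 / (M * D ^ 4) < 1 := by rw [div_lt_one (by positivity)]; exact hc2
    have h2 : B ^ 2 / D ^ 3 < 1 := by rw [div_lt_one (by positivity)]; exact hc1
    set ϑ : ℝ := max ((9/10 : ℝ) ^ 4) (max (10 * B ^ 2 / (M * D ^ 4)) (B ^ 2 / D ^ 3)) with hϑ
    have hϑ1 : ϑ < 1 := max_lt (by norm_num) (max_lt h1 h2)
    have hϑa : 10 * B ^ 2 / (M * D ^ 4) ≤ ϑ := le_trans (le_max_left _ _) (le_max_right _ _)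
    have hϑb : B ^ 2 / D ^ 3 ≤ ϑ := le_trans (le_max_right _ _) (le_max_right _ _)
    rw [div_le_iff₀ (by positivity)] at hϑa hϑb
    refine startS_simple (ϑ := ϑ) hM hB hν hD.le (le_max_left _ _) hϑ1 (by linarith) ?_ hy0 hm0
      hF0 fun ε η hε hη s hs0 hs1 hs4 => hcomb ε η hε hη s hs0 ?_
    · have h3 : 0 ≤ ϑ * D ^ 3 := by
        have : 0 ≤ ϑ := le_trans (by norm_num) (le_max_left _ _)
        positivity
      nlinarith
    · have h4 : s ^ 4 ≤ s ^ 2 := by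
        have : s ^ 4 = s ^ 2 * s ^ 2 := by ring
        rw [this]
        have h5 : s ^ 2 ≤ 1 := by nlinarith
        nlinarith [sq_nonneg s]
      rw [← hs4] at hϑb
      have h6 := mul_le_mul_of_nonneg_left h4 (by positivity : (0:ℝ) ≤ D ^ 3)
      linarith

/-- Bounds for the Galerkin solutions after the time `τ`. -/
theorem late_bounds (h8 : S_diss) (hM : 0 < M) {B D ν : ℝ} (hB : 0 < B) (hD : 1 < D) (hν : 0 < ν)
    (hc : (M = 1 ∧ 4 ≤ D ∧ B ^ 2 < D ^ 3) ∨
      (2 ≤ M ∧ B ^ 2 < D ^ 3 ∧ 10 * B ^ 2 < M * D ^ 4))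
    {F : ℕ → ℝ} {f : List (Fin M) → ℝ → ℝ} (hf : ForceS F f) {E G τ : ℝ} (hE0 : 0 ≤ E)
    (hG0 : 0 ≤ G) (hG : ∀ N : ℕ, ∀ t, 0 ≤ t →
      ∑ n ∈ Finset.range (N + 1), gen n (fun j => f j t ^ 2) ≤ G) (hτ : 0 < τ) :
    ∃ (A m : ℕ → ℝ) (N₀ N₁ : ℕ), (∀ n, 0 ≤ m n) ∧
      (∀ n, N₀ ≤ n → B / D * (B ^ n * A n) ≤ 1 / 2 * (ν * D ^ (n + 1))) ∧
      (∀ ε : ℝ, 0 < ε → ∃ N : ℕ, ∀ n, N ≤ n → B ^ n * m n ≤ ε * D ^ n) ∧
      ∀ N : ℕ, N₁ ≤ N → ∀ X : List (Fin M) → ℝ → ℝ, (∀ j, N < j.length → ∀ t, X j t = 0) →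
        SolUpTo B D ν f N N X →
        (∀ t ∈ Icc (0 : ℝ) N, ∑ n ∈ Finset.range (N + 1), gen n (fun j => X j t ^ 2) ≤ E) →
        ∀ j, ∀ t ∈ Icc τ N, -m j.length ≤ X j t ∧ X j t ≤ A j.length := by
  have hF0 := FS_nonneg hM hf
  have hDp : 0 < D := by linarith
  set C₀ : ℝ := (E + (E + G) * τ) / (2 * ν * τ) with hC₀
  have hC₀0 : 0 ≤ C₀ := by positivity
  set ρ : ℝ := (Real.sqrt D)⁻¹ with hρ
  have hρ0 : 0 < ρ := by positivity
  have hρD : ρ ^ 2 * D = 1 := by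
    rw [hρ, inv_pow, Real.sq_sqrt hDp.le]
    field_simp
  set y : ℕ → ℝ := fun n => Real.sqrt C₀ * ρ ^ n with hy
  have hy0 : ∀ n, 0 ≤ y n := fun n => by positivity
  have hB2 : B ^ 2 < D ^ 3 := by rcases hc with ⟨_, _, h⟩ | ⟨_, h, _⟩ <;> exact h
  -- `ρ < D / B`
  have hρσ : ρ < D / B := by
    apply lt_of_pow_lt_pow_left₀ 2 (by positivity)
    have h1 : ρ ^ 2 = 1 / D := by rw [eq_div_iff hDp.ne']; exact hρD
    rw [h1, div_pow, div_lt_div_iff₀ hDp (by positivity)]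
    nlinarith
  have hys : ∀ η : ℝ, 0 < η → ∃ N : ℕ, ∀ n, N ≤ n → y n ≤ η * (D / B) ^ n := by
    intro η hη
    have hr1 : ρ / (D / B) < 1 := by rw [div_lt_one (by positivity)]; exact hρσ
    have h2 : Tendsto (fun n : ℕ => Real.sqrt C₀ * (ρ / (D / B)) ^ n) atTop
        (nhds (Real.sqrt C₀ * 0)) :=
      (tendsto_pow_atTop_nhds_zero_of_lt_one (by positivity) hr1).const_mul _
    rw [mul_zero] at h2
    obtain ⟨N, hN⟩ := eventually_atTop.1 (h2.eventually_le_const hη)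
    refine ⟨N, fun n hn => ?_⟩
    have h3 := mul_le_mul_of_nonneg_right (hN n hn) (by positivity : 0 ≤ (D / B) ^ n)
    have e : Real.sqrt C₀ * (ρ / (D / B)) ^ n * (D / B) ^ n = y n := by
      rw [hy]; simp only; rw [mul_assoc, ← mul_pow, div_mul_cancel₀ _ (by positivity)]
    rw [e] at h3
    exact h3
  obtain ⟨m, n₀, hm0, hym, hm1, hm2, hm3, hmeq⟩ :=
    neg_bound2 (e := Real.sqrt E) hM hB hD hν hys hf.1 hy0 hF0 (Real.sqrt_nonneg E)
  have hRr : Rapid fun n => 2 / ν * F n + if n < n₀ then Real.sqrt E else 0 :=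
    rapid_add (rapid_mul hf.1 (by positivity)) (rapid_finite n₀ (Real.sqrt_nonneg E))
  obtain ⟨K, s₀, α, b, q, c, ε, η, m₀, A, κ, μ, r, N₀, hReg, hAmp, hm₀0, hm₀1, hm₀2, hηm, hN₀, hθA,
    hyA, hFA, hmA⟩ := startS_energy hM hB hν hD hc hρ0 hρD (Real.sqrt_nonneg C₀) hF0 hf.1 hm0 hRr
      hmeq
  obtain ⟨N₂, hN₂⟩ := exists_nat_ge τ
  refine ⟨A, m, N₀, max N₀ N₂, hm0, hθA, ?_, ?_⟩
  · intro ε' hε'
    obtain ⟨N₃, hN₃⟩ := hys (ε' / 2) (by positivity)
    obtain ⟨N₄, hN₄⟩ := small_of_rapid hRr (show (0:ℝ) < D / B by positivity) (ε' / 2)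
      (by positivity)
    refine ⟨max N₃ N₄, fun n hn => ?_⟩
    have h1 := hN₃ n (le_trans (le_max_left _ _) hn)
    have h2 := hN₄ n (le_trans (le_max_right _ _) hn)
    have h3 : m n ≤ ε' * (D / B) ^ n := by
      rw [hmeq n]
      have h1' : y n ≤ ε' / 2 * (D / B) ^ n := h1
      linarith
    calc B ^ n * m n ≤ B ^ n * (ε' * (D / B) ^ n) := mul_le_mul_of_nonneg_left h3 (by positivity)
      _ = ε' * D ^ n := by rw [div_pow]; field_simp
  · intro N hN X hX0 hXs hXE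
    have hNτ : τ ≤ N := le_trans hN₂ (by exact_mod_cast le_trans (le_max_right _ _) hN)
    obtain ⟨_, hdis⟩ := h8 M B D ν f X E G N N hB hD.le hν (Nat.cast_nonneg N)
      (fun j t ht => ((hf.2.1 j) t ht.1).mono fun s hs => hs.1) hX0 hXs
      (fun t ht => hG N t ht.1) hXE
    obtain ⟨t₀, ht₀, hdt⟩ := hdis τ hτ hNτ
    rw [← hC₀] at hdt
    have hXt₀ : ∀ j, |X j t₀| ≤ y j.length := by
      intro j
      rcases le_or_gt j.length N with hj | hj
      · rw [← abs_of_nonneg (hy0 j.length)]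
        apply sq_le_sq.1
        have h1 : X j t₀ ^ 2 ≤ gen j.length (fun j => X j t₀ ^ 2) :=
          (N247.TR.main M).2.2.2.1 j.length (fun j => X j t₀ ^ 2) j (fun i => sq_nonneg _) rfl
        have h2 : D ^ j.length * gen j.length (fun j => X j t₀ ^ 2) ≤
            ∑ n ∈ Finset.range (N + 1), D ^ n * gen n (fun j => X j t₀ ^ 2) :=
          Finset.single_le_sum (f := fun n => D ^ n * gen n (fun j => X j t₀ ^ 2))
            (fun n _ => mul_nonneg (by positivity) (gen_nonneg n fun j => sq_nonneg _))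
            (Finset.mem_range.2 (by omega))
        have h3 : D ^ j.length * X j t₀ ^ 2 ≤ C₀ := by
          have := mul_le_mul_of_nonneg_left h1 (by positivity : 0 ≤ D ^ j.length)
          linarith
        have h4 : y j.length ^ 2 = C₀ * (ρ ^ 2) ^ j.length := by
          rw [hy]; simp only; rw [mul_pow, Real.sq_sqrt hC₀0, pow_right_comm ρ]
        have h5 : ρ ^ 2 = 1 / D := by rw [eq_div_iff hDp.ne']; exact hρD
        rw [h4, h5, one_div, inv_pow, ← div_eq_mul_inv, le_div_iff₀ (by positivity)]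
        linarith
      · rw [hX0 j hj t₀]; simpa using hy0 j.length
    have ht₀N : t₀ ≤ N := le_trans ht₀.2 hNτ
    have hXs' := solUpTo_shift ht₀.1 hXs
    have hf' : ∀ j, ∀ t ∈ Icc (0:ℝ) (N - t₀), |f j (t₀ + t)| ≤ F j.length :=
      fun j t ht => hf.2.2 j (t₀ + t) (by linarith [ht.1, ht₀.1])
    have hlow : ∀ j, ∀ t ∈ Icc (0 : ℝ) (N - t₀), -m j.length ≤ X j (t₀ + t) := by
      intro j t ht
      rcases le_or_gt n₀ j.length with hj | hj
      · refine N222.SG.t_neg M B D ν (fun j t => f j (t₀ + t)) F m n₀ N (N - t₀)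
          (fun j t => X j (t₀ + t)) hB hD.le hν (by linarith) hm0 hm1 hm2 hf' hXs'
          (fun j hj t => hX0 j hj _) ?_ j hj t ht
        intro i hi
        simp only [add_zero]
        have := neg_abs_le (X i t₀)
        have := hXt₀ i
        have := hym i.length
        linarith
      · rcases le_or_gt j.length N with hjN | hjN
        · have h5 := abs_le_sqrt_of_energy (hXE (t₀ + t) ⟨by linarith [ht.1, ht₀.1],
            by linarith [ht.2]⟩) j hjN
          have h6 := neg_abs_le (X j (t₀ + t))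
          have h7 := hm3 j.length hj
          linarith
        · rw [hX0 j hjN _]
          have := hm0 j.length
          linarith
    have hup : ∀ j, ∀ t ∈ Icc (0 : ℝ) (N - t₀), X j (t₀ + t) ≤ A j.length := by
      intro j t ht
      refine region2 (X := fun j t => X j (t₀ + t)) (f := fun j t => f j (t₀ + t)) hM hReg hAmp
        (by linarith) (hN₀ N (le_trans (le_max_left _ _) hN)) hm₀0
        hm₀1 hm₀2 hηm ?_ (fun i s hs => le_trans (hf' i s hs) (hFA _)) (fun j hj t => hX0 j hj _)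
        ?_ hXs' j t ht
      · intro i
        simp only [add_zero]
        have := le_abs_self (X i t₀)
        have := hXt₀ i
        have := hyA i.length
        linarith
      · intro i s hs
        have := hlow i s hs
        have := hmA i.length
        linarith
    intro j t ht
    have e : t = t₀ + (t - t₀) := by ring
    have h1 : t - t₀ ∈ Icc (0:ℝ) (N - t₀) := ⟨by linarith [ht.1, ht₀.2], by linarith [ht.2]⟩
    have h2 := hlow j _ h1
    have h3 := hup j _ h1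
    rw [← e] at h2 h3
    exact ⟨h2, h3⟩

/-- Data of finite energy and arbitrary sign: a Leray–Hopf solution which is smooth for
positive times. -/
theorem signed_energy (h8 : S_diss) (h9 : S_smooth3) (h10 : S_LH3) (hM : 0 < M) {B D ν : ℝ}
    (hB : 0 < B) (hD : 1 < D) (hν : 0 < ν)
    (hc : (M = 1 ∧ 4 ≤ D ∧ B ^ 2 < D ^ 3) ∨
      (2 ≤ M ∧ B ^ 2 < D ^ 3 ∧ 10 * B ^ 2 < M * D ^ 4))
    {F : ℕ → ℝ} {f : List (Fin M) → ℝ → ℝ} {x : List (Fin M) → ℝ} (hf : ForceS F f)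
    (hxs : Summable fun j => x j ^ 2) :
    ∃ X : List (Fin M) → ℝ → ℝ, LerayHopf B D ν f x X ∧
      ∀ τ : ℝ, 0 < τ → ∃ a : ℕ → ℝ, Rapid a ∧ ∀ j, ∀ t, τ ≤ t → |X j t| ≤ a j.length := by
  have hF0 := FS_nonneg hM hf
  obtain ⟨G, hG0, hG'⟩ := N157.SG.rapid_sum hf.1 hF0 hM
  have hG : ∀ N : ℕ, ∀ t, 0 ≤ t →
      ∑ n ∈ Finset.range (N + 1), gen n (fun j => f j t ^ 2) ≤ G := by
    intro N t ht
    have h5 := hG' N (fun j => f j t) (fun j => hf.2.2 j t ht)
    simp only [← N247.TR.gen_eq] at h5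
    exact h5
  have hts : 0 ≤ ∑' j, x j ^ 2 := tsum_nonneg fun j => sq_nonneg _
  set E : ℝ := ∑' j, x j ^ 2 + G / ν ^ 2 + 1 with hE
  have hE0 : 0 ≤ E := by positivity
  have hgal : ∀ N : ℕ, 1 ≤ N → ∃ X : List (Fin M) → ℝ → ℝ,
      (∀ j, N < j.length → ∀ t, X j t = 0) ∧
      (∀ j, j.length ≤ N → X j 0 = x j) ∧ SolUpTo B D ν f N N X ∧
      (∀ t ∈ Icc (0 : ℝ) N, ∑ n ∈ Finset.range (N + 1), gen n (fun j => X j t ^ 2) ≤ E) := by
    intro N hN1
    have hTpos : (0:ℝ) < N := by exact_mod_cast hN1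
    refine N222.SG.t_gal2 N457.SG.t_clamped2 M B D ν f x E G N N hB hD.le
      hν hTpos (fun j => (hf.2.1 j).mono fun t ht => ht.1)
      (by
        have h5 := gen_le_tsum hxs N
        have h6 : 0 ≤ G / ν ^ 2 := by positivity
        linarith)
      (fun t ht => hG N t ht.1)
      (by
        have h5 : ν ^ 2 * E = ν ^ 2 * (∑' j, x j ^ 2 + 1) + G := by rw [hE]; field_simp; ring
        rw [h5]
        have h6 : 0 < ν ^ 2 * (∑' j, x j ^ 2 + 1) := by positivity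
        linarith)
  choose! X hX using hgal
  obtain ⟨Y, U, hY, hU, hYlim⟩ := t_exist3 M B D ν f x (fun _ => Real.sqrt E) 1 X hf.2.1
    (fun N hN => (hX N hN).2.1)
    (fun N hN => (hX N hN).2.2.1) (fun N hN j t ht => by
      obtain ⟨h1, h2, h3, h4⟩ := hX N hN
      rcases le_or_gt j.length N with hj | hj
      · exact abs_le_sqrt_of_energy (h4 t ht) j hj
      · rw [h1 j hj t]; simp)
  have hev : ∀ n : ℕ, ∀ᶠ N in (U : Filter ℕ), n ≤ N := fun n => hU (eventually_ge_atTop n)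
  have hevt : ∀ t : ℝ, ∀ᶠ N : ℕ in (U : Filter ℕ), t ≤ N := by
    intro t
    obtain ⟨n, hn⟩ := exists_nat_ge t
    filter_upwards [hev n] with N h1
    exact le_trans hn (by exact_mod_cast h1)
  -- energy growth
  have hgrow : ∀ t : ℝ, 0 ≤ t → ∀ s : Finset (List (Fin M)),
      ∑ j ∈ s, Y j t ^ 2 ≤ ∑' j, x j ^ 2 + (E + G) * t := by
    intro t ht s
    have h1 : Tendsto (fun N => ∑ j ∈ s, X N j t ^ 2) (U : Filter ℕ)
        (nhds (∑ j ∈ s, Y j t ^ 2)) := tendsto_finsetSum s fun j _ => (hYlim j t ht).pow 2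
    refine le_of_tendsto h1 ?_
    filter_upwards [hev 1, hevt t, hev (s.sup List.length)] with N g1 g2 g3
    obtain ⟨h1, h2, h3, h4⟩ := hX N g1
    obtain ⟨hgr, _⟩ := h8 M B D ν f (X N) E G N N hB hD.le hν (Nat.cast_nonneg N)
      (fun j t ht => ((hf.2.1 j) t ht.1).mono fun s hs => hs.1) h1 h3
      (fun t ht => hG N t ht.1) h4
    have h5 := hgr t ⟨ht, g2⟩
    have h6 : ∑ j ∈ s, X N j t ^ 2 ≤ ∑ n ∈ Finset.range (N + 1), gen n (fun j => X N j t ^ 2) :=
      finset_le_gen (fun j => sq_nonneg _) s fun j hj =>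
        le_trans (Finset.le_sup (f := List.length) hj) g3
    have h7 : ∑ n ∈ Finset.range (N + 1), gen n (fun j => X N j 0 ^ 2)
        = ∑ n ∈ Finset.range (N + 1), gen n (fun j => x j ^ 2) := by
      apply Finset.sum_congr rfl
      intro n hn
      rw [N247.TR.gen_eq, N247.TR.gen_eq]
      apply Finset.sum_congr rfl
      intro j hj
      rw [h2 j (by rw [(N247.TR.mem_L _ _).1 hj]; exact Nat.lt_succ_iff.1 (Finset.mem_range.1 hn))]
    have h8' := gen_le_tsum hxs N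
    linarith
  -- smoothing
  have hsm : ∀ τ : ℝ, 0 < τ → ∃ a : ℕ → ℝ, Rapid a ∧ ∀ j, ∀ t, τ ≤ t → |Y j t| ≤ a j.length := by
    intro τ hτ
    obtain ⟨A, m, N₀, N₁, hm0, hθA, hms, hb⟩ := late_bounds h8 hM hB hD hν hc hf hE0 hG0 hG
      (half_pos hτ)
    have hYb : ∀ j, ∀ t, τ / 2 ≤ t → -m j.length ≤ Y j t ∧ Y j t ≤ A j.length := by
      intro j t ht
      have ht0 : 0 ≤ t := by linarith
      have hev2 : ∀ᶠ N in (U : Filter ℕ), -m j.length ≤ X N j t ∧ X N j t ≤ A j.length := by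
        filter_upwards [hev 1, hevt t, hev N₁] with N g1 g2 g3
        obtain ⟨h1, h2, h3, h4⟩ := hX N g1
        exact hb N g3 (X N) h1 h3 h4 j t ⟨ht, g2⟩
      exact ⟨ge_of_tendsto (hYlim j t ht0) (hev2.mono fun N h => h.1),
        le_of_tendsto (hYlim j t ht0) (hev2.mono fun N h => h.2)⟩
    have hYE : ∀ j, ∀ t, 0 ≤ t → |Y j t| ≤ Real.sqrt E := by
      intro j t ht
      refine le_of_tendsto (hYlim j t ht).abs ?_
      filter_upwards [hev 1, hevt t] with N g1 g2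
      obtain ⟨h1, h2, h3, h4⟩ := hX N g1
      rcases le_or_gt j.length N with hj | hj
      · exact abs_le_sqrt_of_energy (h4 t ⟨ht, g2⟩) j hj
      · rw [h1 j hj t]; simp
    obtain ⟨a, ha, hab⟩ := h9 M B D ν (1/2) F A m N₀ (fun j t => f j (τ / 2 + t))
      (fun j => Y j (τ / 2)) (fun j t => Y j (τ / 2 + t)) hM hB hD hν (by norm_num) hf.1
      (fun j t ht => hf.2.2 j _ (by linarith)) (shift hY (by linarith))
      (fun j t ht => (hYb j _ (by linarith)).2) hms (fun j t ht => (hYb j _ (by linarith)).1)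
      ⟨Real.sqrt E, fun j t ht => hYE j _ (by linarith)⟩ hθA (τ / 2) (by linarith)
    refine ⟨a, ha, fun j t ht => ?_⟩
    have h1 := hab j (t - τ / 2) (by linarith)
    simp only [add_sub_cancel] at h1
    exact h1
  exact ⟨Y, h10 M B D ν (E + G) F f x Y hM hB hD hν hf.1 hf.2.1 hf.2.2 hY hxs hsm hgrow, hsm⟩

end Pool.Agent.N167.SG
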