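import Pool.Agent.N167.SG.Energy
import Pool.Agent.N167.SG.Chain
import Pool.Agent.N167.SG.BlowStm
import Pool.Agent.N402.LH.LH1
import Pool.Agent.N216.SG.LHtwo
import Pool.Agent.N966.SG.Diss
import Pool.Agent.N966.SG.LH3
import Pool.Agent.N833.SG.Smooth3

/-! Assembly of the parts of `DyadicSharpThreshold`. -/

namespace Pool.Agent.N167.SG

open Set TR

theorem smooth_summable {M : ℕ} (hM : 0 < M) {x : List (Fin M) → ℝ} (hx : SmoothDatum x) :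
    Summable fun j => x j ^ 2 := by
  obtain ⟨y, hy, hxy⟩ := hx
  obtain ⟨G, _, hG⟩ := N157.SG.rapid_sum hy (y_nonneg hM hxy) hM
  refine summable_of_energy (fun j => sq_nonneg _) (E := G) fun N => ?_
  have h := hG N x hxy
  simp only [← N247.TR.gen_eq] at h
  exact h

theorem global_regularity {M : ℕ} {B D ν : ℝ} (hM : 0 < M) (hB : 0 < B) (hD : 1 < D) (hν : 0 < ν)
    (hc : (4 ≤ D ∧ B ^ 2 ≤ M * D ^ 3) ∨ (D ≤ 4 ∧ 10 * B ^ 2 < M * D ^ 4)) :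
    GlobalRegularity M B D ν := by
  intro x f hx hf
  obtain ⟨hfc, F, hF, hfF⟩ := hf
  obtain ⟨y, hy, hxy⟩ := hx
  have hFS : ForceS F f := ⟨hF, hfc, hfF⟩
  obtain ⟨X, hX, ⟨a, ha, hab⟩, _⟩ := signed_case hM hB hD hν hc hFS hy hxy
  obtain ⟨hLH, hEE⟩ := N402.LH.lh1 M B D ν F a f x X hM hB hD hν hF hfc hfF hX ha hab
  refine ⟨X, hX, ⟨a, ha, hab⟩, hEE, hLH, fun Z hZ =>
    N216.SG.t_LH2 M B D ν F a f x X Z hM hB hD hν hF hfc hfF hX ha hab hZ, fun hx0 hf0 => ?_⟩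
  have hforce : Force F f := ⟨hF, hfc, fun j t ht => ⟨hf0 j t ht,
    le_trans (le_abs_self _) (hfF j t ht)⟩⟩
  obtain ⟨X', hX', hX'0, _, hX'u⟩ := smooth_case hM hB hν hD hc hforce hx0 hy
    (fun j => le_trans (le_abs_self _) (hxy j))
  have hXX' := hX'u X hX
  exact ⟨fun j t ht => by rw [hXX' j t ht]; exact hX'0 j t ht,
    fun Z hZ j t ht => by rw [hX'u Z hZ j t ht, hXX' j t ht]⟩

theorem finite_energy_smoothing {M : ℕ} {B D ν : ℝ} (hM : 0 < M) (hB : 0 < B) (hD : 1 < D)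
    (hν : 0 < ν)
    (hc : (M = 1 ∧ 4 ≤ D ∧ B ^ 2 < D ^ 3) ∨ (2 ≤ M ∧ B ^ 2 < D ^ 3 ∧ 10 * B ^ 2 < M * D ^ 4)) :
    FiniteEnergySmoothing M B D ν := by
  intro x f hx hf
  obtain ⟨hfc, F, hF, hfF⟩ := hf
  obtain ⟨X, hX, hXs⟩ := signed_energy N966.SG.t_diss N833.SG.smooth3 N966.SG.t_LH3 hM hB hD hν hc
    (f := f) ⟨hF, hfc, hfF⟩ hx
  exact ⟨X, hX, hXs⟩

theorem finite_energy_uniqueness {M : ℕ} {B D ν : ℝ} (hM : 0 < M) (hB : 0 < B) (hD : 1 < D)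
    (hν : 0 < ν)
    (hc : (M = 1 ∧ 4 ≤ D ∧ B ^ 2 ≤ D ^ 3) ∨ (2 ≤ M ∧ B ^ 2 < D ^ 3 ∧ 10 * B ^ 2 < M * D ^ 4)) :
    FiniteEnergyUniqueness M B D ν := by
  intro x f hx hx0 hf hf0
  obtain ⟨hfc, F, hF, hfF⟩ := hf
  have hforce : Force F f := ⟨hF, hfc, fun j t ht => ⟨hf0 j t ht,
    le_trans (le_abs_self _) (hfF j t ht)⟩⟩
  obtain ⟨X, hX, hX0, hXs, hXu⟩ := energy_case hM hB hν hD hc hforce hx0 hx
  refine ⟨X, hX, fun τ hτ => ?_, hXu⟩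
  obtain ⟨a, ha, hb⟩ := hXs τ hτ
  exact ⟨a, ha, fun j t ht => by
    rw [abs_of_nonneg (hX0 j t (by linarith))]; exact hb j t ht⟩

/-- the chain, smooth data of any sign -/
theorem chain_regularity {lam β ν : ℝ} (hl : 2 ≤ lam) (hν : 0 < ν) (hβ : β ≤ 3)
    {x : ℕ → ℝ} {f : ℕ → ℝ → ℝ} {F : ℕ → ℝ} (hx : Rapid fun n => |x n|) (hF : Rapid F)
    (hfc : ∀ n, ContinuousOn (f n) (Ici 0)) (hfF : ∀ n, ∀ t, 0 ≤ t → |f n t| ≤ F n) :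
    ∃ X : ℕ → ℝ → ℝ, IsChainSol lam β ν f x X ∧
      (∃ a : ℕ → ℝ, Rapid a ∧ ∀ n, ∀ t, 0 ≤ t → |X n t| ≤ a n) ∧
      ((∀ n, 0 ≤ x n) → (∀ n, ∀ t, 0 ≤ t → 0 ≤ f n t) →
        ∀ Z : ℕ → ℝ → ℝ, IsChainSol lam β ν f x Z → ∀ n, ∀ t, 0 ≤ t → Z n t = X n t) := by
  have hl0 : 0 < lam := by linarith
  have hD : (4:ℝ) ≤ lam ^ 2 := by nlinarith
  obtain ⟨X, hX, ⟨a, ha, hab⟩, _, _, _, h6⟩ := global_regularity (M := 1) (B := lam ^ β)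
    (D := lam ^ 2) (ν := ν) one_pos (Real.rpow_pos_of_pos hl0 _) (by linarith) hν
    (Or.inl ⟨hD, le_threshold hl hβ⟩) (fun j => x j.length) (fun j t => f j.length t)
    ⟨fun n => |x n|, hx, fun j => le_rfl⟩ ⟨fun j => hfc _, F, hF, fun j t ht => hfF _ t ht⟩
  refine ⟨fun n => X (List.replicate n 0), chain_of_tree hl0 hX, ⟨a, ha, fun n t ht => ?_⟩, ?_⟩
  · simpa using hab (List.replicate n 0) t ht
  · intro hx0 hf0 Z hZ n t ht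
    have := (h6 (fun j => hx0 _) (fun j => hf0 _)).2 _ (tree_of_chain hl0 hZ)
      (List.replicate n 0) t ht
    simpa using this

/-- the chain, blow-up -/
theorem chain_blowup (hblow : S_blow) {lam β ν : ℝ} (hl : 2 ≤ lam) (hν : 0 < ν) (hβ : 3 < β) :
    ∃ R : ℝ, ∀ x : ℕ → ℝ, (∀ n, 0 ≤ x n) → R ≤ x 0 →
      ¬ ∃ X : ℕ → ℝ → ℝ, IsChainSol lam β ν (fun _ _ => 0) x X ∧
        ∀ T : ℝ, ∃ a : ℕ → ℝ, Rapid a ∧ ∀ n, ∀ t ∈ Icc (0 : ℝ) T, |X n t| ≤ a n := by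
  have hl0 : 0 < lam := by linarith
  have hD : (4:ℝ) ≤ lam ^ 2 := by nlinarith
  obtain ⟨R, hR⟩ := hblow 1 (lam ^ β) (lam ^ 2) ν one_pos (Real.rpow_pos_of_pos hl0 _)
    (by linarith) hν (gt_threshold hl hβ)
  refine ⟨R, fun x hx0 hxR ⟨X, hX, hXs⟩ => hR (fun j => x j.length) (fun j => hx0 _)
    (by simpa using hxR) ⟨fun i => X i.length, tree_of_chain hl0 hX, fun T => ?_⟩⟩
  obtain ⟨a, ha, hab⟩ := hXs T
  exact ⟨a, ha, fun j t ht => hab _ t ht⟩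

end Pool.Agent.N167.SG
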