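import Pool.Agent.N167.SG.Final
import Pool.Agent.N167.SG.Blow

/-! The two equivalences of `DyadicSharpThreshold`. -/

namespace Pool.Agent.N167.SG

open Set TR

theorem rapid_single (R : ℝ) : Rapid fun n => if n = 0 then |R| else 0 := by
  intro s hs
  refine ⟨|R|, fun n => ?_⟩
  by_cases h : n = 0
  · simp [h]
  · simp [h]

theorem not_both {M : ℕ} {B D ν : ℝ} (h1 : GlobalRegularity M B D ν) (h2 : BlowUp M B D ν) :
    False := by
  obtain ⟨R, hR⟩ := h2
  classical
  obtain ⟨X, hX, ⟨a, ha, hab⟩, _⟩ := h1 (fun j => if j = [] then |R| else 0) (fun _ _ => 0)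
    ⟨fun n => if n = 0 then |R| else 0, rapid_single R, fun j => by
      by_cases h : j = []
      · simp [h]
      · have h' : j.length ≠ 0 := fun h0 => h (List.length_eq_zero_iff.1 h0)
        simp [h, h']⟩
    ⟨fun j => continuousOn_const, fun _ => 0, fun s _ => ⟨0, fun n => by simp⟩,
      fun j t _ => by simp⟩
  exact hR _ (fun j => by split_ifs <;> positivity) (by simpa using le_abs_self R)
    ⟨X, hX, fun T => ⟨a, ha, fun j t ht => hab j t ht.1⟩⟩

theorem threshold {M : ℕ} {B D ν : ℝ} (hM : 0 < M) (hB : 0 < B) (hD : 4 ≤ D) (hν : 0 < ν) :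
    (GlobalRegularity M B D ν ↔ B ^ 2 ≤ M * D ^ 3) ∧ (BlowUp M B D ν ↔ M * D ^ 3 < B ^ 2) := by
  have hreg : B ^ 2 ≤ M * D ^ 3 → GlobalRegularity M B D ν := fun h =>
    global_regularity hM hB (by linarith) hν (Or.inl ⟨hD, h⟩)
  have hblow : M * D ^ 3 < B ^ 2 → BlowUp M B D ν := fun h => blow M B D ν hM hB (by linarith) hν h
  refine ⟨⟨fun h => ?_, hreg⟩, ⟨fun h => ?_, hblow⟩⟩
  · by_contra hn
    push Not at hn
    exact not_both h (hblow hn)
  · by_contra hn
    push Not at hn
    exact not_both (hreg hn) h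

theorem chain_threshold {lam β ν : ℝ} (hl : 2 ≤ lam) (hν : 0 < ν) :
    (ChainRegularity lam β ν ↔ β ≤ 3) ∧ (ChainBlowUp lam β ν ↔ 3 < β) := by
  have hreg : β ≤ 3 → ChainRegularity lam β ν := fun h x f hx hfc ⟨F, hF, hfF⟩ =>
    chain_regularity hl hν h hx hF hfc hfF
  have hblow : 3 < β → ChainBlowUp lam β ν := fun h => chain_blowup blow hl hν h
  have hno : ChainRegularity lam β ν → ChainBlowUp lam β ν → False := by
    intro h1 ⟨R, hR⟩
    obtain ⟨X, hX, ⟨a, ha, hab⟩, _⟩ := h1 (fun n => if n = 0 then |R| else 0) (fun _ _ => 0)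
      (by
        have := rapid_single R
        have e : (fun n : ℕ => |if n = 0 then |R| else 0|) = fun n => if n = 0 then |R| else 0 := by
          funext n
          split_ifs <;> simp
        rw [e]; exact this)
      (fun n => continuousOn_const) ⟨fun _ => 0, fun s _ => ⟨0, fun n => by simp⟩,
        fun n t _ => by simp⟩
    exact hR _ (fun n => by split_ifs <;> positivity) (by simpa using le_abs_self R)
      ⟨X, hX, fun T => ⟨a, ha, fun n t ht => hab n t ht.1⟩⟩
  refine ⟨⟨fun h => ?_, hreg⟩, ⟨fun h => ?_, hblow⟩⟩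
  · by_contra hn
    push Not at hn
    exact hno h (hblow hn)
  · by_contra hn
    push Not at hn
    exact hno (hreg hn) h

end Pool.Agent.N167.SG
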