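import Pool.Agent.N167.SG.Final2
import Pool.Agent.N167.Dyadic

/-! Translation to the definitions of `Pool/Agent/N167/Dyadic.lean`. -/

namespace Pool.Agent.N167.SG

open Set

theorem inflow_eq {M : ℕ} (B : ℝ) (X : List (Fin M) → ℝ) (j : List (Fin M)) :
    Dyadic.inflow B X j = TR.inflow B X j := by
  cases j <;> rfl

theorem isSol_iff {M : ℕ} (B D ν : ℝ) (f : List (Fin M) → ℝ → ℝ) (x : List (Fin M) → ℝ)
    (X : List (Fin M) → ℝ → ℝ) : Dyadic.IsSol B D ν f x X ↔ TR.IsSol B D ν f x X := by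
  simp only [Dyadic.IsSol, TR.IsSol, TR.rhs, inflow_eq]

theorem lerayHopf_iff {M : ℕ} (B D ν : ℝ) (f : List (Fin M) → ℝ → ℝ) (x : List (Fin M) → ℝ)
    (X : List (Fin M) → ℝ → ℝ) : Dyadic.LerayHopf B D ν f x X ↔ LerayHopf B D ν f x X := by
  simp only [Dyadic.LerayHopf, LerayHopf, isSol_iff]

theorem globalRegularity_of {M : ℕ} {B D ν : ℝ} (h : GlobalRegularity M B D ν) :
    Dyadic.GlobalRegularity M B D ν := by
  intro x f hx hfc hf
  obtain ⟨X, hX, hXs, _, hLH, hu, hpos⟩ := h x f hx ⟨hfc, hf⟩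
  refine ⟨X, hXs, (lerayHopf_iff _ _ _ _ _ _).2 hLH,
    fun Z hZ => hu Z ((lerayHopf_iff _ _ _ _ _ _).1 hZ), fun hx0 hf0 => ?_⟩
  obtain ⟨h1, h2⟩ := hpos hx0 hf0
  exact ⟨h1, fun Z hZ => h2 Z ((isSol_iff _ _ _ _ _ _).1 hZ)⟩

theorem blowUp_of {M : ℕ} {B D ν : ℝ} (h : BlowUp M B D ν) : Dyadic.BlowUp M B D ν := by
  obtain ⟨R, hR⟩ := h
  exact ⟨R, fun x hx0 hxR ⟨X, hX, hXs⟩ => hR x hx0 hxR ⟨X, (isSol_iff _ _ _ _ _ _).1 hX, hXs⟩⟩

theorem not_both' {M : ℕ} {B D ν : ℝ} (h1 : Dyadic.GlobalRegularity M B D ν)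
    (h2 : Dyadic.BlowUp M B D ν) : False := by
  obtain ⟨R, hR⟩ := h2
  classical
  obtain ⟨X, ⟨a, ha, hab⟩, hX, _⟩ := h1 (fun j => if j = [] then |R| else 0) (fun _ _ => 0)
    ⟨fun n => if n = 0 then |R| else 0, rapid_single R, fun j => by
      by_cases h : j = []
      · simp [h]
      · have h' : j.length ≠ 0 := fun h0 => h (List.length_eq_zero_iff.1 h0)
        simp [h, h']⟩
    (fun j => continuousOn_const) ⟨fun _ => 0, fun s _ => ⟨0, fun n => by simp⟩,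
      fun j t _ => by simp⟩
  exact hR _ (fun j => by split_ifs <;> positivity) (by simpa using le_abs_self R)
    ⟨X, hX.1, fun T => ⟨a, ha, fun j t ht => hab j t ht.1⟩⟩

theorem threshold' {M : ℕ} {B D ν : ℝ} (hM : 0 < M) (hB : 0 < B) (hD : 4 ≤ D) (hν : 0 < ν) :
    (Dyadic.GlobalRegularity M B D ν ↔ B ^ 2 ≤ M * D ^ 3) ∧
      (Dyadic.BlowUp M B D ν ↔ M * D ^ 3 < B ^ 2) := by
  have hreg : B ^ 2 ≤ M * D ^ 3 → Dyadic.GlobalRegularity M B D ν := fun h =>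
    globalRegularity_of (global_regularity hM hB (by linarith) hν (Or.inl ⟨hD, h⟩))
  have hblow : M * D ^ 3 < B ^ 2 → Dyadic.BlowUp M B D ν := fun h =>
    blowUp_of (blow M B D ν hM hB (by linarith) hν h)
  refine ⟨⟨fun h => ?_, hreg⟩, ⟨fun h => ?_, hblow⟩⟩
  · by_contra hn
    push Not at hn
    exact not_both' h (hblow hn)
  · by_contra hn
    push Not at hn
    exact not_both' (hreg hn) h

end Pool.Agent.N167.SG
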