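import Pool.Agent.N167.SG.Reg
import Pool.Agent.N167.TR.Boxes

namespace Pool.Agent.N167.SG

open TR

/-- Numerical criterion for the boxes. -/
theorem regS_box {D K R₀ α b q c : ℝ} (hD : 4 ≤ D) (hR₀ : 1 ≤ R₀)
    (h : Reg D K (R₀ / 4) α b q c (1/100))
    (hKη : K * (1/1000) ≤ 1/100) (hKc2 : K * c + 2 * (1/100) ≤ 1)
    (hηb : α * (1/1000) ^ 2 + (1/1000) < b) (hqη : q * (1 + 1/1000) ≤ 1)
    (hηq : 1/1000 * (1 + q) ≤ 1 - q)
    (h0 : 2 * K * (1/1000) * c ≤ α * (1 - q) ^ 2 - b)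
    (hαK : α * (K * (1/1000) ^ 2) ≤ b - 1/1000)
    (hLn : ∀ μ y z V : ℝ, 0 < μ → 0 ≤ y → y ≤ 1 →
      z = α * y ^ 2 - b - c * μ → -(1/1000) ≤ z → z ≤ 0 → 0 ≤ V → V ≤ 1 → α * V ≤ y + b + c * μ →
      1/100 * μ ≤ R₀ * (y ^ 2 - K * (1/1000) ^ 2) - 2 * α * y * (V + K * y * (1/1000) - μ * y))
    (hz1 : 0 < 1 - q - q * (1/1000))
    (hbz : b ≤ α * (1 - q - q * (1/1000)) ^ 2)
    (hU1 : (1/1000) ^ 2 + q * (K * (1/1000) ^ 2) ≤
      K * (1 - q - q * (1/1000)) * (α * (1 - q - q * (1/1000)) ^ 2 - b))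
    (hU2 : 1/100 ≤ 4 * (1 - q - q * (1/1000)) * (1 - K * c)) :
    RegS D K (R₀ / 4) α b q c (1/100) (1/1000) where
  base := h
  hη := by norm_num
  hη1 := by norm_num
  hKη := hKη
  hKc2 := hKc2
  hηb := hηb
  hqη := hqη
  hηq := hηq
  h0 := h0
  hLn := by
    intro R μ y z V hR hRD hμ hy hy1 hz hzη hz0 hV hV1 hαV
    have main := hLn μ y z V hμ hy hy1 hz hzη hz0 hV hV1 hαV
    have hR' : R₀ ≤ R := by
      have : R₀ / 4 * 4 ≤ R₀ / 4 * D := mul_le_mul_of_nonneg_left hD (by linarith)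
      linarith
    have h1 : 0 ≤ y ^ 2 - K * (1/1000) ^ 2 := by
      have hα := h.hα
      have hc := mul_pos h.hc hμ
      have h2 : 0 ≤ α * (y ^ 2 - K * (1/1000) ^ 2) := by linarith
      exact (mul_nonneg_iff_of_pos_left hα).1 h2
    have := mul_le_mul_of_nonneg_right hR' h1
    linarith
  hUn := by
    intro hq R μ y z ω hR hRD hμ hyη hy0 hz hωR
    have hK := h.hK
    have hα := h.hα
    have hb := h.hb
    have hc := h.hc
    have hq1 := h.hq1
    have hR' : R₀ ≤ R := by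
      have : R₀ / 4 * 4 ≤ R₀ / 4 * D := mul_le_mul_of_nonneg_left hD (by linarith)
      linarith
    set z₁ := 1 - q - q * (1/1000) with hz₁
    have hzz : z₁ ≤ z := by rw [hz, hz₁]; nlinarith
    have hz0 : 0 < z := by linarith
    have h1 : K * z * (R * (α * z ^ 2 - b) - D * c * μ) ≤ K * z * (R * ω) :=
      mul_le_mul_of_nonneg_left hωR (by positivity)
    have h2 : z₁ ^ 2 ≤ z ^ 2 := pow_le_pow_left₀ hz1.le hzz 2
    have h3 : α * z₁ ^ 2 - b ≤ α * z ^ 2 - b := by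
      have := mul_le_mul_of_nonneg_left h2 hα.le
      linarith
    have h4 : K * z₁ * (α * z₁ ^ 2 - b) ≤ K * z * (α * z ^ 2 - b) := by
      apply mul_le_mul _ h3 (by linarith) (by positivity)
      exact mul_le_mul_of_nonneg_left hzz (by linarith)
    have h5 : y ^ 2 ≤ (1/1000) ^ 2 := by nlinarith
    have h6 : q * (K * (1/1000) ^ 2) ≤ K * z * (α * z ^ 2 - b) - y ^ 2 := by linarith
    have h7 : 0 ≤ q * (K * (1/1000) ^ 2) := by positivity
    have h8 : 1 * (q * (K * (1/1000) ^ 2)) ≤ R * (K * z * (α * z ^ 2 - b) - y ^ 2) :=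
      mul_le_mul (by linarith) h6 h7 (by linarith)
    have hKc : 0 ≤ 1 - K * c := by linarith
    have h9 : 4 * z₁ * (1 - K * c) ≤ D * z * (1 - K * c) := by
      apply mul_le_mul_of_nonneg_right _ hKc
      exact mul_le_mul hD hzz hz1.le (by linarith)
    have h10 : 1/100 * μ ≤ D * z * (1 - K * c) * μ :=
      mul_le_mul_of_nonneg_right (by linarith) hμ.le
    nlinarith

/-- Reduction of `hLn` to a polynomial inequality in one variable. -/
theorem ln_of {K R₀ α b c : ℝ} (hc : 0 < c) (hb : 6/1000 ≤ b)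
    (hp : ∀ y : ℝ, 0 ≤ y → y ≤ 1 → b - 1/1000 ≤ α * y ^ 2 →
      0 ≤ c * (R₀ * (y ^ 2 - K * (1/1000) ^ 2) - 2 * y * (y + α * y ^ 2 + 1/1000)
        - α * K * y ^ 2 / 500) + (α * y ^ 2 - b) * (2 * α * y ^ 2 - 1/100))
    (μ y z V : ℝ) (hμ : 0 < μ) (hy : 0 ≤ y) (hy1 : y ≤ 1)
    (hz : z = α * y ^ 2 - b - c * μ) (hzη : -(1/1000) ≤ z) (hz0 : z ≤ 0)
    (_ : 0 ≤ V) (_ : V ≤ 1) (hαV : α * V ≤ y + b + c * μ) :
    1/100 * μ ≤ R₀ * (y ^ 2 - K * (1/1000) ^ 2)
      - 2 * α * y * (V + K * y * (1/1000) - μ * y) := by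
  have hcμ : 0 < c * μ := mul_pos hc hμ
  have h1 : α * V ≤ y + α * y ^ 2 + 1/1000 := by linarith
  have h2 : y * (α * V) ≤ y * (y + α * y ^ 2 + 1/1000) := mul_le_mul_of_nonneg_left h1 hy
  have h3 : b - 1/1000 ≤ α * y ^ 2 := by linarith
  have h4 := hp y hy hy1 h3
  have h5 : 0 ≤ 2 * α * y ^ 2 - 1/100 := by linarith
  have h6 : (α * y ^ 2 - b) * (2 * α * y ^ 2 - 1/100) ≤ c * μ * (2 * α * y ^ 2 - 1/100) :=
    mul_le_mul_of_nonneg_right (by linarith) h5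
  have h7 : 0 ≤ c * (R₀ * (y ^ 2 - K * (1/1000) ^ 2) - 2 * y * (y + α * y ^ 2 + 1/1000)
        - α * K * y ^ 2 / 500 + μ * (2 * α * y ^ 2 - 1/100)) := by
    have e : c * (R₀ * (y ^ 2 - K * (1/1000) ^ 2) - 2 * y * (y + α * y ^ 2 + 1/1000)
        - α * K * y ^ 2 / 500 + μ * (2 * α * y ^ 2 - 1/100))
        = c * (R₀ * (y ^ 2 - K * (1/1000) ^ 2) - 2 * y * (y + α * y ^ 2 + 1/1000)
        - α * K * y ^ 2 / 500) + c * μ * (2 * α * y ^ 2 - 1/100) := by ring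
    rw [e]
    linarith
  have h8 := (mul_nonneg_iff_of_pos_left hc).1 h7
  nlinarith

theorem pl_1 (y : ℝ) (hy : 0 ≤ y) (hy1 : y ≤ 1) (h : (3/100) - 1/1000 ≤ (103/100) * y ^ 2) :
    0 ≤ (17/20) * ((39/10) * (y ^ 2 - (1) * (1/1000) ^ 2) - 2 * y * (y + (103/100) * y ^ 2 + 1/1000)
        - (103/100) * (1) * y ^ 2 / 500) + ((103/100) * y ^ 2 - (3/100)) * (2 * (103/100) * y ^ 2 - 1/100) := by
  have h1 : 0 ≤ y * (1 - y) := mul_nonneg hy (sub_nonneg.2 hy1)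
  have h2 : 0 ≤ (103/100) * y ^ 2 - ((3/100) - 1/1000) := sub_nonneg.2 h
  nlinarith [mul_nonneg hy h1, mul_nonneg h1 h1, mul_nonneg h2 h1, mul_nonneg h2 hy, mul_nonneg h2 h2,
    sq_nonneg (y ^ 2 - y / 2), sq_nonneg (y ^ 2 - y * (2/3)), mul_nonneg h2 (mul_nonneg hy hy)]

theorem pl_2 (y : ℝ) (hy : 0 ≤ y) (hy1 : y ≤ 1) (h : (18/1000) - 1/1000 ≤ (966/1000) * y ^ 2) :
    0 ≤ (78/100) * ((15/4) * (y ^ 2 - (107/100) * (1/1000) ^ 2) - 2 * y * (y + (966/1000) * y ^ 2 + 1/1000)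
        - (966/1000) * (107/100) * y ^ 2 / 500) + ((966/1000) * y ^ 2 - (18/1000)) * (2 * (966/1000) * y ^ 2 - 1/100) := by
  have h1 : 0 ≤ y * (1 - y) := mul_nonneg hy (sub_nonneg.2 hy1)
  have h2 : 0 ≤ (966/1000) * y ^ 2 - ((18/1000) - 1/1000) := sub_nonneg.2 h
  nlinarith [mul_nonneg hy h1, mul_nonneg h1 h1, mul_nonneg h2 h1, mul_nonneg h2 hy, mul_nonneg h2 h2,
    sq_nonneg (y ^ 2 - y / 2), sq_nonneg (y ^ 2 - y * (2/3)), mul_nonneg h2 (mul_nonneg hy hy)]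

theorem pl_3 (y : ℝ) (hy : 0 ≤ y) (hy1 : y ≤ 1) (h : (24/1000) - 1/1000 ≤ (857/1000) * y ^ 2) :
    0 ≤ (3/5) * ((15/4) * (y ^ 2 - (129/100) * (1/1000) ^ 2) - 2 * y * (y + (857/1000) * y ^ 2 + 1/1000)
        - (857/1000) * (129/100) * y ^ 2 / 500) + ((857/1000) * y ^ 2 - (24/1000)) * (2 * (857/1000) * y ^ 2 - 1/100) := by
  have h1 : 0 ≤ y * (1 - y) := mul_nonneg hy (sub_nonneg.2 hy1)
  have h2 : 0 ≤ (857/1000) * y ^ 2 - ((24/1000) - 1/1000) := sub_nonneg.2 h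
  nlinarith [mul_nonneg hy h1, mul_nonneg h1 h1, mul_nonneg h2 h1, mul_nonneg h2 hy, mul_nonneg h2 h2,
    sq_nonneg (y ^ 2 - y / 2), sq_nonneg (y ^ 2 - y * (2/3)), mul_nonneg h2 (mul_nonneg hy hy)]

theorem pl_4 (y : ℝ) (hy : 0 ≤ y) (hy1 : y ≤ 1) (h : (356/1000) - 1/1000 ≤ (104/100) * y ^ 2) :
    0 ≤ (1/2) * ((15/4) * (y ^ 2 - (156/100) * (1/1000) ^ 2) - 2 * y * (y + (104/100) * y ^ 2 + 1/1000)
        - (104/100) * (156/100) * y ^ 2 / 500) + ((104/100) * y ^ 2 - (356/1000)) * (2 * (104/100) * y ^ 2 - 1/100) := by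
  have h1 : 0 ≤ y * (1 - y) := mul_nonneg hy (sub_nonneg.2 hy1)
  have h2 : 0 ≤ (104/100) * y ^ 2 - ((356/1000) - 1/1000) := sub_nonneg.2 h
  nlinarith [mul_nonneg hy h1, mul_nonneg h1 h1, mul_nonneg h2 h1, mul_nonneg h2 hy, mul_nonneg h2 h2,
    sq_nonneg (y ^ 2 - y / 2), sq_nonneg (y ^ 2 - y * (2/3)), mul_nonneg h2 (mul_nonneg hy hy)]

theorem pl_5 (y : ℝ) (hy : 0 ≤ y) (hy1 : y ≤ 1) (h : (34/100) - 1/1000 ≤ (93/100) * y ^ 2) :
    0 ≤ (2/5) * ((36/10) * (y ^ 2 - (189/100) * (1/1000) ^ 2) - 2 * y * (y + (93/100) * y ^ 2 + 1/1000)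
        - (93/100) * (189/100) * y ^ 2 / 500) + ((93/100) * y ^ 2 - (34/100)) * (2 * (93/100) * y ^ 2 - 1/100) := by
  have h1 : 0 ≤ y * (1 - y) := mul_nonneg hy (sub_nonneg.2 hy1)
  have h2 : 0 ≤ (93/100) * y ^ 2 - ((34/100) - 1/1000) := sub_nonneg.2 h
  nlinarith [mul_nonneg hy h1, mul_nonneg h1 h1, mul_nonneg h2 h1, mul_nonneg h2 hy, mul_nonneg h2 h2,
    sq_nonneg (y ^ 2 - y / 2), sq_nonneg (y ^ 2 - y * (2/3)), mul_nonneg h2 (mul_nonneg hy hy)]

theorem pl_6 (y : ℝ) (hy : 0 ≤ y) (hy1 : y ≤ 1) (h : (345/1000) - 1/1000 ≤ (80/100) * y ^ 2) :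
    0 ≤ (1/4) * ((35/10) * (y ^ 2 - (259/100) * (1/1000) ^ 2) - 2 * y * (y + (80/100) * y ^ 2 + 1/1000)
        - (80/100) * (259/100) * y ^ 2 / 500) + ((80/100) * y ^ 2 - (345/1000)) * (2 * (80/100) * y ^ 2 - 1/100) := by
  have h1 : 0 ≤ y * (1 - y) := mul_nonneg hy (sub_nonneg.2 hy1)
  have h2 : 0 ≤ (80/100) * y ^ 2 - ((345/1000) - 1/1000) := sub_nonneg.2 h
  nlinarith [mul_nonneg hy h1, mul_nonneg h1 h1, mul_nonneg h2 h1, mul_nonneg h2 hy, mul_nonneg h2 h2,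
    sq_nonneg (y ^ 2 - y / 2), sq_nonneg (y ^ 2 - y * (2/3)), mul_nonneg h2 (mul_nonneg hy hy)]

theorem regS_1 (D : ℝ) (hD : 4 ≤ D) :
    RegS D (1) ((39/10) / 4) (103/100) (3/100) (5/9) (17/20) (1/100) (1/1000) :=
  regS_box hD (by norm_num) (reg_1 D hD) (by norm_num) (by norm_num) (by norm_num) (by norm_num)
    (by norm_num) (by norm_num) (by norm_num)
    (ln_of (by norm_num) (by norm_num) pl_1)
    (by norm_num) (by norm_num) (by norm_num) (by norm_num)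

theorem regS_2 (D : ℝ) (hD : 4 ≤ D) :
    RegS D (107/100) ((15/4) / 4) (966/1000) (18/1000) (58/100) (78/100) (1/100) (1/1000) :=
  regS_box hD (by norm_num) (reg_2 D hD) (by norm_num) (by norm_num) (by norm_num) (by norm_num)
    (by norm_num) (by norm_num) (by norm_num)
    (ln_of (by norm_num) (by norm_num) pl_2)
    (by norm_num) (by norm_num) (by norm_num) (by norm_num)

theorem regS_3 (D : ℝ) (hD : 4 ≤ D) :
    RegS D (129/100) ((15/4) / 4) (857/1000) (24/1000) (61/100) (3/5) (1/100) (1/1000) :=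
  regS_box hD (by norm_num) (reg_3 D hD) (by norm_num) (by norm_num) (by norm_num) (by norm_num)
    (by norm_num) (by norm_num) (by norm_num)
    (ln_of (by norm_num) (by norm_num) pl_3)
    (by norm_num) (by norm_num) (by norm_num) (by norm_num)

theorem regS_4 (D : ℝ) (hD : 4 ≤ D) :
    RegS D (156/100) ((15/4) / 4) (104/100) (356/1000) (2/5) (1/2) (1/100) (1/1000) :=
  regS_box hD (by norm_num) (reg_4 D hD) (by norm_num) (by norm_num) (by norm_num) (by norm_num)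
    (by norm_num) (by norm_num) (by norm_num)
    (ln_of (by norm_num) (by norm_num) pl_4)
    (by norm_num) (by norm_num) (by norm_num) (by norm_num)

theorem regS_5 (D : ℝ) (hD : 4 ≤ D) :
    RegS D (189/100) ((36/10) / 4) (93/100) (34/100) (36/100) (2/5) (1/100) (1/1000) :=
  regS_box hD (by norm_num) (reg_5 D hD) (by norm_num) (by norm_num) (by norm_num) (by norm_num)
    (by norm_num) (by norm_num) (by norm_num)
    (ln_of (by norm_num) (by norm_num) pl_5)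
    (by norm_num) (by norm_num) (by norm_num) (by norm_num)

theorem regS_6 (D : ℝ) (hD : 4 ≤ D) :
    RegS D (259/100) ((35/10) / 4) (80/100) (345/1000) (3/10) (1/4) (1/100) (1/1000) :=
  regS_box hD (by norm_num) (reg_6 D hD) (by norm_num) (by norm_num) (by norm_num) (by norm_num)
    (by norm_num) (by norm_num) (by norm_num)
    (ln_of (by norm_num) (by norm_num) pl_6)
    (by norm_num) (by norm_num) (by norm_num) (by norm_num)

/-- The simple region with a margin. -/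
theorem simpleS {D K s₀ : ℝ} (hD : 1 ≤ D) (hK : 2 ≤ K) (hs : 9 / 10 ≤ s₀)
    (hP : 10 ≤ K * (s₀ * D)) :
    RegS D K s₀ (11 / 5 / K) (6 / 5 / K) 0 (9 / 10 / K) (1 / 100) (1 / 100 / K) := by
  have hKp : 0 < K := by linarith
  have hη0 : 0 < 1 / 100 / K := by positivity
  have hη1 : 1 / 100 / K ≤ 1 / 200 := by
    rw [div_le_iff₀ hKp]; linarith
  refine ⟨simple hD hK hs hP, hη0, by linarith, ?_, ?_, ?_, ?_, by linarith, ?_, ?_,
    fun h => absurd h (lt_irrefl _)⟩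
  · field_simp; norm_num
  · have : K * (9 / 10 / K) = 9 / 10 := by field_simp
    rw [this]; norm_num
  · have e : 11 / 5 / K * (1 / 100 / K) ^ 2 = (11 / 5 * (1 / 100 / K) ^ 2) / K := by ring
    have e2 : (1:ℝ) / 100 / K = (1/100) / K := rfl
    rw [e, ← add_div, div_lt_div_iff_of_pos_right hKp]
    nlinarith
  · norm_num
  · have e : 2 * K * (1 / 100 / K) * (9 / 10 / K) = (18 / 1000) / K := by field_simp; norm_num
    have e2 : 11 / 5 / K * (1 - 0) ^ 2 - 6 / 5 / K = 1 / K := by ring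
    rw [e, e2]
    exact div_le_div_of_nonneg_right (by norm_num) hKp.le
  · intro R μ y z V hR hRD hμ hy hy1 hz hzη hz0 hV hV1 hαV
    have hR0 : 0 ≤ R := le_trans (by positivity) hR
    set P := K * R with hP'
    have hP10 : 10 ≤ P := le_trans hP (mul_le_mul_of_nonneg_left hR hKp.le)
    have hKP : K * (9 / 10) ≤ P := by
      apply mul_le_mul_of_nonneg_left _ hKp.le
      have : s₀ * 1 ≤ s₀ * D := mul_le_mul_of_nonneg_left hD (by linarith)
      linarith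
    set ζ := K * z with hζ
    have hζe : ζ = 11 / 5 * y ^ 2 - 6 / 5 - 9 / 10 * μ := by
      rw [hζ, hz]; field_simp
    have hζ1 : -(1 / 100) ≤ ζ := by
      have := mul_le_mul_of_nonneg_left hzη hKp.le
      have e : K * (-(1 / 100 / K)) = -(1 / 100) := by field_simp
      rw [e] at this
      exact this
    have hy2 : 119 / 100 + 9 / 10 * μ ≤ 11 / 5 * y ^ 2 := by linarith
    have hyl : 7 / 10 ≤ y := by nlinarith
    have goal : K * (1 / 100 * μ) ≤ P * (y ^ 2 - 1 / 10000 / K)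
        - 22 / 5 * y * (1 + y / 100 - μ * y) := by
      have h1 : K * (1 / 100 * μ) ≤ P * (1 / 90 * μ) := by
        have := mul_le_mul_of_nonneg_right hKP (by positivity : (0:ℝ) ≤ 1 / 90 * μ)
        linarith
      have h2 : (1:ℝ) / 10000 / K ≤ 1 / 20000 := by rw [div_le_iff₀ hKp]; linarith
      have h3 : P * (y ^ 2 - 1 / 20000) ≤ P * (y ^ 2 - 1 / 10000 / K) :=
        mul_le_mul_of_nonneg_left (by linarith) (by linarith)
      have h4 : 10 * (y ^ 2 - 1 / 20000 - 1 / 90 * μ) ≤ P * (y ^ 2 - 1 / 20000 - 1 / 90 * μ) := by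
        apply mul_le_mul_of_nonneg_right hP10
        nlinarith
      have h5 : 0 ≤ 10 * (y ^ 2 - 1 / 20000 - 1 / 90 * μ) - 22 / 5 * y * (1 + y / 100 - μ * y) := by
        have h6 : (22 / 5) * (49 / 100) * μ ≤ 22 / 5 * (y * y) * μ := by
          apply mul_le_mul_of_nonneg_right _ hμ.le
          nlinarith
        nlinarith
      linarith
    have h1 : K * (R * (y ^ 2 - K * (1 / 100 / K) ^ 2)) = P * (y ^ 2 - 1 / 10000 / K) := by
      have : K * (1 / 100 / K) ^ 2 = 1 / 10000 / K := by field_simp; norm_num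
      rw [this, hP']; ring
    have h2 : K * (2 * (11 / 5 / K) * y * (V + K * y * (1 / 100 / K) - μ * y))
        ≤ 22 / 5 * y * (1 + y / 100 - μ * y) := by
      have e : K * (2 * (11 / 5 / K) * y * (V + K * y * (1 / 100 / K) - μ * y))
          = 22 / 5 * y * (V + y / 100 - μ * y) := by
        field_simp; ring
      rw [e]
      apply mul_le_mul_of_nonneg_left _ (by positivity)
      linarith
    have h4 : K * (1 / 100 * μ) ≤ K * (R * (y ^ 2 - K * (1 / 100 / K) ^ 2)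
        - 2 * (11 / 5 / K) * y * (V + K * y * (1 / 100 / K) - μ * y)) := by
      rw [mul_sub, h1]
      linarith
    exact le_of_mul_le_mul_left h4 hKp

/-- For every `κ > 1` and `D ≥ 4` there is an invariant region with margin, `K < κ` and
`κ s₀³ ≤ K`, `s₀ < 1`. -/
theorem reg_existsS (D κ : ℝ) (hD : 4 ≤ D) (h1 : 1 < κ) :
    ∃ K s₀ α b q c ε η : ℝ, RegS D K s₀ α b q c ε η ∧ K < κ ∧ κ * s₀ ^ 3 ≤ K := by
  rcases le_total κ (1075/1000) with h | h
  · exact ⟨_, _, _, _, _, _, _, _, regS_1 D hD, by linarith, by norm_num; linarith⟩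
  rcases le_total κ (1295/1000) with h | h
  · exact ⟨_, _, _, _, _, _, _, _, regS_2 D hD, by linarith, by norm_num; linarith⟩
  rcases le_total κ (1563/1000) with h | h
  · exact ⟨_, _, _, _, _, _, _, _, regS_3 D hD, by linarith, by norm_num; linarith⟩
  rcases le_total κ (1892/1000) with h | h
  · exact ⟨_, _, _, _, _, _, _, _, regS_4 D hD, by linarith, by norm_num; linarith⟩
  rcases le_total κ (2592/1000) with h | h
  · exact ⟨_, _, _, _, _, _, _, _, regS_5 D hD, by linarith, by norm_num; linarith⟩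
  rcases le_total κ (386/100) with h | h
  · exact ⟨_, _, _, _, _, _, _, _, regS_6 D hD, by linarith, by norm_num; linarith⟩
  refine ⟨κ * (9 / 10) ^ 3, 9 / 10, _, _, _, _, _, _, simpleS (by linarith) ?_ le_rfl ?_, ?_, le_rfl⟩
  · norm_num; linarith
  · nlinarith
  · norm_num; linarith

end Pool.Agent.N167.SG
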