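import Pool.Agent.N167.TR.Def

/-! Leray–Hopf solutions of the tree model (helper167). -/

namespace Pool.Agent.N167.SG

open Set TR

/-- Leray–Hopf solutions: componentwise solutions of locally bounded energy satisfying the energy
inequality `∑ Z_j(t)² + 2ν ∑ D^|j| ∫₀ᵗ Z_j² ≤ ∑ x_j² + 2 ∫₀ᵗ ∑ f_j Z_j` (the left-hand sums are
over arbitrary finite sets of nodes). -/
def LerayHopf {M : ℕ} (B D ν : ℝ) (f : List (Fin M) → ℝ → ℝ) (x : List (Fin M) → ℝ)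
    (Z : List (Fin M) → ℝ → ℝ) : Prop :=
  IsSol B D ν f x Z ∧
  (∀ T : ℝ, ∃ E : ℝ, ∀ t ∈ Icc (0 : ℝ) T, ∀ s : Finset (List (Fin M)), ∑ j ∈ s, Z j t ^ 2 ≤ E) ∧
  ∀ t : ℝ, 0 ≤ t → ∀ s : Finset (List (Fin M)),
    ∑ j ∈ s, (Z j t ^ 2 + 2 * ν * D ^ j.length * ∫ τ in (0 : ℝ)..t, Z j τ ^ 2) ≤
      ∑' j, x j ^ 2 + 2 * ∫ τ in (0 : ℝ)..t, ∑' j, f j τ * Z j τ

/-- LH/1: rapidly decreasing solutions are Leray–Hopf solutions and satisfy the energy equality. -/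
def S_LH1 : Prop :=
  ∀ (M : ℕ) (B D ν : ℝ) (F a : ℕ → ℝ) (f : List (Fin M) → ℝ → ℝ)
    (x : List (Fin M) → ℝ) (X : List (Fin M) → ℝ → ℝ), 0 < M → 0 < B → 1 < D → 0 < ν →
    Rapid F → (∀ j, ContinuousOn (f j) (Ici 0)) → (∀ j, ∀ t, 0 ≤ t → |f j t| ≤ F j.length) →
    IsSol B D ν f x X → Rapid a → (∀ j, ∀ t, 0 ≤ t → |X j t| ≤ a j.length) →
    LerayHopf B D ν f x X ∧
    ∀ t : ℝ, 0 ≤ t →
      ∑' j, (X j t ^ 2 + 2 * ν * D ^ j.length * ∫ τ in (0 : ℝ)..t, X j τ ^ 2) =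
        ∑' j, x j ^ 2 + 2 * ∫ τ in (0 : ℝ)..t, ∑' j, f j τ * X j τ

/-- LH/2: weak-strong uniqueness. -/
def S_LH2 : Prop :=
  ∀ (M : ℕ) (B D ν : ℝ) (F a : ℕ → ℝ) (f : List (Fin M) → ℝ → ℝ)
    (x : List (Fin M) → ℝ) (X Z : List (Fin M) → ℝ → ℝ), 0 < M → 0 < B → 1 < D → 0 < ν →
    Rapid F → (∀ j, ContinuousOn (f j) (Ici 0)) → (∀ j, ∀ t, 0 ≤ t → |f j t| ≤ F j.length) →
    IsSol B D ν f x X → Rapid a → (∀ j, ∀ t, 0 ≤ t → |X j t| ≤ a j.length) →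
    LerayHopf B D ν f x Z → ∀ j, ∀ t, 0 ≤ t → Z j t = X j t

end Pool.Agent.N167.SG
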