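import Pool.Agent.N167.SG.Reg
import Pool.Agent.N167.TR.Region

namespace Pool.Agent.N167.SG

open Set TR

variable {M : ℕ}

/-- Invariance of the region for the truncated system, small negative values allowed. -/
theorem region2 {B D ν K s₀ α b q c ε η m₀ T : ℝ} {A κ μ r : ℕ → ℝ}
    {f X : List (Fin M) → ℝ → ℝ} {N : ℕ} (hM : 0 < M)
    (hReg : RegS D K s₀ α b q c ε η) (h : Amp M B D ν K s₀ ε A κ μ r) (hT : 0 ≤ T)
    (hN : α ≤ c * μ N) (hm0 : 0 ≤ m₀) (hm1 : m₀ + q * η ≤ 1 - q) (hm2 : α * m₀ ^ 2 + η ≤ b)
    (hηm : η ≤ m₀)
    (hx : ∀ j, X j 0 ≤ m₀ * A j.length)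
    (hf : ∀ j, ∀ t ∈ Icc (0 : ℝ) T, |f j t| ≤ ε / (16 * D) * (ν * D ^ j.length) * A j.length)
    (hX0 : ∀ j, N < j.length → ∀ t, X j t = 0)
    (hneg : ∀ j, ∀ t ∈ Icc (0 : ℝ) T, -(η * A j.length) ≤ X j t)
    (hXd : SolUpTo B D ν f N T X) :
    ∀ j, ∀ t ∈ Icc (0 : ℝ) T, X j t ≤ A j.length := by
  have hα := hReg.base.hα
  have hb := hReg.base.hb
  have hq := hReg.base.hq
  have hq1 := hReg.base.hq1
  have hc := hReg.base.hc
  have hε := hReg.base.hε
  have hD := hReg.base.hD
  have hη := hReg.hη
  have hη1 := hReg.hη1
  have hηb := hReg.hηb
  have hδε : ε / (16 * D) ≤ ε / 16 := by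
    rw [div_le_div_iff₀ (by positivity) (by norm_num)]
    nlinarith
  set w : List (Fin M) → ℝ → ℝ := fun j t => X j t / A j.length with hw
  set Dv : List (Fin M) → ℝ → ℝ := fun j t =>
    if j.length ≤ N then rhs B D ν (fun i => f i t) (fun i => X i t) j / A j.length else 0 with hDv
  have hwd : ∀ j, ∀ t ∈ Icc (0 : ℝ) T, HasDerivWithinAt (w j) (Dv j t) (Icc 0 T) t := by
    intro j t ht
    rcases le_or_gt j.length N with hn | hn
    · simp only [hDv, hn, if_true]
      exact (hXd j hn t ht).div_const (A j.length)
    · have hn' : ¬ j.length ≤ N := by omega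
      simp only [hDv, hn', if_false]
      have : w j = fun _ => 0 := by
        funext s
        simp only [hw, hX0 j hn s, zero_div]
      rw [this]
      exact hasDerivWithinAt_const _ _ _
  have hwnn : ∀ j, ∀ t ∈ Icc (0 : ℝ) T, -η ≤ w j t := fun j t ht => by
    simp only [hw]
    rw [le_div_iff₀ (h.A_pos _)]
    have := hneg j t ht
    linarith
  have hwz : ∀ j : List (Fin M), N < j.length → ∀ t, w j t = 0 := by
    intro j hn t
    simp only [hw, hX0 j hn t, zero_div]
  have hpd : ∀ j, ∀ t ∈ Icc (0 : ℝ) T,
      HasDerivWithinAt (fun s => prev (fun i => w i s) j) (prev (fun i => Dv i t) j) (Icc 0 T) t := by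
    intro j t ht
    cases j with
    | nil => simp only [prev]; exact hasDerivWithinAt_const _ _ _
    | cons k i => simp only [prev]; exact hwd i t ht
  have hpnn : ∀ j, ∀ t ∈ Icc (0 : ℝ) T, -η ≤ prev (fun i => w i t) j := by
    intro j t ht
    cases j with
    | nil => simp only [prev]; linarith
    | cons k i => simp only [prev]; exact hwnn i t ht
  have : Finite {j : List (Fin M) // j.length ≤ N} :=
    (List.finite_length_le (Fin M) N).to_subtype
  let φ : {j : List (Fin M) // j.length ≤ N} × Option (Option (Fin M)) → ℝ → ℝ := fun i t =>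
    match i.2 with
    | none => 1 - w i.1 t
    | some none => 1 - q * (1 - prev (fun m => w m t) i.1) - w i.1 t
    | some (some k) => w (k :: i.1) t - α * (w i.1 t) ^ 2 + (b + c * μ i.1.1.length)
  let φ' : {j : List (Fin M) // j.length ≤ N} × Option (Option (Fin M)) → ℝ → ℝ := fun i t =>
    match i.2 with
    | none => - Dv i.1 t
    | some none => q * prev (fun m => Dv m t) i.1 - Dv i.1 t
    | some (some k) => Dv (k :: i.1) t - 2 * α * w i.1 t * Dv i.1 t
  have hφd : ∀ i, ∀ t ∈ Icc (0 : ℝ) T, HasDerivWithinAt (φ i) (φ' i t) (Icc 0 T) t := by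
    rintro ⟨⟨j, hj⟩, o⟩ t ht
    rcases o with _ | _ | k
    · simpa [φ, φ'] using (hwd j t ht).const_sub 1
    · have h1 := ((((hpd j t ht).const_sub 1).const_mul q).const_sub 1).sub (hwd j t ht)
      refine h1.congr_deriv ?_
      simp only [φ']
      ring
    · have h1 := ((hwd (k :: j) t ht).sub (((hwd j t ht).pow 2).const_mul α)).add_const
        (b + c * μ j.length)
      refine h1.congr_deriv ?_
      simp only [φ']
      push_cast
      ring
  have h00 : (0:ℝ) ∈ Icc (0:ℝ) T := ⟨le_rfl, hT⟩
  have hφ0 : ∀ i, 0 ≤ φ i 0 := by
    rintro ⟨⟨j, hj⟩, o⟩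
    have hwn : w j 0 ≤ m₀ := by
      simp only [hw]
      rw [div_le_iff₀ (h.A_pos _)]
      exact hx j
    have hwn0 := hwnn j 0 h00
    have hp := hpnn j 0 h00
    have hμn := h.μ_pos j.length
    rcases o with _ | _ | k
    · simp only [φ]
      have : 0 ≤ q * η := mul_nonneg hq hη.le
      linarith
    · simp only [φ]
      have h1 : q * (-η) ≤ q * prev (fun m => w m 0) j := mul_le_mul_of_nonneg_left hp hq
      linarith
    · simp only [φ]
      have hwn1 := hwnn (k :: j) 0 h00
      have h1 : w j 0 ^ 2 ≤ m₀ ^ 2 := by nlinarith
      have h2 : α * w j 0 ^ 2 ≤ α * m₀ ^ 2 := mul_le_mul_of_nonneg_left h1 hα.le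
      have h3 : 0 ≤ c * μ j.length := by positivity
      linarith
  have hbar := N415.DY.t_barrier _ T φ φ' hT hφd hφ0 (by
    rintro ⟨⟨j, hj⟩, o⟩ t ht hall hzero
    have htI : t ∈ Icc (0:ℝ) T := ⟨ht.1, ht.2.le⟩
    have hw0 : ∀ i, -η ≤ w i t := fun i => hwnn i t htI
    have hp0 : ∀ i, -η ≤ prev (fun m => w m t) i := fun i => hpnn i t htI
    have hw1 : ∀ i, w i t ≤ 1 := by
      intro i
      rcases le_or_gt i.length N with hm | hm
      · have := hall (⟨i, hm⟩, none)
        simp only [φ] at this
        linarith
      · rw [hwz i hm t]; norm_num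
    have hp1 : ∀ i, prev (fun m => w m t) i ≤ 1 := by
      intro i
      cases i with
      | nil => simp only [prev]; norm_num
      | cons k i => simp only [prev]; exact hw1 i
    have hpsq : ∀ i, prev (fun m => w m t) i ^ 2 ≤ 1 := fun i =>
      sq_le_one' (by linarith [hp0 i]) (hp1 i)
    have hLo : ∀ i, i.length ≤ N → ∀ k, α * w i t ^ 2 - b - c * μ i.length ≤ w (k :: i) t := by
      intro i hm k
      have := hall (⟨i, hm⟩, some (some k))
      simp only [φ] at this
      linarith
    have hUp : ∀ i, i.length ≤ N → w i t ≤ 1 - q * (1 - prev (fun m => w m t) i) := by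
      intro i hm
      have := hall (⟨i, hm⟩, some none)
      simp only [φ] at this
      linarith
    have hDm : ∀ i, i.length ≤ N → Dv i t = f i t / A i.length +
        r i.length * (prev (fun m => w m t) i ^ 2
        - κ i.length * w i t * avg (fun m => w m t) i - μ i.length * w i t) := by
      intro i hm
      simp only [hDv, hm, if_true]
      exact rhs_eq hM h (fun m => f m t) (fun m => X m t) i
    have hFabs : ∀ i : List (Fin M),
        |f i t / A i.length| ≤ ε / (16 * D) * μ i.length * r i.length := by
      intro i
      rw [abs_div, abs_of_pos (h.A_pos _), div_le_iff₀ (h.A_pos _)]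
      have := hf i t htI
      rw [← h.hμ i.length] at this
      linarith
    have hFδ : ∀ i : List (Fin M), f i t / A i.length ≤ ε / (16 * D) * μ i.length * r i.length :=
      fun i => le_trans (le_abs_self _) (hFabs i)
    have hδε' : ∀ n, ε / (16 * D) * μ n * r n ≤ ε / 16 * μ n * r n := by
      intro n
      have h2 : 0 ≤ μ n * r n := by
        have := h.μ_pos n; have := h.r_pos n; positivity
      have h3 := mul_le_mul_of_nonneg_right hδε h2
      linarith
    have hF1 : ∀ i : List (Fin M), f i t / A i.length ≤ ε / 16 * μ i.length * r i.length :=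
      fun i => le_trans (hFδ i) (hδε' _)
    have hFm : ∀ i : List (Fin M), -(ε / 16 * μ i.length * r i.length) ≤ f i t / A i.length := by
      intro i
      have h1 := neg_abs_le (f i t / A i.length)
      have h2 := hFabs i
      have h3 := hδε' i.length
      linarith
    -- force on the child in terms of the parameters of the parent
    have hFm' : ∀ (i : List (Fin M)) (k : Fin M),
        -(ε / 16 * μ i.length * r i.length) ≤ f (k :: i) t / A (i.length + 1) := by
      intro i k
      have h1 := neg_abs_le (f (k :: i) t / A (k :: i).length)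
      have h2 := hFabs (k :: i)
      simp only [List.length_cons] at h1 h2
      have h3 : ε / (16 * D) * μ (i.length + 1) * r (i.length + 1) = ε / 16 * μ i.length * r i.length := by
        have h4 := μ_succ h i.length
        calc ε / (16 * D) * μ (i.length + 1) * r (i.length + 1)
            = ε / (16 * D) * (μ (i.length + 1) * r (i.length + 1)) := by ring
          _ = ε / (16 * D) * (D * (μ i.length * r i.length)) := by rw [h4]
          _ = _ := by field_simp
      linarith
    have hκ1' : ∀ n, K - ε / 16 * μ n ≤ κ n := by
      intro n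
      have h1 := h.hκ1 n
      have h2 := mul_le_mul_of_nonneg_right hδε (h.μ_pos n).le
      linarith
    have hv2 : ∀ i, i.length ≤ N → α * prev (fun m => w m t) i ^ 2 ≤ w i t + b + c * μ i.length := by
      intro i hm
      cases i with
      | nil =>
        simp only [prev]
        have h1 := hw0 []
        have h2 := mul_pos hc (h.μ_pos 0)
        simp only [List.length_nil]
        nlinarith [mul_nonneg hα.le (sq_nonneg η)]
      | cons k i =>
        simp only [prev, List.length_cons]
        simp only [List.length_cons] at hm
        have h1 := hLo i (by omega) k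
        have h2 := mul_le_mul_of_nonneg_left (μ_mono h i.length) hc.le
        linarith
    have caseT : ∀ i : List (Fin M), i.length ≤ N → w i t = 1 → Dv i t < 0 := by
      intro i hi hy
      have hav : α - b - c * μ i.length ≤ avg (fun m => w m t) i := by
        apply le_avg hM
        intro k
        have hL := hLo i hi k
        rw [hy] at hL
        linarith
      have hav0 : -η ≤ avg (fun m => w m t) i := le_avg hM fun k => hw0 _
      have hav1 : avg (fun m => w m t) i ≤ 1 := avg_le hM fun k => hw1 _
      have key := algS_T hReg (F := f i t / A i.length) (v := prev (fun m => w m t) i)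
        (ω := avg (fun m => w m t) i) (h.μ_pos _) (h.r_pos _) (hκ1' _) (h.hκK _) hav0 hav1
        hav (hpsq i) (hF1 i)
      rw [hDm i hi, hy]
      exact key
    rcases o with _ | _ | k
    · -- w j = 1
      simp only [φ] at hzero
      simp only [φ']
      have := caseT j hj (by linarith)
      linarith
    · -- upper constraint
      simp only [φ] at hzero
      simp only [φ']
      cases j with
      | nil =>
        simp only [prev] at hzero ⊢
        have hy : w [] t = 1 - q := by linarith
        have hav0 : -η ≤ avg (fun m => w m t) [] := le_avg hM fun k => hw0 _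
        have havL : α * (1 - q) ^ 2 - b - c * μ 0 ≤ avg (fun m => w m t) [] := by
          apply le_avg hM
          intro k
          have hL := hLo [] hj k
          rw [hy] at hL
          simpa using hL
        have key := algS_U0 hReg (F := f [] t / A 0) (ω := avg (fun m => w m t) []) (h.μ_pos 0)
          (h.r_pos 0) (h.κ_nonneg 0) (h.hκK 0) hav0 havL (hF1 [])
        rw [hDm [] hj, hy]
        simp only [prev, List.length_nil]
        linarith
      | cons k i =>
        simp only [prev] at hzero ⊢
        rcases hq.eq_or_lt with hq0 | hq0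
        · -- q = 0: w = 1
          have hy : w (k :: i) t = 1 := by rw [← hq0] at hzero; linarith
          have := caseT (k :: i) hj hy
          rw [← hq0]
          linarith
        · simp only [List.length_cons] at hj
          have hz : w (k :: i) t = 1 - q * (1 - w i t) := by linarith
          have hzz : avg (fun m => w m t) i ≤ w (k :: i) t := by
            rw [hz]
            apply avg_le hM
            intro k'
            have := hUp (k' :: i) (by simpa using hj)
            simpa only [prev] using this
          have hz' : -η ≤ avg (fun m => w m t) i := le_avg hM fun k => hw0 _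
          have hω1 : avg (fun m => w m t) (k :: i) ≤ 1 := avg_le hM fun k => hw1 _
          have hωL : α * w (k :: i) t ^ 2 - b - c * μ (i.length + 1) ≤
              avg (fun m => w m t) (k :: i) := by
            apply le_avg hM
            intro k'
            have := hLo (k :: i) (by simpa using hj) k'
            simpa using this
          have key := algS_U hReg hq0 (F := f i t / A i.length)
            (F₁ := f (k :: i) t / A (i.length + 1))
            (v := prev (fun m => w m t) i) (y := w i t) (z := w (k :: i) t)
            (z' := avg (fun m => w m t) i) (ω := avg (fun m => w m t) (k :: i))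
            (h.μ_pos i.length) (h.r_pos i.length) (h.hR i.length) (h.hR4 i.length)
            (μ_succ h i.length) (h.κ_nonneg _) (h.hκK i.length) (h.hκ2 i.length)
            (h.hκK (i.length + 1)) (hw0 _) (hw1 _) hz hz' hzz hω1 hωL
            (hp1 i) (hUp i (by omega)) (hFm i) (hFδ (k :: i))
          rw [hDm i (by omega), hDm (k :: i) (by simpa using hj)]
          simp only [prev, List.length_cons]
          exact key
    · -- lower constraint
      simp only [φ] at hzero
      simp only [φ']
      rcases Nat.lt_or_ge j.length N with hnN | hnN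
      · have hz : w (k :: j) t = α * w j t ^ 2 - b - c * μ j.length := by linarith
        have hzz : w (k :: j) t ≤ avg (fun m => w m t) j := by
          rw [hz]
          exact le_avg hM fun k' => hLo j hj k'
        have hω0 : -η ≤ avg (fun m => w m t) (k :: j) := le_avg hM fun k => hw0 _
        -- w j > 0
        have hy0 : 0 ≤ w j t := by
          by_contra hneg'
          push Not at hneg'
          have h1 : w j t ^ 2 ≤ η ^ 2 := by nlinarith [hw0 j]
          have h2 : α * w j t ^ 2 ≤ α * η ^ 2 := mul_le_mul_of_nonneg_left h1 hα.le
          have h3 : 0 < c * μ j.length := mul_pos hc (h.μ_pos _)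
          have h4 := hw0 (k :: j)
          linarith
        rw [hDm j hj, hDm (k :: j) (by simpa using hnN)]
        simp only [prev, List.length_cons]
        rcases le_total 0 (w (k :: j) t) with hzs | hzs
        · have hω1 : avg (fun m => w m t) (k :: j) ≤ 1 - q * (1 - w (k :: j) t) := by
            apply avg_le hM
            intro k'
            rcases le_or_gt (k' :: k :: j).length N with h2 | h2
            · have := hUp (k' :: k :: j) h2
              simpa only [prev] using this
            · rw [hwz _ h2 t]
              nlinarith [hw1 (k :: j)]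
          exact algS_L hReg (F := f j t / A j.length) (F₁ := f (k :: j) t / A (j.length + 1))
            (v := prev (fun m => w m t) j) (y := w j t) (z := w (k :: j) t)
            (z' := avg (fun m => w m t) j) (ω := avg (fun m => w m t) (k :: j))
            (h.μ_pos _) (h.r_pos _) (h.hR _) (h.hR4 _) (μ_succ h _) (h.κ_nonneg _) (hκ1' _)
            (h.κ_nonneg _) (h.hκK (j.length + 1))
            hy0 (hw1 _) hz hzs (hw1 _) hzz hω1 (hpsq j) (hv2 j hj)
            (hF1 j) (hFm' j k)
        · exact algS_Ln hReg (F := f j t / A j.length) (F₁ := f (k :: j) t / A (j.length + 1))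
            (v := prev (fun m => w m t) j) (y := w j t) (z := w (k :: j) t)
            (z' := avg (fun m => w m t) j) (ω := avg (fun m => w m t) (k :: j))
            (h.μ_pos _) (h.r_pos _) (h.hR _) (h.hR4 _) (μ_succ h _) (h.κ_nonneg _) (h.hκK _)
            (h.κ_nonneg _) (h.hκK (j.length + 1))
            hy0 (hw1 _) hz (hw0 _) hzs hzz hω0 (hpsq j) (hv2 j hj)
            (hF1 j) (hFm' j k)
      · exfalso
        have hnN' : j.length = N := by omega
        have h1 := hwz (k :: j) (by simp only [List.length_cons]; omega) t
        rw [h1] at hzero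
        have h2 : w j t ^ 2 ≤ 1 := sq_le_one' (by linarith [hw0 j]) (hw1 j)
        have h3 : α * w j t ^ 2 ≤ α * 1 := mul_le_mul_of_nonneg_left h2 hα.le
        rw [hnN'] at hzero
        linarith)
  intro j t ht
  rcases le_or_gt j.length N with hn | hn
  · have := hbar (⟨j, hn⟩, none) t ht
    simp only [φ] at this
    have h1 : w j t ≤ 1 := by linarith
    simp only [hw] at h1
    rwa [div_le_one (h.A_pos _)] at h1
  · rw [hX0 j hn t]
    exact (h.A_pos _).le

end Pool.Agent.N167.SG
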