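import Pool.Agent.N167.TR.Def

/-! Statements of the parts of project SG (helper167): data and forces without sign condition. -/

namespace Pool.Agent.N167.SG

open Set TR

/-- Truncation to the interval `[-A, A]`. -/
noncomputable def clamp2 (A x : ℝ) : ℝ := max (-A) (min x A)

/-- SG/1: Galerkin system with clamped field. -/
def S_clamped2 : Prop :=
  ∀ (M : ℕ) (B D ν : ℝ) (f : List (Fin M) → ℝ → ℝ) (x : List (Fin M) → ℝ) (A : ℝ) (N : ℕ)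
    (T : ℝ), 0 < T → 0 ≤ A → (∀ j, ContinuousOn (f j) (Icc 0 T)) →
    ∃ X : List (Fin M) → ℝ → ℝ, (∀ j, N < j.length → ∀ t, X j t = 0) ∧
      (∀ j, j.length ≤ N → X j 0 = x j) ∧
      ∀ j, j.length ≤ N → ∀ t ∈ Icc (0 : ℝ) T,
        HasDerivWithinAt (X j)
          (rhs B D ν (fun i => f i t) (fun i => clamp2 A (X i t)) j) (Icc 0 T) t

/-- SG/2: Galerkin solutions with the energy bound, no sign condition. -/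
def S_gal2 : Prop :=
  S_clamped2 → ∀ (M : ℕ) (B D ν : ℝ) (f : List (Fin M) → ℝ → ℝ) (x : List (Fin M) → ℝ)
    (E G : ℝ) (N : ℕ) (T : ℝ), 0 < B → 1 ≤ D → 0 < ν → 0 < T →
    (∀ j, ContinuousOn (f j) (Icc 0 T)) →
    ∑ n ∈ Finset.range (N + 1), gen n (fun j => x j ^ 2) ≤ E →
    (∀ t ∈ Icc (0 : ℝ) T, ∑ n ∈ Finset.range (N + 1), gen n (fun j => f j t ^ 2) ≤ G) →
    G < ν ^ 2 * E →
    ∃ X : List (Fin M) → ℝ → ℝ, (∀ j, N < j.length → ∀ t, X j t = 0) ∧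
      (∀ j, j.length ≤ N → X j 0 = x j) ∧ SolUpTo B D ν f N T X ∧
      (∀ t ∈ Icc (0 : ℝ) T, ∑ n ∈ Finset.range (N + 1), gen n (fun j => X j t ^ 2) ≤ E)

/-- SG/3: limits of Galerkin solutions, no sign condition. -/
def S_exist2 : Prop :=
  ∀ (M : ℕ) (B D ν : ℝ) (f : List (Fin M) → ℝ → ℝ) (x c d : List (Fin M) → ℝ) (N₀ : ℕ)
    (X : ℕ → List (Fin M) → ℝ → ℝ),
    (∀ j, ContinuousOn (f j) (Ici 0)) →
    (∀ N, N₀ ≤ N → ∀ j, j.length ≤ N → X N j 0 = x j) →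
    (∀ N, N₀ ≤ N → SolUpTo B D ν f N N (X N)) →
    (∀ N, N₀ ≤ N → ∀ j, ∀ t ∈ Icc (0 : ℝ) N, d j ≤ X N j t ∧ X N j t ≤ c j) →
    ∃ Y : List (Fin M) → ℝ → ℝ, IsSol B D ν f x Y ∧
      ∀ j, ∀ t, 0 ≤ t → d j ≤ Y j t ∧ Y j t ≤ c j

/-- SG/4: lower bounds for the Galerkin solutions on the generations `≥ n₀`. -/
def S_neg : Prop :=
  ∀ (M : ℕ) (B D ν : ℝ) (f : List (Fin M) → ℝ → ℝ) (F m : ℕ → ℝ) (n₀ N : ℕ) (T : ℝ)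
    (X : List (Fin M) → ℝ → ℝ), 0 < B → 1 ≤ D → 0 < ν → 0 ≤ T →
    (∀ n, 0 ≤ m n) →
    (∀ n, n₀ ≤ n → 2 * F n ≤ ν * D ^ n * m n) →
    (∀ n, n₀ ≤ n → 2 * (B ^ n * (M * m (n + 1))) ≤ ν * D ^ n) →
    (∀ j, ∀ t ∈ Icc (0 : ℝ) T, |f j t| ≤ F j.length) →
    SolUpTo B D ν f N T X → (∀ j, N < j.length → ∀ t, X j t = 0) →
    (∀ j, j.length ≤ N → - m j.length ≤ X j 0) →
    ∀ j, n₀ ≤ j.length → ∀ t ∈ Icc (0 : ℝ) T, - m j.length ≤ X j t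

/-- SG/5: rapid decrease, no sign condition. -/
def S_smooth2 : Prop :=
  ∀ (M : ℕ) (B D ν θ : ℝ) (F A m y : ℕ → ℝ) (N₀ : ℕ) (f : List (Fin M) → ℝ → ℝ)
    (x : List (Fin M) → ℝ) (X : List (Fin M) → ℝ → ℝ), 0 < M → 0 < B → 1 < D → 0 < ν → θ < 1 →
    Rapid F → (∀ j, ∀ t, 0 ≤ t → |f j t| ≤ F j.length) → IsSol B D ν f x X →
    (∀ j, ∀ t, 0 ≤ t → X j t ≤ A j.length) →
    Rapid m → (∀ j, ∀ t, 0 ≤ t → - m j.length ≤ X j t) →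
    (∀ n, N₀ ≤ n → B / D * (B ^ n * A n) ≤ θ * (ν * D ^ (n + 1))) →
    Rapid y → (∀ j, x j ≤ y j.length) →
    ∃ a : ℕ → ℝ, Rapid a ∧ ∀ j, ∀ t, 0 ≤ t → |X j t| ≤ a j.length

/-- SG/6: uniqueness, no sign condition. -/
def S_uniq2 : Prop :=
  ∀ (M : ℕ) (B D ν : ℝ) (F a : ℕ → ℝ) (f : List (Fin M) → ℝ → ℝ)
    (x : List (Fin M) → ℝ) (X Z : List (Fin M) → ℝ → ℝ), 0 < M → 0 < B → 1 < D → 0 < ν →
    Rapid F → (∀ j, ∀ t, 0 ≤ t → |f j t| ≤ F j.length) →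
    IsSol B D ν f x X → Rapid a → (∀ j, ∀ t, 0 ≤ t → |X j t| ≤ a j.length) →
    IsSol B D ν f x Z →
    (∀ T : ℝ, ∃ C : ℝ, ∀ (j : List (Fin M)) (k : Fin M), ∀ t ∈ Icc (0 : ℝ) T,
      - C ≤ B ^ j.length * Z (k :: j) t) →
    ∀ j, ∀ t, 0 ≤ t → Z j t = X j t

end Pool.Agent.N167.SG
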