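import Pool.Agent.N167.SG.StartS
import Pool.Agent.N167.SG.Region
import Pool.Agent.N167.SG.Stm
import Pool.Agent.N457.SG.Clamped2
import Pool.Agent.N222.SG.Gal2
import Pool.Agent.N222.SG.Neg
import Pool.Agent.N364.SG3
import Pool.Agent.N26.SG.Smooth2
import Pool.Agent.N157.SG.Uniq2

namespace Pool.Agent.N167.SG

open Set Filter TR

variable {M : ℕ}

/-- The forces without sign condition: continuous in time, bounded by a rapidly decreasing
function `F` of the generation. -/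
def ForceS (F : ℕ → ℝ) (f : List (Fin M) → ℝ → ℝ) : Prop :=
  Rapid F ∧ (∀ j, ContinuousOn (f j) (Ici 0)) ∧ ∀ j, ∀ t, 0 ≤ t → |f j t| ≤ F j.length

theorem FS_nonneg (hM : 0 < M) {F : ℕ → ℝ} {f : List (Fin M) → ℝ → ℝ} (hf : ForceS F f) (n : ℕ) :
    0 ≤ F n := by
  obtain ⟨j, hj⟩ := node_exists hM n
  have := hf.2.2 j 0 le_rfl
  rw [hj] at this
  exact le_trans (abs_nonneg _) this

theorem y_nonneg (hM : 0 < M) {y : ℕ → ℝ} {x : List (Fin M) → ℝ} (h : ∀ j, |x j| ≤ y j.length)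
    (n : ℕ) : 0 ≤ y n := by
  obtain ⟨j, hj⟩ := node_exists hM n
  have := h j
  rw [hj] at this
  exact le_trans (abs_nonneg _) this

theorem rapid_finite (n₀ : ℕ) {e : ℝ} (he : 0 ≤ e) :
    Rapid fun n => if n < n₀ then e else 0 := by
  intro s hs
  refine ⟨∑ i ∈ Finset.range n₀, s ^ i * e, fun n => ?_⟩
  by_cases h : n < n₀
  · simp only [h, if_true]
    exact Finset.single_le_sum (f := fun i => s ^ i * e) (fun i _ => by positivity)
      (Finset.mem_range.2 h)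
  · simp only [h, if_false, mul_zero]
    exact Finset.sum_nonneg fun i _ => by positivity

/-- The bound for the negative parts. -/
theorem neg_bound {B D ν e : ℝ} (hM : 0 < M) (hB : 0 < B) (hD : 1 < D) (hν : 0 < ν)
    {y F : ℕ → ℝ} (hy : Rapid y) (hF : Rapid F) (hy0 : ∀ n, 0 ≤ y n) (hF0 : ∀ n, 0 ≤ F n)
    (he : 0 ≤ e) :
    ∃ (m : ℕ → ℝ) (n₀ : ℕ), (∀ n, 0 ≤ m n) ∧ Rapid m ∧ (∀ n, y n ≤ m n) ∧
      (∀ n, n₀ ≤ n → 2 * F n ≤ ν * D ^ n * m n) ∧
      (∀ n, n₀ ≤ n → 2 * (B ^ n * (M * m (n + 1))) ≤ ν * D ^ n) ∧ ∀ n, n < n₀ → e ≤ m n := by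
  have hM' : (0:ℝ) < M := by exact_mod_cast hM
  have hD0 : 0 < D := by linarith
  set m0 : ℕ → ℝ := fun n => y n + 2 / ν * F n with hm0
  have hm0r : Rapid m0 := rapid_add hy (rapid_mul hF (by positivity))
  obtain ⟨n₀, hn₀⟩ := small_of_rapid hm0r (show (0:ℝ) < D / B by positivity) (ν * B / (2 * M * D))
    (by positivity)
  have hm00 : ∀ n, 0 ≤ m0 n := fun n => by
    have := hy0 n; have := hF0 n; simp only [hm0]; positivity
  refine ⟨fun n => m0 n + if n < n₀ then e else 0, n₀, ?_, ?_, ?_, ?_, ?_, ?_⟩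
  · intro n
    have h1 : 0 ≤ if n < n₀ then e else 0 := by split_ifs <;> simp [he]
    have := hm00 n
    positivity
  · exact rapid_add hm0r (rapid_finite n₀ he)
  · intro n
    have h1 : 0 ≤ if n < n₀ then e else 0 := by split_ifs <;> simp [he]
    have h2 : 0 ≤ 2 / ν * F n := by have := hF0 n; positivity
    simp only [hm0]
    linarith
  · intro n hn
    have h0 : ¬ n < n₀ := by omega
    simp only [h0, if_false, add_zero]
    have h1 : (1:ℝ) ≤ D ^ n := one_le_pow₀ hD.le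
    have h2 : 2 * F n ≤ ν * m0 n := by
      have e1 : ν * m0 n = ν * y n + 2 * F n := by simp only [hm0]; field_simp
      have h3 : 0 ≤ ν * y n := by have := hy0 n; positivity
      linarith
    have h4 : ν * m0 n ≤ ν * D ^ n * m0 n := by
      have h5 := hm00 n
      have h6 : 0 ≤ ν * m0 n := by positivity
      nlinarith
    linarith
  · intro n hn
    have h0 : ¬ n + 1 < n₀ := by omega
    simp only [h0, if_false, add_zero]
    have h1 := hn₀ (n + 1) (by omega)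
    have h2 : 2 * (B ^ n * (M * m0 (n + 1)))
        ≤ 2 * (B ^ n * (M * (ν * B / (2 * M * D) * (D / B) ^ (n + 1)))) := by
      apply mul_le_mul_of_nonneg_left _ (by norm_num)
      apply mul_le_mul_of_nonneg_left _ (by positivity)
      exact mul_le_mul_of_nonneg_left h1 hM'.le
    have e : 2 * (B ^ n * (M * (ν * B / (2 * M * D) * (D / B) ^ (n + 1)))) = ν * D ^ n := by
      rw [div_pow, pow_succ, pow_succ]
      field_simp
    rw [e] at h2
    exact h2
  · intro n hn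
    simp only [hn, if_true]
    have := hm00 n
    linarith

theorem gen_nonneg (n : ℕ) {g : List (Fin M) → ℝ} (hg : ∀ j, 0 ≤ g j) : 0 ≤ gen n g := by
  rw [N247.TR.gen_eq]
  exact Finset.sum_nonneg fun j _ => hg j

theorem abs_le_sqrt_of_energy {E : ℝ} {X : List (Fin M) → ℝ} {N : ℕ}
    (h : ∑ n ∈ Finset.range (N + 1), gen n (fun j => X j ^ 2) ≤ E) (j : List (Fin M))
    (hj : j.length ≤ N) : |X j| ≤ Real.sqrt E := by
  have hg := N247.TR.main M
  apply Real.abs_le_sqrt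
  have h1 : X j ^ 2 ≤ gen j.length (fun j => X j ^ 2) :=
    hg.2.2.2.1 j.length (fun j => X j ^ 2) j (fun i => sq_nonneg _) rfl
  have h2 : gen j.length (fun j => X j ^ 2) ≤
      ∑ n ∈ Finset.range (N + 1), gen n (fun j => X j ^ 2) :=
    Finset.single_le_sum (f := fun n => gen n (fun j => X j ^ 2))
      (fun n _ => gen_nonneg n fun j => sq_nonneg _) (Finset.mem_range.2 (by omega))
  linarith

/-- Existence of a smooth solution, arbitrary signs. -/
theorem exist_of_startS (hM : 0 < M) {B D ν : ℝ} (hB : 0 < B) (hD : 1 < D) (hν : 0 < ν)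
    {y F : ℕ → ℝ} {f : List (Fin M) → ℝ → ℝ} {x : List (Fin M) → ℝ} (hf : ForceS F f)
    (hy : Rapid y) (hxy : ∀ j, |x j| ≤ y j.length)
    (hS : ∀ m : ℕ → ℝ, (∀ n, 0 ≤ m n) → Rapid m → StartS M B D ν y m F) :
    ∃ X : List (Fin M) → ℝ → ℝ, IsSol B D ν f x X ∧
      ∃ a : ℕ → ℝ, Rapid a ∧ ∀ j, ∀ t, 0 ≤ t → |X j t| ≤ a j.length := by
  have hy0 := y_nonneg hM hxy
  have hF0 := FS_nonneg hM hf
  obtain ⟨Gx, hGx0, hGx⟩ := N157.SG.rapid_sum hy hy0 hM
  obtain ⟨Gf, hGf0, hGf⟩ := N157.SG.rapid_sum hf.1 hF0 hM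
  set E : ℝ := Gx + Gf / ν ^ 2 + 1 with hE
  have hE0 : 0 ≤ E := by positivity
  obtain ⟨m, n₀, hm0, hmr, hym, hm1, hm2, hm3⟩ :=
    neg_bound hM hB hD hν hy hf.1 hy0 hF0 (Real.sqrt_nonneg E)
  obtain ⟨K, s₀, α, b, q, c, ε, η, m₀, A, κ, μ, r, N₀, hReg, hAmp, hm₀0, hm₀1, hm₀2, hηm, hN₀, hθA,
    hyA, hFA, hmA⟩ := hS m hm0 hmr
  have hgal : ∀ N : ℕ, max N₀ 1 ≤ N → ∃ X : List (Fin M) → ℝ → ℝ,
      (∀ j, j.length ≤ N → X j 0 = x j) ∧ SolUpTo B D ν f N N X ∧
      ∀ j, ∀ t ∈ Icc (0 : ℝ) N, -m j.length ≤ X j t ∧ X j t ≤ A j.length := by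
    intro N hN
    have hN1 : 1 ≤ N := le_trans (le_max_right _ _) hN
    have hTpos : (0:ℝ) < N := by exact_mod_cast hN1
    obtain ⟨X, h1, h2, h3, h4⟩ := N222.SG.t_gal2 N457.SG.t_clamped2 M B D ν f x E Gf N N hB hD.le
      hν hTpos (fun j => (hf.2.1 j).mono fun t ht => ht.1)
      (by
        have h5 := hGx N x hxy
        simp only [← N247.TR.gen_eq] at h5
        have h6 : 0 ≤ Gf / ν ^ 2 := by positivity
        linarith)
      (by
        intro t ht
        have h5 := hGf N (fun j => f j t) (fun j => hf.2.2 j t ht.1)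
        simp only [← N247.TR.gen_eq] at h5
        exact h5)
      (by
        have h5 : ν ^ 2 * E = ν ^ 2 * (Gx + 1) + Gf := by rw [hE]; field_simp; ring
        rw [h5]
        have h6 : 0 < ν ^ 2 * (Gx + 1) := by positivity
        linarith)
    have hlow : ∀ j, ∀ t ∈ Icc (0 : ℝ) N, -m j.length ≤ X j t := by
      intro j t ht
      rcases le_or_gt n₀ j.length with hj | hj
      · refine N222.SG.t_neg M B D ν f F m n₀ N N X hB hD.le hν (Nat.cast_nonneg N) hm0 hm1 hm2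
          (fun j t ht => hf.2.2 j t ht.1) h3 h1 ?_ j hj t ht
        intro i hi
        rw [h2 i hi]
        have := neg_abs_le (x i)
        have := hxy i
        have := hym i.length
        linarith
      · rcases le_or_gt j.length N with hjN | hjN
        · have h5 := abs_le_sqrt_of_energy (h4 t ht) j hjN
          have h6 := neg_abs_le (X j t)
          have h7 := hm3 j.length hj
          linarith
        · rw [h1 j hjN t]
          have := hm0 j.length
          linarith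
    refine ⟨X, h2, h3, fun j t ht => ⟨hlow j t ht, ?_⟩⟩
    refine region2 hM hReg hAmp (Nat.cast_nonneg N) (hN₀ N (le_trans (le_max_left _ _) hN)) hm₀0
      hm₀1 hm₀2 hηm ?_ (fun i s hs => le_trans (hf.2.2 i s hs.1) (hFA _)) h1 ?_ h3 j t ht
    · intro i
      rcases le_or_gt i.length N with hi | hi
      · rw [h2 i hi]
        have := le_abs_self (x i)
        have := hxy i
        have := hyA i.length
        linarith
      · rw [h1 i hi]; exact mul_nonneg hm₀0 (hAmp.A_pos _).le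
    · intro i s hs
      have := hlow i s hs
      have := hmA i.length
      linarith
  choose! X hX using hgal
  obtain ⟨S, hSsol, hSb⟩ := N364.SG3.t_exist2 M B D ν f x (fun j => A j.length)
    (fun j => -m j.length) (max N₀ 1) X hf.2.1 (fun N hN => (hX N hN).1)
    (fun N hN => (hX N hN).2.1) (fun N hN j t ht => (hX N hN).2.2 j t ht)
  obtain ⟨a, ha, hab⟩ := N26.SG.smooth2 M B D ν (1/2) F A m y N₀ f x S hM hB hD hν (by norm_num)
    hf.1 hf.2.2 hSsol (fun j t ht => (hSb j t ht).2) hmr (fun j t ht => (hSb j t ht).1) hθA hy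
    (fun j => le_trans (le_abs_self _) (hxy j))
  exact ⟨S, hSsol, a, ha, hab⟩

/-- Smooth data and forces of arbitrary sign. -/
theorem signed_case (hM : 0 < M) {B D ν : ℝ} (hB : 0 < B) (hD : 1 < D) (hν : 0 < ν)
    (hc : (4 ≤ D ∧ B ^ 2 ≤ M * D ^ 3) ∨ (D ≤ 4 ∧ 10 * B ^ 2 < M * D ^ 4))
    {y F : ℕ → ℝ} {f : List (Fin M) → ℝ → ℝ} {x : List (Fin M) → ℝ} (hf : ForceS F f)
    (hy : Rapid y) (hxy : ∀ j, |x j| ≤ y j.length) :
    ∃ X : List (Fin M) → ℝ → ℝ, IsSol B D ν f x X ∧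
      (∃ a : ℕ → ℝ, Rapid a ∧ ∀ j, ∀ t, 0 ≤ t → |X j t| ≤ a j.length) ∧
      ∀ Z : List (Fin M) → ℝ → ℝ, IsSol B D ν f x Z →
        (∀ T : ℝ, ∃ C : ℝ, ∀ (j : List (Fin M)) (k : Fin M), ∀ t ∈ Icc (0 : ℝ) T,
          - C ≤ B ^ j.length * Z (k :: j) t) →
        ∀ j, ∀ t, 0 ≤ t → Z j t = X j t := by
  obtain ⟨X, hX, a, ha, hab⟩ := exist_of_startS hM hB hD hν hf hy hxy fun m hm hmr =>
    startS_smooth hM hB hν hD hc (y_nonneg hM hxy) hm (FS_nonneg hM hf) hy hmr hf.1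
  exact ⟨X, hX, ⟨a, ha, hab⟩, fun Z hZ hZb => N157.SG.uniq2 M B D ν F a f x X Z hM hB hD hν hf.1
    hf.2.2 hX ha hab hZ hZb⟩

end Pool.Agent.N167.SG
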