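import Pool.Agent.N167.TR.Reg

namespace Pool.Agent.N167.SG

open TR

/-- The region inequalities with a margin `η` for negative values. -/
structure RegS (D K s₀ α b q c ε η : ℝ) : Prop where
  base : Reg D K s₀ α b q c ε
  hη : 0 < η
  hη1 : η ≤ 1
  hKη : K * η ≤ ε
  hKc2 : K * c + 2 * ε ≤ 1
  hηb : α * η ^ 2 + η < b
  hqη : q * (1 + η) ≤ 1
  hηq : η * (1 + q) ≤ 1 - q
  h0 : 2 * K * η * c ≤ α * (1 - q) ^ 2 - b
  hLn : ∀ R μ y z V : ℝ, s₀ * D ≤ R → R ≤ D → 0 < μ → 0 ≤ y → y ≤ 1 →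
    z = α * y ^ 2 - b - c * μ → -η ≤ z → z ≤ 0 → 0 ≤ V → V ≤ 1 → α * V ≤ y + b + c * μ →
    ε * μ ≤ R * (y ^ 2 - K * η ^ 2) - 2 * α * y * (V + K * y * η - μ * y)
  hUn : 0 < q → ∀ R μ y z ω : ℝ, s₀ * D ≤ R → R ≤ D → 0 < μ → -η ≤ y → y ≤ 0 →
    z = 1 - q * (1 - y) → R * (α * z ^ 2 - b) - D * c * μ ≤ R * ω →
    ε * μ ≤ - (R * y ^ 2) + K * z * (R * ω) + D * μ * z - q * K * η ^ 2

theorem κω_ge {K ε μ κ ω : ℝ} (hμ : 0 < μ) (hε : 0 < ε) (hκ : K - ε * μ ≤ κ) (hκK : κ ≤ K)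
    (hω1 : ω ≤ 1) : K * ω - ε * μ ≤ κ * ω := by
  rcases le_total 0 ω with h | h
  · have h1 := mul_le_mul_of_nonneg_right hκ h
    have h2 : ε * μ * ω ≤ ε * μ * 1 := mul_le_mul_of_nonneg_left hω1 (by positivity)
    nlinarith
  · have h1 := mul_le_mul_of_nonpos_right hκK h
    have h2 : 0 < ε * μ := by positivity
    linarith

theorem sq_le_one' {v : ℝ} (h1 : -1 ≤ v) (h2 : v ≤ 1) : v ^ 2 ≤ 1 := by nlinarith

theorem algS_T {D K s₀ α b q c ε η : ℝ} (h : RegS D K s₀ α b q c ε η) {μ r κ ω v F : ℝ}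
    (hμ : 0 < μ) (hr : 0 < r) (hκ : K - ε / 16 * μ ≤ κ) (hκK : κ ≤ K) (hω : -η ≤ ω) (hω1 : ω ≤ 1)
    (hL : α - b - c * μ ≤ ω) (hv : v ^ 2 ≤ 1) (hF : F ≤ ε / 16 * μ * r) :
    F + r * (v ^ 2 - κ * 1 * ω - μ * 1) < 0 := by
  have hK := h.base.hK
  have hε := h.base.hε
  have hc := h.base.hc
  have hεμ : 0 < ε * μ := mul_pos hε hμ
  have key : 1 + ε * μ ≤ K * ω + μ := by
    rcases le_total (c * μ) (α - b) with h1 | h1
    · have h2 : K * (α - b - c * μ) ≤ K * ω := mul_le_mul_of_nonneg_left hL (by linarith)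
      have h3 : (K * c + ε) * μ ≤ 1 * μ := mul_le_mul_of_nonneg_right h.base.hKc hμ.le
      have h4 := h.base.hT
      nlinarith
    · have h2 : K * (α - b) ≤ K * (c * μ) := mul_le_mul_of_nonneg_left h1 (by linarith)
      have h3 : (K * c + 2 * ε) * μ ≤ 1 * μ := mul_le_mul_of_nonneg_right h.hKc2 hμ.le
      have h4 := h.base.hT
      have h5 : K * (-η) ≤ K * ω := mul_le_mul_of_nonneg_left hω (by linarith)
      have h6 := h.hKη
      -- μ (1 - 2ε) ≥ 1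
      have h7 : 1 + 2 * ε * μ ≤ μ := by nlinarith
      have h8 : 1 ≤ μ := by nlinarith
      have h9 : ε * 1 ≤ ε * μ := mul_le_mul_of_nonneg_left h8 hε.le
      nlinarith
  have h6 : K * ω - ε / 16 * μ ≤ κ * ω := κω_ge hμ (by positivity) hκ hκK hω1
  have h8 : v ^ 2 - κ * 1 * ω - μ * 1 ≤ - (15 / 16 * (ε * μ)) := by nlinarith
  have h9 : r * (v ^ 2 - κ * 1 * ω - μ * 1) ≤ r * (- (15 / 16 * (ε * μ))) :=
    mul_le_mul_of_nonneg_left h8 hr.le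
  have h10 : 0 < r * (ε * μ) := mul_pos hr hεμ
  nlinarith

theorem ratio {D s₀ r r₁ : ℝ} (hr : 0 < r) (hR : s₀ * D * r ≤ r₁) (hR4 : r₁ ≤ D * r) :
    ∃ R, r₁ = R * r ∧ s₀ * D ≤ R ∧ R ≤ D := by
  refine ⟨r₁ / r, by field_simp, ?_, ?_⟩
  · rw [le_div_iff₀ hr]; exact hR
  · rw [div_le_iff₀ hr]; exact hR4

theorem yF {ε μ r y F : ℝ} (hy : 0 ≤ y) (hy1 : y ≤ 1) (hp : 0 ≤ ε / 16 * μ * r)
    (hF : F ≤ ε / 16 * μ * r) : y * F ≤ ε / 16 * μ * r := by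
  rcases le_total F 0 with h0 | h0
  · have : y * F ≤ 0 := mul_nonpos_of_nonneg_of_nonpos hy h0
    linarith
  · calc y * F ≤ 1 * F := mul_le_mul_of_nonneg_right hy1 h0
      _ ≤ _ := by linarith

theorem algS_L {D K s₀ α b q c ε η : ℝ} (h : RegS D K s₀ α b q c ε η)
    {μ r κ r₁ κ₁ μ₁ y z z' ω v F F₁ : ℝ}
    (hμ : 0 < μ) (hr : 0 < r) (hR : s₀ * D * r ≤ r₁) (hR4 : r₁ ≤ D * r)
    (hμ₁ : μ₁ * r₁ = D * (μ * r)) (hκ0 : 0 ≤ κ)
    (hκ : K - ε / 16 * μ ≤ κ) (hκ₁0 : 0 ≤ κ₁) (hκ₁ : κ₁ ≤ K) (hy : 0 ≤ y) (hy1 : y ≤ 1)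
    (hz : z = α * y ^ 2 - b - c * μ) (hz0 : 0 ≤ z) (hz1 : z ≤ 1) (hzz : z ≤ z')
    (hω1 : ω ≤ 1 - q * (1 - z)) (hv : v ^ 2 ≤ 1) (hv2 : α * v ^ 2 ≤ y + b + c * μ)
    (hF : F ≤ ε / 16 * μ * r) (hF₁ : -(ε / 16 * μ * r) ≤ F₁) :
    0 < F₁ + r₁ * (y ^ 2 - κ₁ * z * ω - μ₁ * z)
      - 2 * α * y * (F + r * (v ^ 2 - κ * y * z' - μ * y)) := by
  have hε := h.base.hε
  have hα := h.base.hα
  have hα3 := h.base.hα3
  have hD := h.base.hD
  have hs0 := h.base.hs₀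
  have hq := h.base.hq
  have hq1 := h.base.hq1
  obtain ⟨R, hRr, hR1, hR2⟩ := ratio hr hR hR4
  have hR0 : 0 ≤ R := le_trans (by positivity) hR1
  have hωp : max ω 0 ≤ 1 - q * (1 - z) := max_le hω1 (by nlinarith)
  have main := h.base.hL R μ y z (max ω 0) (v ^ 2) hR1 hR2 hμ hy hy1 hz hz0 (le_max_right _ _) hωp
    (sq_nonneg v) hv hv2
  have e1 : κ₁ * (z * ω) ≤ K * (z * max ω 0) := by
    have h1 : z * ω ≤ z * max ω 0 := mul_le_mul_of_nonneg_left (le_max_left _ _) hz0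
    have h2 : 0 ≤ z * max ω 0 := mul_nonneg hz0 (le_max_right _ _)
    calc κ₁ * (z * ω) ≤ κ₁ * (z * max ω 0) := mul_le_mul_of_nonneg_left h1 hκ₁0
      _ ≤ K * (z * max ω 0) := mul_le_mul_of_nonneg_right hκ₁ h2
  have e2 : R * (κ₁ * (z * ω)) ≤ R * (K * (z * max ω 0)) := mul_le_mul_of_nonneg_left e1 hR0
  have hyy : 0 ≤ y * (y * z) := mul_nonneg hy (mul_nonneg hy hz0)
  have hyy1 : y * (y * z) ≤ 1 := by
    have h1 : y * z ≤ 1 * 1 := mul_le_mul hy1 hz1 hz0 (by norm_num)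
    have h2 : y * (y * z) ≤ 1 * 1 := mul_le_mul hy1 (by linarith) (mul_nonneg hy hz0) (by norm_num)
    linarith
  have e3 : (K - ε / 16 * μ) * (y * (y * z)) ≤ κ * (y * (y * z)) :=
    mul_le_mul_of_nonneg_right hκ hyy
  have e3' : κ * (y * (y * z)) ≤ κ * (y * (y * z')) := by
    apply mul_le_mul_of_nonneg_left _ hκ0
    apply mul_le_mul_of_nonneg_left _ hy
    exact mul_le_mul_of_nonneg_left hzz hy
  have hεμ : 0 < ε * μ := mul_pos hε hμ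
  have e4 : ε / 16 * μ * (y * (y * z)) ≤ ε / 16 * μ * 1 :=
    mul_le_mul_of_nonneg_left hyy1 (by positivity)
  have e5 : K * (y * (y * z)) - ε / 16 * μ ≤ κ * (y * (y * z')) := by
    have : (K - ε / 16 * μ) * (y * (y * z)) = K * (y * (y * z)) - ε / 16 * μ * (y * (y * z)) := by
      ring
    linarith
  have e6 : 2 * α * (K * (y * (y * z)) - ε / 16 * μ) ≤ 2 * α * (κ * (y * (y * z'))) :=
    mul_le_mul_of_nonneg_left e5 (by positivity)
  have e7 : 2 * α * (ε / 16 * μ) ≤ 6 * (ε / 16 * μ) :=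
    mul_le_mul_of_nonneg_right (by linarith) (by positivity)
  have e8 : 10 / 16 * (ε * μ) ≤ R * (y ^ 2 - κ₁ * z * ω) - D * μ * z
      - 2 * α * y * (v ^ 2 - κ * y * z' - μ * y) := by
    have i1 : R * (y ^ 2 - K * z * max ω 0) = R * y ^ 2 - R * (K * (z * max ω 0)) := by ring
    have i2 : R * (y ^ 2 - κ₁ * z * ω) = R * y ^ 2 - R * (κ₁ * (z * ω)) := by ring
    have i3 : 2 * α * y * (v ^ 2 - K * y * z - μ * y)
        = 2 * α * y * (v ^ 2 - μ * y) - 2 * α * (K * (y * (y * z))) := by ring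
    have i4 : 2 * α * y * (v ^ 2 - κ * y * z' - μ * y)
        = 2 * α * y * (v ^ 2 - μ * y) - 2 * α * (κ * (y * (y * z'))) := by ring
    rw [i1, i3] at main
    rw [i2, i4]
    have i5 : 2 * α * (K * (y * (y * z)) - ε / 16 * μ)
      = 2 * α * (K * (y * (y * z))) - 2 * α * (ε / 16 * μ) := by ring
    linarith
  have e9 : r * (10 / 16 * (ε * μ)) ≤ r * (R * (y ^ 2 - κ₁ * z * ω) - D * μ * z
      - 2 * α * y * (v ^ 2 - κ * y * z' - μ * y)) := mul_le_mul_of_nonneg_left e8 hr.le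
  have hp : 0 ≤ ε / 16 * μ * r := by positivity
  have e10 := yF hy hy1 hp hF
  have e11 : 2 * α * (y * F) ≤ 6 * (ε / 16 * μ * r) := by
    have h1 : 2 * α * (y * F) ≤ 2 * α * (ε / 16 * μ * r) :=
      mul_le_mul_of_nonneg_left e10 (by positivity)
    have h2 : 2 * α * (ε / 16 * μ * r) ≤ 6 * (ε / 16 * μ * r) :=
      mul_le_mul_of_nonneg_right (by linarith) (by positivity)
    linarith
  have e12 : r₁ * (y ^ 2 - κ₁ * z * ω - μ₁ * z)
      = r * (R * (y ^ 2 - κ₁ * z * ω)) - r * (D * μ * z) := by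
    have : r₁ * (y ^ 2 - κ₁ * z * ω - μ₁ * z) = r₁ * (y ^ 2 - κ₁ * z * ω) - (μ₁ * r₁) * z := by ring
    rw [this, hμ₁, hRr]
    ring
  have hrεμ : 0 < r * (ε * μ) := mul_pos hr hεμ
  have e13 : F₁ + r₁ * (y ^ 2 - κ₁ * z * ω - μ₁ * z)
      - 2 * α * y * (F + r * (v ^ 2 - κ * y * z' - μ * y))
      = F₁ - 2 * α * (y * F) + r * (R * (y ^ 2 - κ₁ * z * ω) - D * μ * z
      - 2 * α * y * (v ^ 2 - κ * y * z' - μ * y)) := by
    rw [e12]; ring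
  rw [e13]
  have e14 : r * (10 / 16 * (ε * μ)) = 10 * (ε / 16 * μ * r) := by ring
  have e15 : 0 < ε / 16 * μ * r := by positivity
  linarith

theorem algS_Ln {D K s₀ α b q c ε η : ℝ} (h : RegS D K s₀ α b q c ε η)
    {μ r κ r₁ κ₁ μ₁ y z z' ω v F F₁ : ℝ}
    (hμ : 0 < μ) (hr : 0 < r) (hR : s₀ * D * r ≤ r₁) (hR4 : r₁ ≤ D * r)
    (hμ₁ : μ₁ * r₁ = D * (μ * r)) (hκ0 : 0 ≤ κ) (hκ : κ ≤ K)
    (hκ₁0 : 0 ≤ κ₁) (hκ₁ : κ₁ ≤ K) (hy : 0 ≤ y) (hy1 : y ≤ 1)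
    (hz : z = α * y ^ 2 - b - c * μ) (hzη : -η ≤ z) (hz0 : z ≤ 0) (hzz : z ≤ z') (hω : -η ≤ ω)
    (hv : v ^ 2 ≤ 1) (hv2 : α * v ^ 2 ≤ y + b + c * μ)
    (hF : F ≤ ε / 16 * μ * r) (hF₁ : -(ε / 16 * μ * r) ≤ F₁) :
    0 < F₁ + r₁ * (y ^ 2 - κ₁ * z * ω - μ₁ * z)
      - 2 * α * y * (F + r * (v ^ 2 - κ * y * z' - μ * y)) := by
  have hε := h.base.hε
  have hα := h.base.hα
  have hα3 := h.base.hα3
  have hD := h.base.hD
  have hs0 := h.base.hs₀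
  have hη := h.hη
  have hK := h.base.hK
  obtain ⟨R, hRr, hR1, hR2⟩ := ratio hr hR hR4
  have hR0 : 0 ≤ R := le_trans (by positivity) hR1
  have main := h.hLn R μ y z (v ^ 2) hR1 hR2 hμ hy hy1 hz hzη hz0 (sq_nonneg v) hv hv2
  have e1 : κ₁ * (z * ω) ≤ K * η ^ 2 := by
    rcases le_total 0 ω with h1 | h1
    · have h2 : z * ω ≤ 0 := mul_nonpos_of_nonpos_of_nonneg hz0 h1
      have h3 : κ₁ * (z * ω) ≤ 0 := mul_nonpos_of_nonneg_of_nonpos hκ₁0 h2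
      have h4 : 0 ≤ K * η ^ 2 := by positivity
      linarith
    · have h2 : z * ω ≤ η ^ 2 := by nlinarith
      have h3 : 0 ≤ z * ω := mul_nonneg_of_nonpos_of_nonpos hz0 h1
      calc κ₁ * (z * ω) ≤ K * (z * ω) := mul_le_mul_of_nonneg_right hκ₁ h3
        _ ≤ K * η ^ 2 := mul_le_mul_of_nonneg_left h2 (by linarith)
  have e2 : R * (κ₁ * (z * ω)) ≤ R * (K * η ^ 2) := mul_le_mul_of_nonneg_left e1 hR0
  have e3 : -(K * η * (y * y)) ≤ κ * (y * y) * z' := by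
    have h1 : -η ≤ z' := by linarith
    have h2 : 0 ≤ κ * (y * y) := by positivity
    have h3 : κ * (y * y) * (-η) ≤ κ * (y * y) * z' := mul_le_mul_of_nonneg_left h1 h2
    have h4 : κ * (y * y) ≤ K * (y * y) := mul_le_mul_of_nonneg_right hκ (by positivity)
    have h5 := mul_le_mul_of_nonneg_right h4 hη.le
    linarith
  have e4 := mul_le_mul_of_nonneg_left e3 (by positivity : (0:ℝ) ≤ 2 * α)
  have hεμ : 0 < ε * μ := mul_pos hε hμ
  have e5 : 0 ≤ D * μ * (-z) := mul_nonneg (by positivity) (by linarith)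
  have e8 : ε * μ ≤ R * (y ^ 2 - κ₁ * z * ω) - D * μ * z
      - 2 * α * y * (v ^ 2 - κ * y * z' - μ * y) := by
    have i1 : R * (y ^ 2 - K * η ^ 2) = R * y ^ 2 - R * (K * η ^ 2) := by ring
    have i2 : R * (y ^ 2 - κ₁ * z * ω) = R * y ^ 2 - R * (κ₁ * (z * ω)) := by ring
    have i3 : 2 * α * y * (v ^ 2 + K * y * η - μ * y)
        = 2 * α * y * (v ^ 2 - μ * y) + 2 * α * (K * η * (y * y)) := by ring
    have i4 : 2 * α * y * (v ^ 2 - κ * y * z' - μ * y)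
        = 2 * α * y * (v ^ 2 - μ * y) - 2 * α * (κ * (y * y) * z') := by ring
    rw [i1, i3] at main
    rw [i2, i4]
    linarith
  have e9 : r * (ε * μ) ≤ r * (R * (y ^ 2 - κ₁ * z * ω) - D * μ * z
      - 2 * α * y * (v ^ 2 - κ * y * z' - μ * y)) := mul_le_mul_of_nonneg_left e8 hr.le
  have hp : 0 ≤ ε / 16 * μ * r := by positivity
  have e10 := yF hy hy1 hp hF
  have e11 : 2 * α * (y * F) ≤ 6 * (ε / 16 * μ * r) := by
    have h1 : 2 * α * (y * F) ≤ 2 * α * (ε / 16 * μ * r) :=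
      mul_le_mul_of_nonneg_left e10 (by positivity)
    have h2 : 2 * α * (ε / 16 * μ * r) ≤ 6 * (ε / 16 * μ * r) :=
      mul_le_mul_of_nonneg_right (by linarith) (by positivity)
    linarith
  have e12 : r₁ * (y ^ 2 - κ₁ * z * ω - μ₁ * z)
      = r * (R * (y ^ 2 - κ₁ * z * ω)) - r * (D * μ * z) := by
    have : r₁ * (y ^ 2 - κ₁ * z * ω - μ₁ * z) = r₁ * (y ^ 2 - κ₁ * z * ω) - (μ₁ * r₁) * z := by ring
    rw [this, hμ₁, hRr]
    ring
  have e13 : F₁ + r₁ * (y ^ 2 - κ₁ * z * ω - μ₁ * z)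
      - 2 * α * y * (F + r * (v ^ 2 - κ * y * z' - μ * y))
      = F₁ - 2 * α * (y * F) + r * (R * (y ^ 2 - κ₁ * z * ω) - D * μ * z
      - 2 * α * y * (v ^ 2 - κ * y * z' - μ * y)) := by
    rw [e12]; ring
  rw [e13]
  have e14 : r * (ε * μ) = 16 * (ε / 16 * μ * r) := by ring
  have e15 : 0 < ε / 16 * μ * r := by positivity
  linarith

/-- common part of the two upper cases -/
theorem algS_Ucore {D ε q μ r r₁ μ₁ y z z' ω v F F₁ κ κ₁ K : ℝ} (hD : 1 ≤ D) (hε : 0 < ε)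
    (hq : 0 < q) (hq1 : q < 1) (hμ : 0 < μ) (hr : 0 < r) {R : ℝ} (hRr : r₁ = R * r) (hR0 : 0 ≤ R)
    (hR2 : R ≤ D)
    (hμ₁ : μ₁ * r₁ = D * (μ * r)) (hκ₁ : K - ε / (16 * D) * μ ≤ κ₁) (hκ₁K : κ₁ ≤ K)
    (hz0 : 0 ≤ z) (hz1 : z ≤ 1) (hω1 : ω ≤ 1)
    (main : ε * μ ≤ q * (v ^ 2 - κ * y * z' - μ * y) - R * (y ^ 2 - K * z * ω) + D * μ * z)
    (hF : -(ε / 16 * μ * r) ≤ F) (hF₁ : F₁ ≤ ε / (16 * D) * μ₁ * r₁) :
    0 < q * (F + r * (v ^ 2 - κ * y * z' - μ * y))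
      - (F₁ + r₁ * (y ^ 2 - κ₁ * z * ω - μ₁ * z)) := by
  have hD0 : 0 < D := by linarith
  set δ := ε / (16 * D) with hδ
  have hδ0 : 0 < δ := by positivity
  have hδD : D * δ = ε / 16 := by rw [hδ]; field_simp
  have e3 : K * ω - δ * μ ≤ κ₁ * ω := κω_ge hμ hδ0 hκ₁ hκ₁K hω1
  have e5 : K * (z * ω) - δ * μ ≤ κ₁ * (z * ω) := by
    have h1 := mul_le_mul_of_nonneg_left e3 hz0
    have h2 : z * (δ * μ) ≤ 1 * (δ * μ) := mul_le_mul_of_nonneg_right hz1 (by positivity)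
    have h3 : z * (K * ω - δ * μ) = K * (z * ω) - z * (δ * μ) := by ring
    have h4 : z * (κ₁ * ω) = κ₁ * (z * ω) := by ring
    linarith
  have e6 : R * (K * (z * ω) - δ * μ) ≤ R * (κ₁ * (z * ω)) := mul_le_mul_of_nonneg_left e5 hR0
  have e7 : R * (δ * μ) ≤ ε / 16 * μ := by
    have : R * (δ * μ) ≤ D * (δ * μ) := mul_le_mul_of_nonneg_right hR2 (by positivity)
    have e : D * (δ * μ) = ε / 16 * μ := by rw [← hδD]; ring
    linarith
  have e8 : 15 / 16 * (ε * μ) ≤ q * (v ^ 2 - κ * y * z' - μ * y) - R * (y ^ 2 - κ₁ * z * ω)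
      + D * μ * z := by
    have i1 : R * (y ^ 2 - K * z * ω) = R * y ^ 2 - R * (K * (z * ω)) := by ring
    have i2 : R * (y ^ 2 - κ₁ * z * ω) = R * y ^ 2 - R * (κ₁ * (z * ω)) := by ring
    have i3 : R * (K * (z * ω) - δ * μ) = R * (K * (z * ω)) - R * (δ * μ) := by ring
    rw [i1] at main
    rw [i2]
    linarith
  have e9 : r * (15 / 16 * (ε * μ)) ≤ r * (q * (v ^ 2 - κ * y * z' - μ * y)
      - R * (y ^ 2 - κ₁ * z * ω) + D * μ * z) := mul_le_mul_of_nonneg_left e8 hr.le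
  have hF₁' : F₁ ≤ ε / 16 * μ * r := by
    have : δ * μ₁ * r₁ = ε / 16 * μ * r := by
      calc δ * μ₁ * r₁ = δ * (μ₁ * r₁) := by ring
        _ = D * δ * (μ * r) := by rw [hμ₁]; ring
        _ = _ := by rw [hδD]; ring
    rw [this] at hF₁
    exact hF₁
  have hp : 0 < ε / 16 * μ * r := by positivity
  have hqF : -(ε / 16 * μ * r) ≤ q * F := by
    rcases le_total 0 F with h0 | h0
    · have : 0 ≤ q * F := mul_nonneg hq.le h0
      linarith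
    · have : F ≤ q * F := by nlinarith
      linarith
  have e12 : r₁ * (y ^ 2 - κ₁ * z * ω - μ₁ * z)
      = r * (R * (y ^ 2 - κ₁ * z * ω)) - r * (D * μ * z) := by
    have : r₁ * (y ^ 2 - κ₁ * z * ω - μ₁ * z) = r₁ * (y ^ 2 - κ₁ * z * ω) - (μ₁ * r₁) * z := by ring
    rw [this, hμ₁, hRr]
    ring
  have e13 : q * (F + r * (v ^ 2 - κ * y * z' - μ * y))
      - (F₁ + r₁ * (y ^ 2 - κ₁ * z * ω - μ₁ * z))
      = q * F - F₁ + r * (q * (v ^ 2 - κ * y * z' - μ * y)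
      - R * (y ^ 2 - κ₁ * z * ω) + D * μ * z) := by
    rw [e12]; ring
  rw [e13]
  have e14 : r * (15 / 16 * (ε * μ)) = 15 * (ε / 16 * μ * r) := by ring
  linarith

theorem algS_U {D K s₀ α b q c ε η : ℝ} (h : RegS D K s₀ α b q c ε η) (hq : 0 < q)
    {μ r κ r₁ κ₁ μ₁ y z z' ω v F F₁ : ℝ}
    (hμ : 0 < μ) (hr : 0 < r) (hR : s₀ * D * r ≤ r₁) (hR4 : r₁ ≤ D * r)
    (hμ₁ : μ₁ * r₁ = D * (μ * r)) (hκ0 : 0 ≤ κ)
    (hκ : κ ≤ K) (hκ₁ : K - ε / (16 * D) * μ ≤ κ₁) (hκ₁K : κ₁ ≤ K) (hy : -η ≤ y) (hy1 : y ≤ 1)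
    (hz : z = 1 - q * (1 - y)) (hz' : -η ≤ z') (hzz : z' ≤ z) (hω1 : ω ≤ 1)
    (hωL : α * z ^ 2 - b - c * μ₁ ≤ ω)
    (hv1 : v ≤ 1) (hyv : y ≤ 1 - q * (1 - v))
    (hF : -(ε / 16 * μ * r) ≤ F) (hF₁ : F₁ ≤ ε / (16 * D) * μ₁ * r₁) :
    0 < q * (F + r * (v ^ 2 - κ * y * z' - μ * y))
      - (F₁ + r₁ * (y ^ 2 - κ₁ * z * ω - μ₁ * z)) := by
  have hε := h.base.hε
  have hD := h.base.hD
  have hD0 : 0 < D := by linarith
  have hq1 := h.base.hq1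
  have hs0 := h.base.hs₀
  have hη := h.hη
  have hK := h.base.hK
  have hqη := h.hqη
  obtain ⟨R, hRr, hR1, hR2⟩ := ratio hr hR hR4
  have hR0 : 0 ≤ R := le_trans (by positivity) hR1
  have hz0 : 0 ≤ z := by rw [hz]; nlinarith
  have hz1 : z ≤ 1 := by rw [hz]; nlinarith
  have hRμ : R * μ₁ = D * μ := by
    have : R * μ₁ * r = D * μ * r := by
      calc R * μ₁ * r = μ₁ * (R * r) := by ring
        _ = μ₁ * r₁ := by rw [← hRr]
        _ = D * μ * r := by rw [hμ₁]; ring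
    exact mul_right_cancel₀ hr.ne' this
  have hωR : R * (α * z ^ 2 - b) - D * c * μ ≤ R * ω := by
    have h1 := mul_le_mul_of_nonneg_left hωL hR0
    have h2 : R * (α * z ^ 2 - b - c * μ₁) = R * (α * z ^ 2 - b) - c * (R * μ₁) := by ring
    rw [h2, hRμ] at h1
    linarith
  refine algS_Ucore hD hε hq hq1 hμ hr hRr hR0 hR2 hμ₁ hκ₁ hκ₁K hz0 hz1 hω1 ?_ hF hF₁
  rcases le_total 0 y with hy0 | hy0
  · have hyv' : y ≤ 1 - q * (1 - max v 0) := by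
      have : q * v ≤ q * max v 0 := mul_le_mul_of_nonneg_left (le_max_left _ _) hq.le
      linarith
    have main := h.base.hU hq R μ y z ω (max v 0) hR1 hR2 hμ hy0 hy1 hz (le_max_right _ _)
      (max_le hv1 zero_le_one) hyv' hωR
    have hvv : (max v 0) ^ 2 ≤ v ^ 2 := by
      rcases le_total v 0 with h1 | h1
      · rw [max_eq_right h1]; nlinarith [sq_nonneg v]
      · rw [max_eq_left h1]
    have e0 : κ * (y * z') ≤ κ * (y * z) :=
      mul_le_mul_of_nonneg_left (mul_le_mul_of_nonneg_left hzz hy0) hκ0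
    have hyz : 0 ≤ y * z := mul_nonneg hy0 hz0
    have e1 : κ * (y * z) ≤ K * (y * z) := mul_le_mul_of_nonneg_right hκ hyz
    have e2 : q * (max v 0 ^ 2 - K * y * z - μ * y) ≤ q * (v ^ 2 - κ * y * z' - μ * y) := by
      apply mul_le_mul_of_nonneg_left _ hq.le
      have i1 : K * y * z = K * (y * z) := by ring
      have i2 : κ * y * z' = κ * (y * z') := by ring
      rw [i1, i2]
      linarith
    linarith
  · have main := h.hUn hq R μ y z ω hR1 hR2 hμ hy hy0 hz hωR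
    have e1 : -(K * η ^ 2) ≤ - (κ * y * z') := by
      -- κ (-y) z' ≥ -κ η η
      have h1 : 0 ≤ κ * (-y) := mul_nonneg hκ0 (by linarith)
      have h2 : κ * (-y) * (-η) ≤ κ * (-y) * z' := mul_le_mul_of_nonneg_left hz' h1
      have h3 : κ * (-y) ≤ K * η := mul_le_mul hκ (by linarith) (by linarith) (by linarith)
      have h4 := mul_le_mul_of_nonneg_right h3 hη.le
      nlinarith
    have e2 : q * (-(K * η ^ 2)) ≤ q * (v ^ 2 - κ * y * z' - μ * y) := by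
      apply mul_le_mul_of_nonneg_left _ hq.le
      have h5 : 0 ≤ - (μ * y) := by
        have := mul_nonneg hμ.le (by linarith : 0 ≤ -y)
        linarith
      linarith [sq_nonneg v]
    have e3 : K * z * (R * ω) = R * (K * z * ω) := by ring
    have e4 : R * (y ^ 2 - K * z * ω) = R * y ^ 2 - R * (K * z * ω) := by ring
    rw [e4]
    linarith

theorem algS_U0 {D K s₀ α b q c ε η : ℝ} (h : RegS D K s₀ α b q c ε η) {μ r κ ω F : ℝ}
    (hμ : 0 < μ) (hr : 0 < r) (hκ : 0 ≤ κ) (hκK : κ ≤ K) (hω : -η ≤ ω)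
    (hωL : α * (1 - q) ^ 2 - b - c * μ ≤ ω) (hF : F ≤ ε / 16 * μ * r) :
    F + r * ((0:ℝ) ^ 2 - κ * (1 - q) * ω - μ * (1 - q)) < 0 := by
  have hε := h.base.hε
  have hq1 := h.base.hq1
  have hc := h.base.hc
  have hη := h.hη
  have h0 := h.h0
  have hK := h.base.hK
  have hεq := h.base.hεq
  have h1q : 0 < 1 - q := by linarith
  have hp : 0 < μ * r := by positivity
  have h2 : ε * (μ * r) ≤ (1 - q) * (μ * r) := mul_le_mul_of_nonneg_right hεq hp.le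
  have h3 : 0 < ε * (μ * r) := by positivity
  have key : - (κ * ω) ≤ μ / 2 := by
    rcases le_total 0 ω with h1 | h1
    · have : 0 ≤ κ * ω := mul_nonneg hκ h1
      linarith
    · have h4 : 2 * K * η * c ≤ c * μ := by linarith
      have h5 : 2 * K * η ≤ μ := by
        have : c * (2 * K * η) ≤ c * μ := by linarith
        exact le_of_mul_le_mul_left this hc
      have h6 : κ * (-ω) ≤ K * η := mul_le_mul hκK (by linarith) (by linarith) (by linarith)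
      linarith
  have h7 : r * (1 - q) * (- (κ * ω)) ≤ r * (1 - q) * (μ / 2) :=
    mul_le_mul_of_nonneg_left key (by positivity)
  have e : F + r * ((0:ℝ) ^ 2 - κ * (1 - q) * ω - μ * (1 - q))
      = F + r * (1 - q) * (- (κ * ω)) - (1 - q) * (μ * r) := by ring
  rw [e]
  have e2 : r * (1 - q) * (μ / 2) = (1 - q) * (μ * r) / 2 := by ring
  have e3 : ε / 16 * μ * r = ε * (μ * r) / 16 := by ring
  linarith

end Pool.Agent.N167.SG
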