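import Pool.Agent.N167.SG.LH

/-!
# Definitions used in the statement of `DyadicSharpThreshold`

The dyadic model of the Navier–Stokes equations on the `M`-ary tree is in `N167/TR/Def.lean`
(`inflow`, `rhs`, `IsSol`, `Rapid`), Leray–Hopf solutions are in `N167/SG/LH.lean`.
-/

namespace Pool.Agent.N167.SG

open Set TR

/-- Smooth datum: bounded by a rapidly decreasing function of the generation (any signs). -/
def SmoothDatum {M : ℕ} (x : List (Fin M) → ℝ) : Prop :=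
  ∃ y : ℕ → ℝ, Rapid y ∧ ∀ j, |x j| ≤ y j.length

/-- Smooth force: continuous in time and bounded, uniformly in time, by a rapidly decreasing
function of the generation (any signs). -/
def SmoothForce {M : ℕ} (f : List (Fin M) → ℝ → ℝ) : Prop :=
  (∀ j, ContinuousOn (f j) (Ici 0)) ∧
    ∃ F : ℕ → ℝ, Rapid F ∧ ∀ j, ∀ t, 0 ≤ t → |f j t| ≤ F j.length

/-- `X` is smooth on `[τ, ∞)`, uniformly in time. -/
def SmoothFrom {M : ℕ} (τ : ℝ) (X : List (Fin M) → ℝ → ℝ) : Prop :=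
  ∃ a : ℕ → ℝ, Rapid a ∧ ∀ j, ∀ t, τ ≤ t → |X j t| ≤ a j.length

/-- `X` is smooth on `[0, T]`. -/
def SmoothUpTo {M : ℕ} (T : ℝ) (X : List (Fin M) → ℝ → ℝ) : Prop :=
  ∃ a : ℕ → ℝ, Rapid a ∧ ∀ j, ∀ t ∈ Icc (0 : ℝ) T, |X j t| ≤ a j.length

/-- Global regularity and uniqueness for all smooth data and smooth forces of arbitrary sign:
there is a solution `X` which is smooth uniformly on `[0, ∞)`, it satisfies the energy equality
and it is the only Leray–Hopf solution; if datum and force are nonnegative then `X` is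
nonnegative and it is the only solution in any sense. -/
def GlobalRegularity (M : ℕ) (B D ν : ℝ) : Prop :=
  ∀ (x : List (Fin M) → ℝ) (f : List (Fin M) → ℝ → ℝ), SmoothDatum x → SmoothForce f →
    ∃ X : List (Fin M) → ℝ → ℝ, IsSol B D ν f x X ∧ SmoothFrom 0 X ∧
      (∀ t : ℝ, 0 ≤ t →
        ∑' j, (X j t ^ 2 + 2 * ν * D ^ j.length * ∫ τ in (0 : ℝ)..t, X j τ ^ 2) =
          ∑' j, x j ^ 2 + 2 * ∫ τ in (0 : ℝ)..t, ∑' j, f j τ * X j τ) ∧
      LerayHopf B D ν f x X ∧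
      (∀ Z : List (Fin M) → ℝ → ℝ, LerayHopf B D ν f x Z → ∀ j, ∀ t, 0 ≤ t → Z j t = X j t) ∧
      ((∀ j, 0 ≤ x j) → (∀ j, ∀ t, 0 ≤ t → 0 ≤ f j t) → (∀ j, ∀ t, 0 ≤ t → 0 ≤ X j t) ∧
        ∀ Z : List (Fin M) → ℝ → ℝ, IsSol B D ν f x Z → ∀ j, ∀ t, 0 ≤ t → Z j t = X j t)

/-- Blow-up without force: no nonnegative datum which is large at the root has a global solution
which is smooth on every bounded interval of times. -/
def BlowUp (M : ℕ) (B D ν : ℝ) : Prop :=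
  ∃ R : ℝ, ∀ x : List (Fin M) → ℝ, (∀ j, 0 ≤ x j) → R ≤ x [] →
    ¬ ∃ X : List (Fin M) → ℝ → ℝ, IsSol B D ν (fun _ _ => 0) x X ∧ ∀ T : ℝ, SmoothUpTo T X

end Pool.Agent.N167.SG
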