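import Pool.Agent.N167.SG.Amps
import Pool.Agent.N167.SG.Inst
import Pool.Agent.N167.TR.Final

namespace Pool.Agent.N167.SG

open Set Filter TR

theorem rapid_add {a b : ℕ → ℝ} (ha : Rapid a) (hb : Rapid b) : Rapid fun n => a n + b n := by
  intro s hs
  obtain ⟨C₁, h₁⟩ := ha s hs
  obtain ⟨C₂, h₂⟩ := hb s hs
  refine ⟨C₁ + C₂, fun n => ?_⟩
  have := h₁ n
  have := h₂ n
  rw [mul_add]
  linarith

theorem rapid_mul {a : ℕ → ℝ} (ha : Rapid a) {c : ℝ} (hc : 0 ≤ c) : Rapid fun n => c * a n := by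
  intro s hs
  obtain ⟨C, h⟩ := ha s hs
  refine ⟨c * C, fun n => ?_⟩
  have := mul_le_mul_of_nonneg_left (h n) hc
  linarith

/-- The data bound `y`, the bound `m` for the negative parts and the force bound `F` fit into an
invariant region with margin. -/
def StartS (M : ℕ) (B D ν : ℝ) (y m F : ℕ → ℝ) : Prop :=
  ∃ (K s₀ α b q c ε η m₀ : ℝ) (A κ μ r : ℕ → ℝ) (N₀ : ℕ),
    RegS D K s₀ α b q c ε η ∧ Amp M B D ν K s₀ ε A κ μ r ∧
    0 ≤ m₀ ∧ m₀ + q * η ≤ 1 - q ∧ α * m₀ ^ 2 + η ≤ b ∧ η ≤ m₀ ∧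
    (∀ n, N₀ ≤ n → α ≤ c * μ n) ∧
    (∀ n, N₀ ≤ n → B / D * (B ^ n * A n) ≤ 1 / 2 * (ν * D ^ (n + 1))) ∧
    (∀ n, y n ≤ m₀ * A n) ∧ (∀ n, F n ≤ ε / (16 * D) * (ν * D ^ n) * A n) ∧
    ∀ n, m n ≤ η * A n

/-- the combined data bound -/
noncomputable def comb (D ν ε η : ℝ) (y m F : ℕ → ℝ) (n : ℕ) : ℝ :=
  1 / η * (y n + m n) + 16 * D / (ε * ν) * F n

theorem startS_of {M : ℕ} {B D ν K s₀ α b q c ε η : ℝ} (hν : 0 < ν)
    (hReg : RegS D K s₀ α b q c ε η) {y m F : ℕ → ℝ} (hy : ∀ n, 0 ≤ y n) (hm : ∀ n, 0 ≤ m n)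
    (hF : ∀ n, 0 ≤ F n) (hA : Amps M B D ν K s₀ α c ε (comb D ν ε η y m F)) :
    StartS M B D ν y m F := by
  obtain ⟨A, κ, μ, r, N₀, hAmp, h1, h2, h3⟩ := hA
  have hη := hReg.hη
  have hε := hReg.base.hε
  have hD1 := hReg.base.hD
  have hD : 0 < D := by linarith
  refine ⟨K, s₀, α, b, q, c, ε, η, η, A, κ, μ, r, N₀, hReg, hAmp, hη.le, ?_, hReg.hηb.le, le_rfl,
    h1, h2, ?_, ?_, ?_⟩
  · have := hReg.hηq
    linarith
  · intro n
    have h4 := h3 n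
    simp only [comb] at h4
    have h5 : 0 ≤ 16 * D / (ε * ν) * F n := by have := hF n; positivity
    have h6 : 1 / η * (y n + m n) ≤ A n := by linarith
    rw [one_div, inv_mul_le_iff₀ hη] at h6
    have := hm n
    linarith
  · intro n
    have h4 := h3 n
    simp only [comb] at h4
    have h5 : 0 ≤ 1 / η * (y n + m n) := by have := hy n; have := hm n; positivity
    have h6 : 16 * D / (ε * ν) * F n ≤ A n := by linarith
    have h7 : F n ≤ ε / (16 * D) * ν * A n := by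
      have := mul_le_mul_of_nonneg_left h6 (by positivity : 0 ≤ ε / (16 * D) * ν)
      have e : ε / (16 * D) * ν * (16 * D / (ε * ν) * F n) = F n := by field_simp
      rw [e] at this
      exact this
    have h8 : (1:ℝ) ≤ D ^ n := one_le_pow₀ hD1
    have h9 : 0 ≤ ε / (16 * D) * ν * A n := by have := hAmp.A_pos n; positivity
    have h10 : ε / (16 * D) * (ν * D ^ n) * A n = ε / (16 * D) * ν * A n * D ^ n := by ring
    rw [h10]
    nlinarith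
  · intro n
    have h4 := h3 n
    simp only [comb] at h4
    have h5 : 0 ≤ 16 * D / (ε * ν) * F n := by have := hF n; positivity
    have h6 : 1 / η * (y n + m n) ≤ A n := by linarith
    rw [one_div, inv_mul_le_iff₀ hη] at h6
    have := hy n
    linarith

theorem comb_rapid {D ν ε η : ℝ} (hD : 0 < D) (hν : 0 < ν) (hε : 0 < ε) (hη : 0 < η)
    {y m F : ℕ → ℝ} (hy : Rapid y) (hm : Rapid m) (hF : Rapid F) : Rapid (comb D ν ε η y m F) :=
  rapid_add (rapid_mul (rapid_add hy hm) (by positivity)) (rapid_mul hF (by positivity))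

/-- all strictly subcritical starts for `D ≥ 4` -/
theorem startS_box {M : ℕ} {B D ν : ℝ} (hM : 0 < M) (hB : 0 < B) (hν : 0 < ν) (hD : 4 ≤ D)
    (hc : B ^ 2 < M * D ^ 3) {y m F : ℕ → ℝ} (hy : ∀ n, 0 ≤ y n) (hm : ∀ n, 0 ≤ m n)
    (hF : ∀ n, 0 ≤ F n)
    (hc' : ∀ ε η : ℝ, 0 < ε → 0 < η → ∀ s : ℝ, 0 < s → s < 1 → B ^ 2 ≤ M * D ^ 3 * s ^ 3 →
      ∃ C, 0 ≤ C ∧ ∀ n, comb D ν ε η y m F n ≤ C * (D / B * s) ^ n) :
    StartS M B D ν y m F := by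
  have hM' : (0:ℝ) < M := by exact_mod_cast hM
  have hDp : 0 < D := by linarith
  set κ : ℝ := M * D ^ 3 / B ^ 2 with hκ
  have hκ1 : 1 < κ := by rw [hκ, lt_div_iff₀ (by positivity)]; linarith
  have hκ0 : 0 < κ := by linarith
  obtain ⟨K, s₀, α, b, q, c, ε, η, hReg, hKκ, hκs⟩ := reg_existsS D κ hD hκ1
  have hK := hReg.base.hK
  have hKpos : 0 < K := by linarith
  set s : ℝ := (K / κ) ^ ((1:ℝ) / 3) with hs
  have hspos : 0 < s := Real.rpow_pos_of_pos (by positivity) _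
  have hs3 : s ^ 3 = K / κ := by
    rw [hs, ← Real.rpow_natCast, ← Real.rpow_mul (by positivity)]
    norm_num
  have hs1 : s < 1 := by
    apply Real.rpow_lt_one (by positivity) _ (by norm_num)
    rw [div_lt_one hκ0]; exact hKκ
  have hs₀s : s₀ ≤ s := by
    have h1 : s₀ ^ 3 ≤ s ^ 3 := by
      rw [hs3, le_div_iff₀ hκ0]
      linarith
    exact le_of_pow_le_pow_left₀ (by norm_num) hspos.le h1
  have hKs : K * B ^ 2 = M * D ^ 3 * s ^ 3 := by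
    rw [hs3, hκ]
    field_simp
  refine startS_of hν hReg hy hm hF (amp_sub hM hB hν hReg.base hs₀s hs1 hKs
    (hc' ε η hReg.base.hε hReg.hη s hspos hs1 ?_))
  rw [← hKs]
  nlinarith [sq_nonneg B]

/-- starts in the simple region; `s^4 = ϑ`. -/
theorem startS_simple {M : ℕ} {B D ν ϑ : ℝ} (hM : 0 < M) (hB : 0 < B) (hν : 0 < ν) (hD : 1 ≤ D)
    (h9 : (9/10 : ℝ) ^ 4 ≤ ϑ) (hϑ1 : ϑ < 1) (h10 : 10 * B ^ 2 ≤ M * D ^ 4 * ϑ)
    (h2 : 2 * B ^ 2 ≤ M * D ^ 3 * ϑ) {y m F : ℕ → ℝ} (hy : ∀ n, 0 ≤ y n) (hm : ∀ n, 0 ≤ m n)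
    (hF : ∀ n, 0 ≤ F n)
    (hc' : ∀ ε η : ℝ, 0 < ε → 0 < η → ∀ s : ℝ, 0 < s → s < 1 → s ^ 4 = ϑ →
      ∃ C, 0 ≤ C ∧ ∀ n, comb D ν ε η y m F n ≤ C * (D / B * s) ^ n) :
    StartS M B D ν y m F := by
  have hM' : (0:ℝ) < M := by exact_mod_cast hM
  have hDp : 0 < D := by linarith
  have hϑ0 : 0 < ϑ := lt_of_lt_of_le (by norm_num) h9
  set s : ℝ := ϑ ^ ((1:ℝ) / 4) with hs
  have hspos : 0 < s := Real.rpow_pos_of_pos hϑ0 _
  have hs4 : s ^ 4 = ϑ := by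
    rw [hs, ← Real.rpow_natCast, ← Real.rpow_mul hϑ0.le]
    norm_num
  have hs1 : s < 1 := Real.rpow_lt_one hϑ0.le hϑ1 (by norm_num)
  have hs9 : 9 / 10 ≤ s := by
    have h1 : (9/10 : ℝ) ^ 4 ≤ s ^ 4 := by rw [hs4]; exact h9
    exact le_of_pow_le_pow_left₀ (by norm_num) hspos.le h1
  set K : ℝ := M * D ^ 3 * s ^ 3 / B ^ 2 with hK
  have hs34 : s ^ 4 ≤ s ^ 3 := by
    have : s ^ 4 = s ^ 3 * s := by ring
    rw [this]
    have h3 : 0 < s ^ 3 := by positivity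
    nlinarith
  have hK2 : 2 ≤ K := by
    rw [hK, le_div_iff₀ (by positivity)]
    calc 2 * B ^ 2 ≤ M * D ^ 3 * ϑ := h2
      _ = M * D ^ 3 * s ^ 4 := by rw [hs4]
      _ ≤ M * D ^ 3 * s ^ 3 := mul_le_mul_of_nonneg_left hs34 (by positivity)
  have hP : 10 ≤ K * (s * D) := by
    have : K * (s * D) = M * D ^ 4 * s ^ 4 / B ^ 2 := by rw [hK]; ring
    rw [this, hs4, le_div_iff₀ (by positivity)]
    exact h10
  have hReg := simpleS hD hK2 hs9 hP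
  refine startS_of hν hReg hy hm hF (amp_sub hM hB hν hReg.base le_rfl hs1 ?_
    (hc' _ _ hReg.base.hε hReg.hη s hspos hs1 hs4))
  rw [hK]
  field_simp

theorem startS_smooth {M : ℕ} {B D ν : ℝ} (hM : 0 < M) (hB : 0 < B) (hν : 0 < ν) (hD : 1 < D)
    (hc : (4 ≤ D ∧ B ^ 2 ≤ M * D ^ 3) ∨ (D ≤ 4 ∧ 10 * B ^ 2 < M * D ^ 4))
    {y m F : ℕ → ℝ} (hy : ∀ n, 0 ≤ y n) (hm : ∀ n, 0 ≤ m n)
    (hF : ∀ n, 0 ≤ F n) (hyr : Rapid y) (hmr : Rapid m) (hFr : Rapid F) :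
    StartS M B D ν y m F := by
  have hM' : (0:ℝ) < M := by exact_mod_cast hM
  have hDp : 0 < D := by linarith
  have hcr : ∀ ε η : ℝ, 0 < ε → 0 < η → Rapid (comb D ν ε η y m F) := fun ε η hε hη =>
    comb_rapid hDp hν hε hη hyr hmr hFr
  rcases hc with ⟨hD4, hc⟩ | ⟨hD4, hc⟩
  · rcases hc.eq_or_lt with h | h
    · refine startS_of hν (regS_1 D hD4) hy hm hF ?_
      exact amp_crit hB hν hD4 h.symm
        (small_of_rapid (hcr _ _ (by norm_num) (by norm_num)) (by positivity))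
    · exact startS_box hM hB hν hD4 h hy hm hF fun ε η hε hη s hs _ _ =>
        rapid_bound (hcr ε η hε hη) (by positivity)
  · have h1 : 10 * B ^ 2 / (M * D ^ 4) < 1 := by rw [div_lt_one (by positivity)]; exact hc
    refine startS_simple (ϑ := max ((9/10 : ℝ) ^ 4) (10 * B ^ 2 / (M * D ^ 4))) hM hB hν hD.le
      (le_max_left _ _) (max_lt (by norm_num) h1) ?_ ?_ hy hm hF
      fun ε η hε hη s hs _ _ => rapid_bound (hcr ε η hε hη) (by positivity)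
    · have h2 := le_max_right ((9/10 : ℝ) ^ 4) (10 * B ^ 2 / (M * D ^ 4))
      have h3 := mul_le_mul_of_nonneg_left h2 (by positivity : (0:ℝ) ≤ M * D ^ 4)
      have h4 : M * D ^ 4 * (10 * B ^ 2 / (M * D ^ 4)) = 10 * B ^ 2 := by field_simp
      linarith
    · have h2 := le_max_right ((9/10 : ℝ) ^ 4) (10 * B ^ 2 / (M * D ^ 4))
      have h3 := mul_le_mul_of_nonneg_left h2 (by positivity : (0:ℝ) ≤ M * D ^ 3)
      have h4 : M * D ^ 3 * (10 * B ^ 2 / (M * D ^ 4)) = 10 * B ^ 2 / D := by field_simp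
      have h5 : 2 * B ^ 2 ≤ 10 * B ^ 2 / D := by
        rw [le_div_iff₀ hDp]
        nlinarith [sq_nonneg B]
      linarith

end Pool.Agent.N167.SG
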