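import Pool.Agent.N167.SG.LH

/-! Statements of the parts of project SG for data of finite energy and arbitrary sign
(helper167). -/

namespace Pool.Agent.N167.SG

open Set Filter TR

/-- SG/7: limits of Galerkin solutions along an ultrafilter, with the convergence. -/
def S_exist3 : Prop :=
  ∀ (M : ℕ) (B D ν : ℝ) (f : List (Fin M) → ℝ → ℝ) (x c : List (Fin M) → ℝ) (N₀ : ℕ)
    (X : ℕ → List (Fin M) → ℝ → ℝ),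
    (∀ j, ContinuousOn (f j) (Ici 0)) →
    (∀ N, N₀ ≤ N → ∀ j, j.length ≤ N → X N j 0 = x j) →
    (∀ N, N₀ ≤ N → SolUpTo B D ν f N N (X N)) →
    (∀ N, N₀ ≤ N → ∀ j, ∀ t ∈ Icc (0 : ℝ) N, |X N j t| ≤ c j) →
    ∃ (Y : List (Fin M) → ℝ → ℝ) (U : Ultrafilter ℕ), IsSol B D ν f x Y ∧
      (U : Filter ℕ) ≤ atTop ∧
      ∀ j, ∀ t, 0 ≤ t → Tendsto (fun N => X N j t) (U : Filter ℕ) (nhds (Y j t))

/-- SG/8: growth of the energy and dissipation for the Galerkin solutions. -/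
def S_diss : Prop :=
  ∀ (M : ℕ) (B D ν : ℝ) (f : List (Fin M) → ℝ → ℝ) (X : List (Fin M) → ℝ → ℝ)
    (E G : ℝ) (N : ℕ) (T : ℝ), 0 < B → 1 ≤ D → 0 < ν → 0 ≤ T →
    (∀ j, ∀ t ∈ Icc (0 : ℝ) T, ContinuousWithinAt (f j) (Icc 0 T) t) →
    (∀ j, N < j.length → ∀ t, X j t = 0) → SolUpTo B D ν f N T X →
    (∀ t ∈ Icc (0 : ℝ) T, ∑ n ∈ Finset.range (N + 1), gen n (fun j => f j t ^ 2) ≤ G) →
    (∀ t ∈ Icc (0 : ℝ) T, ∑ n ∈ Finset.range (N + 1), gen n (fun j => X j t ^ 2) ≤ E) →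
    (∀ t ∈ Icc (0 : ℝ) T, ∑ n ∈ Finset.range (N + 1), gen n (fun j => X j t ^ 2) ≤
      ∑ n ∈ Finset.range (N + 1), gen n (fun j => X j 0 ^ 2) + (E + G) * t) ∧
    ∀ τ : ℝ, 0 < τ → τ ≤ T → ∃ t₀ ∈ Icc (0 : ℝ) τ,
      ∑ n ∈ Finset.range (N + 1), D ^ n * gen n (fun j => X j t₀ ^ 2) ≤
        (E + (E + G) * τ) / (2 * ν * τ)

/-- SG/9: smoothing for solutions of arbitrary sign below a subcritical envelope. -/
def S_smooth3 : Prop :=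
  ∀ (M : ℕ) (B D ν θ : ℝ) (F A m : ℕ → ℝ) (N₀ : ℕ) (f : List (Fin M) → ℝ → ℝ)
    (x : List (Fin M) → ℝ) (X : List (Fin M) → ℝ → ℝ), 0 < M → 0 < B → 1 < D → 0 < ν → θ < 1 →
    Rapid F → (∀ j, ∀ t, 0 ≤ t → |f j t| ≤ F j.length) → IsSol B D ν f x X →
    (∀ j, ∀ t, 0 ≤ t → X j t ≤ A j.length) →
    (∀ ε : ℝ, 0 < ε → ∃ N : ℕ, ∀ n, N ≤ n → B ^ n * m n ≤ ε * D ^ n) →
    (∀ j, ∀ t, 0 ≤ t → - m j.length ≤ X j t) →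
    (∃ E : ℝ, ∀ j, ∀ t, 0 ≤ t → |X j t| ≤ E) →
    (∀ n, N₀ ≤ n → B / D * (B ^ n * A n) ≤ θ * (ν * D ^ (n + 1))) →
    ∀ τ : ℝ, 0 < τ → ∃ a : ℕ → ℝ, Rapid a ∧ ∀ j, ∀ t, τ ≤ t → |X j t| ≤ a j.length

/-- LH/3: a solution which is rapidly decreasing for positive times and whose energy does not jump
up at time `0` is a Leray–Hopf solution. -/
def S_LH3 : Prop :=
  ∀ (M : ℕ) (B D ν C : ℝ) (F : ℕ → ℝ) (f : List (Fin M) → ℝ → ℝ)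
    (x : List (Fin M) → ℝ) (X : List (Fin M) → ℝ → ℝ), 0 < M → 0 < B → 1 < D → 0 < ν →
    Rapid F → (∀ j, ContinuousOn (f j) (Ici 0)) → (∀ j, ∀ t, 0 ≤ t → |f j t| ≤ F j.length) →
    IsSol B D ν f x X → Summable (fun j => x j ^ 2) →
    (∀ τ : ℝ, 0 < τ → ∃ a : ℕ → ℝ, Rapid a ∧ ∀ j, ∀ t, τ ≤ t → |X j t| ≤ a j.length) →
    (∀ t : ℝ, 0 ≤ t → ∀ s : Finset (List (Fin M)),
      ∑ j ∈ s, X j t ^ 2 ≤ ∑' j, x j ^ 2 + C * t) →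
    LerayHopf B D ν f x X

end Pool.Agent.N167.SG
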